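import Pool.Agent.Work.MP_6bf1e5_an.HP.Up
import Pool.Agent.Work.MP_6bf1e5_an.H.Top

/-! The assembly of the static estimates, with the static estimates as the conclusion. -/

open scoped Real
open Finset MeasureTheory

namespace Pool.Agent.Work.MP_6bf1e5_an.H.Ca

open Pool.Agent.Lib.KLA Pool.Agent.Lib.KBlk Pool.Agent.Lib.KRad Gl Ps Jf Lt.Dat Fs

theorem Obj.Ok.static0 {O : Obj} {g τ : ℝ} {mv mu : Sc} (h : O.Ok mv mu g τ)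
    {Ψ S : Vc} {ψ s : Fin 2 → Vc} (hμ : K0.μ ≤ O.μ) (pot : Pot (-1 / 2) Ψ S)
    (potφ : ∀ k, Pot (-3) (ψ k) (s k)) (l1 : L1 O.L (1 / 64) (fld Ψ S) O.μ K0.μ')
    (pw0 : ∀ y, ∑ i, ∑ j, pd j (fld Ψ S i) y ^ 2 ≤ K0.b0 ^ 2 * Op (3 / 2) y)
    (pw1 : ∀ y, ∑ i, ∑ j, ∑ k, pd k (pd j (fld Ψ S i)) y ^ 2 ≤ K0.b1 ^ 2 * Om y)
    (pw2 : ∀ y, ∑ i, ∑ j, ∑ k, pd k (pd j (curl (fld Ψ S) i)) y ^ 2 ≤ K0.b2 ^ 2 * Om y ^ 2)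
    (pwθ : ∀ y, ∑ a, dot (curl (O.L.θF a)) (curl (O.L.θF a)) y
      + ∑ a, dot (curl (O.L.θZ a)) (curl (O.L.θZ a)) y ≤ K0.Cth ^ 2 * Om y ^ 3)
    (coer : O.L.Coer K0.cl K0.cz K0.ch K0.cb)
    (res : ∀ η > 0, ∃ A0, ∀ A ≥ A0, nw Om (Res (1 / 64) (cut A Ψ S)) ≤ (K0.e1 + η) ^ 2 ∧
      gw 1 (Res (1 / 64) (cut A Ψ S)) ≤ (K0.e2 + η) ^ 2)
    (iniE : ∀ a, O.L.E (pl (fun k => fld (ψ k) (s k)) a) ≤ -K0.c0 * ∑ k, a k ^ 2)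
    (iniX : ∀ a, O.L.X (pl (fun k => fld (ψ k) (s k)) a) ≤ K0.C0 * ∑ k, a k ^ 2)
    (nz : ∃ A0, ∀ A ≥ A0, 1 / 10 ^ 6 ≤ nw Om (curl (cut A Ψ S))) : Q.Stat0 := by
  refine ⟨O.L, Ψ, S, ψ, s, ⟨h.good, pot, potφ, fun w hw => le_trans ?_ (l1 w hw), pw0, pw1, pw2, pwθ,
    coer, res, iniE, iniX, nz⟩, rfl⟩
  have k1 := coer.lo _ (Dyn.hinf_curl hw.hinf)
  have k2 := Fn.nw_nonneg (.of_forall fun y => (SkBd_Om_pos y).le) (curl w)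
  have k3 : 0 ≤ O.L.zv (curl w) := Finset.sum_nonneg fun _ _ => sq_nonneg _
  have k4 : 0 ≤ O.L.X1 w := le_trans (by simp only [K0]; positivity) k1
  linarith [mul_le_mul_of_nonneg_right hμ k4]

namespace Fd

/-- The final assembly. -/
theorem blow1 {F : Fd} {g τ : ℝ} {t : HatT} {vth db du dw Cc : ℝ} {ψ s : Fin 2 → Vc} (h : F.O.Ok mv Lt.Dat.mu g τ)
    (p : F.O.Rs t) (k : t.Ok (5 / 2 ^ 14) F.D.Am.N F.D.Ah.N F.D.At.N F.As.N)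
    (k' : (t.tol (5 / 2 ^ 14)).Ok (t.kp * (1 + t.s) / 4) (1 / 64) (123 / 2 ^ 14) (5 / 2 ^ 14) g τ)
    (tail : ∀ w, Adm w → (∀ i, Perp (9 / 4) (64 + 1) (w i)) →
      -(vth * (nw mv (curl w) + nw Lt.Dat.mu w)) ≤ F.O.T.FF w)
    (hsp : 0 < t.kp * (1 + t.s) / 4 ∧ t.kp * (1 + t.s) / 4 + vth ≤ 1)
    (cV : ∀ᵐ y, ∀ q : Fin 3 → ℝ, ∑ i, ∑ j, q i * Vt i j y * q j + 8 / 1000 * Om y * ∑ i, q i ^ 2 ≤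
      ∑ i, ∑ j, q i * AA (fld (dat.Ψ 2) (dat.Sw 2)) i j y * q j
        + 1 / 64 * (lamS 64 * Op (5 / 2) y - cnS 64 * Op (3 / 2) y) * ∑ i, q i ^ 2)
    (cB : ∀ᵐ y, ∑ i, ∑ j, (BB (curl (fld (dat.Ψ 2) (dat.Sw 2))) i j y - Bt i j y) ^ 2
      ≤ db ^ 2 * Om y ^ 3)
    (cU : ∀ᵐ y, ∑ i, (fld (dat.Ψ 2) (dat.Sw 2) i y - Ut i y) ^ 2 ≤ du ^ 2 * Op (1 / 2) y)
    (cW : ∀ᵐ y, ∑ i, (curl (fld (dat.Ψ 2) (dat.Sw 2)) i y - Fs.Wt i y) ^ 2 ≤ dw ^ 2 * Op (3 / 2) y)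
    (hc : ∑ a, nw (Op (-1 / 2)) (curl (F.O.L.θF a)) + ∑ a, nw (Op (-1 / 2)) (curl (F.O.L.θZ a))
      ≤ Cc ^ 2)
    (nn : 0 ≤ db ∧ 0 ≤ du ∧ 0 ≤ dw ∧ 0 ≤ Cc ∧ db ≤ 8 / 10 ^ 5 ∧ (du + 7 / 2 * dw) * Cc ≤ 2 / 10 ^ 4)
    (pw0 : ∀ y, ∑ i, ∑ j, pd j (fld (dat.Ψ 2) (dat.Sw 2) i) y ^ 2 ≤ K0.b0 ^ 2 * Op (3 / 2) y)
    (pw1 : ∀ y, ∑ i, ∑ j, ∑ k, pd k (pd j (fld (dat.Ψ 2) (dat.Sw 2) i)) y ^ 2 ≤ K0.b1 ^ 2 * Om y)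
    (pw2 : ∀ y, ∑ i, ∑ j, ∑ k, pd k (pd j (curl (fld (dat.Ψ 2) (dat.Sw 2)) i)) y ^ 2
      ≤ K0.b2 ^ 2 * Om y ^ 2)
    (pwθ : ∀ y, ∑ a, dot (curl (F.O.L.θF a)) (curl (F.O.L.θF a)) y
      + ∑ a, dot (curl (F.O.L.θZ a)) (curl (F.O.L.θZ a)) y ≤ K0.Cth ^ 2 * Om y ^ 3)
    (coer : F.O.L.Coer K0.cl K0.cz K0.ch K0.cb) (potφ : ∀ k, Pot (-3) (ψ k) (s k))
    (iniE : ∀ a, F.O.L.E (pl (fun k => fld (ψ k) (s k)) a) ≤ -K0.c0 * ∑ k, a k ^ 2)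
    (iniX : ∀ a, F.O.L.X (pl (fun k => fld (ψ k) (s k)) a) ≤ K0.C0 * ∑ k, a k ^ 2) : Q.Stat0 := by
  obtain ⟨n1, n2, n3, n4, n5, n6⟩ := nn
  refine h.static0 (le_of_eq rfl) pot0 potφ (h.l1 (s := 1 / 5) gain lmi tail hsp (h.psd p k k') pot0
    cV cB cU cW hc coer.bes ⟨n1, n2, n3, n4, ?_, ?_, ?_⟩ ?_ ?_) pw0 pw1 pw2 pwθ coer res0 iniE iniX
    (nz0 pw1) <;> norm_num [K0]
  have : 0 ≤ (du + 7 / 2 * dw) * Cc := by positivity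
  nlinarith

end Fd

end Pool.Agent.Work.MP_6bf1e5_an.H.Ca
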