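import Pool.Agent.Work.MP_6bf1e5_an.HD.Fin
import Pool.Agent.Work.MP_6bf1e5_an.HP.Stat

/-! The static estimates on the stored data. -/

open Finset Pool.Agent.Lib.KLA Pool.Agent.Lib.KBlk

namespace Pool.Agent.Work.MP_6bf1e5_an.HD

open H H.Ca H.Ps H.Jf

theorem stat0 : Q.Stat0 := by
  obtain ⟨ψ, s, k1, k2, k3⟩ := Ini.ini0 _ ok0.good rfl kIni.down
  obtain ⟨a1, a2, a3, a4⟩ := szs
  refine Fd.blow1 (vth := 1890 / 10 ^ 4) ok0 rs0 ?_ ?_ (tail0 rfl rfl (fun d hd => ⟨rfl,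
    lt_of_le_of_lt (Nat.zero_le _) ((Pz.asz_spec jAS.down).2.2 _ hd.ps.1)⟩) ⟨rfl, rfl⟩ ok0 rs0
    (frF0 datOk) (frZ0 datOk) (by norm_num) (by norm_num) (by norm_num [t0])) ?_ dat_cV dat_cB
    dat_cU dat_cW (hc0 rfl rfl rs0.sy2) (by norm_num) dat_pw0 dat_pw1 dat_pw2 (pwθ0 ok0.good rfl rfl)
    (coer_of ok0.good (gam0 rfl rfl) (lo0 datOk (sF0 datOk)) (hi0 datOk rs0.sy2) ?_) k1 k2 k3
  · rw [a1, a2, a3, a4]
    norm_num [HatT.Ok, t0]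
  · norm_num [Tol.Ok, HatT.tol, t0]
  · norm_num [t0]
  · norm_num [K0]

end Pool.Agent.Work.MP_6bf1e5_an.HD
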