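import Pool.Agent.Work.MP_6bf1e5_an.HP.Fou
import Pool.Agent.Work.MP_6bf1e5_an.H.UpOrb

/-!
Energy identities and the rescaled equation: port of DynHinf, DynTr, DynUB, DynEn, DynPS, DynRS.
-/

open scoped ContDiff ENNReal FourierTransform Real
open Set MeasureTheory

namespace Pool.Agent.Work.MP_6bf1e5_an.H.Q

open Dyn

variable [P : Par]

section

variable {f g : Sc} {V : Vc}

theorem hinf_GG (ν : ℝ) (hV : ∀ i, Hinf (V i)) (i : Fin 3) : Hinf (GG ν V i) := by
  refine hinf_sub (hinf_curl (fun k => ?_) i) (hinf_cmul (hinf_lam (hinf_curl hV i)) ν)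
  exact hinf_sub (hinf_mul (hV _) (hinf_curl hV _)) (hinf_mul (hV _) (hinf_curl hV _))

theorem pds_lam (hf : Hinf f) (l : List (Fin 3)) : pds l (Lam f) = Lam (pds l f) := by
  induction l with
  | nil => rfl
  | cons j l ih =>
    have e : ∀ g : Sc, pds (j :: l) g = pd j (pds l g) := fun _ => rfl
    rw [e, e, ih]
    exact pd_Dp (hinf_pds hf l).inA se_nn j

theorem lam_sub (hf : Hinf f) (hg : Hinf g) :
    Lam (fun y => f y - g y) = fun y => Lam f y - Lam g y := by
  have h1 := Dp_add hf.inA (hinf_cmul hg (-1)).inA se_nn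
  rw [Dp_smul hg.inA se_nn] at h1
  have e : (fun y => f y - g y) = f + fun y => -1 * g y := by
    funext y
    simp [sub_eq_add_neg]
  rw [e, Lam, h1]
  funext y
  simp [sub_eq_add_neg, Lam]

theorem curl_lam (hV : ∀ i, Hinf (V i)) (i : Fin 3) : curl (LamV V) i = Lam (curl V i) := by
  have h := lam_sub ((hV (i + 2)).pd (i + 1)) ((hV (i + 1)).pd (i + 2))
  have h1 : ∀ j k, pd j (Lam (V k)) = Lam (pd j (V k)) := fun j k => pds_lam (hV k) [j]
  funext y
  exact (congrArg₂ (· - ·) (congrFun (h1 _ _) y) (congrFun (h1 _ _) y)).trans (congrFun h y).symm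

end

theorem transport {S : ℝ} (hS : 0 < S) {h H : ℝ → Sc} (hj : JS S h)
    (hh : ∀ s ∈ Icc 0 S, Integrable (h s)) (hH : L1B S H)
    (he : ∀ s ∈ Ioo 0 S, ∀ y, HasDerivAt (fun σ => h σ y) (-(ga * yd (h s) y) + H s y) s) :
    IDer S (fun s => ∫ y, h s y) fun s => 3 * ga * (∫ y, h s y) + ∫ y, H s y := by
  set c : ℝ → ℝ := fun s => Real.exp (ga * s) with hc
  have hc0 : ∀ s, 0 < c s := fun s => Real.exp_pos _
  have hc3 : ∀ s, c s ^ 3 = Real.exp (3 * ga * s) := fun s => by
    rw [hc, ← Real.exp_nat_mul]; congr 1; push_cast; ring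
  have hcd : ∀ s, HasDerivAt c (ga * c s) s := fun s => by
    have := ((hasDerivAt_id s).const_mul ga).exp
    simpa [hc, mul_comm] using this
  have hk : JS S fun s y => h s (c s • y) :=
    (hj.resc (a := fun _ => 1) (c := c) (τ := fun s => s) contDiff_const (by rw [hc]; fun_prop)
      contDiff_id fun s hs => hs).congr fun s _ => by simp
  obtain ⟨C, hC⟩ := hH
  have hA := tr_fubini hS hk (H := fun s y => H s (c s • y))
    (fun s hs => (hh s hs).comp_smul (hc0 s).ne')
    ⟨C, fun s hs => ⟨(hC s hs).1.comp_smul (hc0 s).ne', by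
      rw [int_scale (fun y => |H s y|) (hc0 s)]
      have h1 : (c s ^ 3)⁻¹ ≤ 1 := inv_le_one_of_one_le₀ (by
        rw [hc3]; exact Real.one_le_exp (mul_nonneg (mul_nonneg (by norm_num) ga_pos.le) hs.1))
      have h2 : 0 ≤ ∫ y, |H s y| := integral_nonneg fun y => abs_nonneg _
      nlinarith [(hC s hs).2]⟩⟩
    (fun s hs y => by
      have h1 := hj.chain (τ := fun σ => σ) (hcd s) (hasDerivAt_id s) hs (he s hs) y
      convert h1 using 1
      rw [yd_eq (hj.smooth (Ioo_subset_Icc_self hs)), map_smul, smul_eq_mul]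
      ring)
  have hB : IDer S (fun s => Real.exp (3 * ga * s)) fun s => 3 * ga * Real.exp (3 * ga * s) :=
    IDer.of_deriv hS.le (fun s => by
      have := ((hasDerivAt_id s).const_mul (3 * ga)).exp
      simpa [mul_comm] using this) (by fun_prop)
  refine (hB.mul hA hS.le).congr hS.le (fun s _ => ?_) fun s _ => ?_
  · rw [int_scale (h s) (hc0 s), hc3]
    field_simp
  · rw [int_scale (h s) (hc0 s), int_scale (H s) (hc0 s), hc3]
    field_simp

section

variable {S : ℝ} {f : ℝ → Sc}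

theorem ub_lam (h : UB S f) : UB S fun s => Lam (f s) := by
  refine ⟨fun s hs => hinf_lam (h.1 s hs), fun l => ?_⟩
  choose C hC using h.2
  refine ⟨C l + 3 * ∑ j, C (j :: j :: l), fun s hs => ?_⟩
  rw [pds_lam (h.1 s hs)]
  have h1 := lam_sq_le (hinf_pds (h.1 s hs) l)
  have h3 : ∑ j, ∫ z, H.pd j (H.pd j (pds l (f s))) z ^ 2 ≤ ∑ j, C (j :: j :: l) :=
    Finset.sum_le_sum fun j _ => hC (j :: j :: l) s hs
  have h2 := hC l s hs
  linarith

theorem ub_GG (ν : ℝ) {V : ℝ → Vc} (h : ∀ i, UB S fun s => V s i) (i : Fin 3) :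
    UB S fun s => GG ν (V s) i := by
  have hc : ∀ k, UB S fun s => H.curl (V s) k := UB.curl h
  have hx : ∀ k, UB S fun s => cross (V s) (H.curl (V s)) k := fun k =>
    ((h (k + 1)).mul (hc (k + 2))).sub ((h (k + 2)).mul (hc (k + 1)))
  exact (UB.curl (V := fun s => cross (V s) (H.curl (V s))) hx i).sub ((ub_lam (hc i)).cmul ν)

end

section

variable {S a : ℝ} {f G : ℝ → Vc}

theorem DynEn_pair {b : ℝ} {f G g K : ℝ → Sc} (h : Evo S a f G) (h' : Evo S b g K) (hS : 0 < S)
    {w v : Sc} (hw : ContDiff ℝ ∞ w) {C : ℝ} (hC : ∀ y, |w y| ≤ C) (hv : Continuous v) {D : ℝ}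
    (hD : ∀ y, |v y| ≤ D) (hyd : ∀ y, ga * yd w y + (3 * ga - a - b) * w y = v y) :
    IDer S (fun s => ∫ y, w y * (f s y * g s y)) fun s => (∫ y, v y * (f s y * g s y)) +
      ((∫ y, w y * (G s y * g s y)) + ∫ y, w y * (f s y * K s y)) := by
  have hwc := hw.continuous
  have hu : Continuous fun y => v y - 3 * ga * w y := hv.sub (continuous_const.mul hwc)
  have hb : ∀ y, |v y - 3 * ga * w y| ≤ D + |3 * ga| * C := fun y => by
    refine (abs_sub _ _).trans (add_le_add (hD y) ?_)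
    rw [abs_mul]
    exact mul_le_mul_of_nonneg_left (hC y) (abs_nonneg _)
  have key := transport (h := fun s y => w y * (f s y * g s y))
    (H := fun s y => (v y - 3 * ga * w y) * (f s y * g s y) +
      (w y * (G s y * g s y) + w y * (f s y * K s y))) hS
    ((JS.const hw).mul (h.js.mul h'.js))
    (fun s hs => int_wmul hwc hC (h.ub.1 s hs) (h'.ub.1 s hs))
    ((L1B.prod hu hb h.ub h'.ub).add ((L1B.prod hwc hC h.ubG h'.ub).add
      (L1B.prod hwc hC h.ub h'.ubG)))
    (fun s hs y => by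
      have hs' : s ∈ Icc 0 S := Ioo_subset_Icc_self hs
      have hf := (h.ub.1 s hs').1
      have hg := (h'.ub.1 s hs').1
      have e1 := yd_mul hw (hf.mul hg)
      have e2 := yd_mul hf hg
      have hd := ((h.eq s hs y).mul (h'.eq s hs y)).const_mul (w y)
      refine hd.congr_deriv ?_
      rw [e1, e2, ← hyd y]
      ring)
  refine key.congr hS.le (fun s _ => rfl) fun s hs => ?_
  have hs' : s ∈ Icc 0 S := Ioo_subset_Icc_self hs
  have i1 := int_wmul hwc hC (h.ub.1 s hs') (h'.ub.1 s hs')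
  have i2 := int_wmul hv hD (h.ub.1 s hs') (h'.ub.1 s hs')
  have i3 := int_wmul hwc hC (h.ubG.1 s hs') (h'.ub.1 s hs')
  have i4 := int_wmul hwc hC (h.ub.1 s hs') (h'.ubG.1 s hs')
  have i5 := int_wmul hu hb (h.ub.1 s hs') (h'.ub.1 s hs')
  have e : (fun y => (v y - 3 * ga * w y) * (f s y * g s y)) =
      fun y => v y * (f s y * g s y) - 3 * ga * (w y * (f s y * g s y)) := by
    funext y
    ring
  have i6 : Integrable fun y => w y * (G s y * g s y) + w y * (f s y * K s y) := i3.add i4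
  rw [integral_add i5 i6, integral_add i3 i4, e, integral_sub i2 (i1.const_mul (3 * ga)),
    integral_const_mul]
  ring

theorem DynEn_sum {ι : Type} [Fintype ι] {b : ℝ} {f G g K : ι → ℝ → Sc}
    (h : ∀ i, Evo S a (f i) (G i)) (h' : ∀ i, Evo S b (g i) (K i)) (hS : 0 < S)
    {w v : Sc} (hw : ContDiff ℝ ∞ w) {C : ℝ} (hC : ∀ y, |w y| ≤ C) (hv : Continuous v) {D : ℝ}
    (hD : ∀ y, |v y| ≤ D) (hyd : ∀ y, ga * yd w y + (3 * ga - a - b) * w y = v y) :
    IDer S (fun s => ∫ y, w y * ∑ i, f i s y * g i s y) fun s =>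
      (∫ y, v y * ∑ i, f i s y * g i s y) +
      ((∫ y, w y * ∑ i, G i s y * g i s y) + ∫ y, w y * ∑ i, f i s y * K i s y) := by
  have hwc := hw.continuous
  refine (IDer.sum Finset.univ (fun i _ => DynEn_pair (h i) (h' i) hS hw hC hv hD hyd)
    hS.le).congr hS.le (fun s hs => ?_) fun s hs => ?_
  · exact DynEn_int hwc hC (fun i => (h i).ub.1 s hs) fun i => (h' i).ub.1 s hs
  · have hs' : s ∈ Icc 0 S := Ioo_subset_Icc_self hs
    rw [Finset.sum_add_distrib, Finset.sum_add_distrib,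
      DynEn_int hv hD (fun i => (h i).ub.1 s hs') fun i => (h' i).ub.1 s hs',
      DynEn_int hwc hC (fun i => (h i).ubG.1 s hs') fun i => (h' i).ub.1 s hs',
      DynEn_int hwc hC (fun i => (h i).ub.1 s hs') fun i => (h' i).ubG.1 s hs']

theorem DynEn_const {θ : Sc} (hθ : Sym (-3) θ) :
    Evo S 1 (fun _ => θ) fun _ y => θ y + ga * yd θ y := by
  have h1 : Hinf θ := hθ.hinf (by norm_num)
  have h2 : Hinf (yd θ) := (sym_yd hθ).hinf (by norm_num)
  refine ⟨JS.const h1.1, UB.const h1, UB.const (hinf_add h1 (hinf_cmul h2 _)), fun s _ y => ?_⟩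
  refine (hasDerivAt_const s (θ y)).congr_deriv ?_
  ring

theorem Evo.pd {f G : ℝ → Sc} (h : Evo S a f G) (hS : 0 < S) (j : Fin 3) :
    Evo S (a + ga) (fun s => pd j (f s)) fun s => pd j (G s) := by
  refine ⟨h.js.pd hS j, h.ub.pd j, h.ubG.pd j, fun s hs y => ?_⟩
  have hs' : s ∈ Icc 0 S := Ioo_subset_Icc_self hs
  have hf := (h.ub.1 s hs').1
  have hG := (h.ubG.1 s hs').1
  have hy := yd_smooth hf
  refine (h.js.hasDerivAt_pd hs (h.eq s hs) j y).congr_deriv ?_
  have h1 : ContDiff ℝ ∞ fun y => a * f s y := contDiff_const.mul hf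
  have h2 : ContDiff ℝ ∞ fun y => ga * yd (f s) y := contDiff_const.mul hy
  rw [pd_add (h1.neg.sub h2) hG, pd_sub h1.neg h2, pd_neg, pd_cmul hf, pd_cmul hy, pd_yd hf]
  ring

theorem EvoV.ider_Om (h : EvoV S f G) (hS : 0 < S) : IDer S (fun s => nw Om (f s)) fun s =>
    2 * (-nw (fun y => Om y * (1 - ga / 2 * (1 + Om y))) (f s) + ip (G s) (sm Om (f s))) := by
  have hC : ∀ y, |Om y| ≤ 2 := fun y => by
    rw [abs_of_pos (Om_pos y)]
    exact Om_le y
  have hc := Om_smooth.continuous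
  have hD : ∀ y, |-2 * (Om y * (1 - ga / 2 * (1 + Om y)))| ≤ 4 := fun y => by
    have h1 := Om_pos y
    have h2 := Om_le y
    have h3 := mul_le_mul ga_hi (show 1 + Om y ≤ 3 by linarith) (by linarith) (by norm_num)
    have h4 := mul_pos ga_pos (show 0 < 1 + Om y by linarith)
    exact abs_le.2 ⟨by nlinarith, by nlinarith⟩
  have key := DynEn_sum (v := fun y => -2 * (Om y * (1 - ga / 2 * (1 + Om y)))) h h hS Om_smooth hC
    (continuous_const.mul (hc.mul (continuous_const.sub (continuous_const.mul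
      (continuous_const.add hc))))) hD (fun y => by rw [yd_Om]; ring)
  refine key.congr hS.le (fun s _ => rfl) fun s _ => ?_
  have e1 : (fun y => -2 * (Om y * (1 - ga / 2 * (1 + Om y))) * ∑ i, f s i y * f s i y) =
      fun y => -2 * (Om y * (1 - ga / 2 * (1 + Om y)) * dot (f s) (f s) y) := by
    funext y
    rw [dot, mul_assoc]
  have e2 : (fun y => Om y * ∑ i, G s i y * f s i y) = dot (G s) (sm Om (f s)) := by
    funext y
    simp only [dot, sm, Fin.sum_univ_three]
    ring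
  have e3 : (fun y => Om y * ∑ i, f s i y * G s i y) = dot (G s) (sm Om (f s)) := by
    funext y
    simp only [dot, sm, Fin.sum_univ_three]
    ring
  rw [e1, e2, e3, integral_const_mul]
  simp only [nw, ip]
  ring

theorem EvoV.ider_one (h : EvoV S f G) (hS : 0 < S) :
    IDer S (fun s => nw 1 (f s)) fun s => (3 * ga - 2) * nw 1 (f s) + 2 * ip (G s) (f s) := by
  have key := DynEn_sum (w := fun _ => 1) (v := fun _ => 3 * ga - 2) (C := 1) (D := |3 * ga - 2|)
    h h hS contDiff_const (fun y => by simp) continuous_const (fun y => le_rfl)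
    (fun y => by rw [DynEn_yd_one]; ring)
  refine key.congr hS.le (fun s _ => rfl) fun s _ => ?_
  have e3 : (fun y => ∑ i, f s i y * G s i y) = dot (G s) (f s) := by
    funext y
    simp only [dot, mul_comm]
  simp only [one_mul, integral_const_mul, nw, Pi.one_apply]
  rw [e3, two_mul]
  rfl

theorem EvoV.ider_ip (h : EvoV S f G) (hS : 0 < S) {θ : Vc} (hθ : ∀ i, Sym (-3) (θ i)) :
    IDer S (fun s => ip (f s) θ) fun s => (3 * ga - 2) * ip (f s) θ
      + ip (f s) (fun i y => θ i y + ga * yd (θ i) y) + ip (G s) θ := by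
  have key := DynEn_sum (w := fun _ => 1) (v := fun _ => 3 * ga - 2) (C := 1) (D := |3 * ga - 2|) h
    (fun i => DynEn_const (hθ i)) hS
    contDiff_const (fun y => by simp) continuous_const (fun y => le_rfl)
    (fun y => by rw [DynEn_yd_one]; ring)
  refine key.congr hS.le (fun s _ => ?_) fun s _ => ?_
  · simp only [one_mul, ip, dot]
  · simp only [one_mul, integral_const_mul, ip, dot]
    ring

theorem EvoV.ider_gw (h : EvoV S f G) (hS : 0 < S) : IDer S (fun s => gw 1 (f s)) fun s =>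
    2 * (-((1 - ga / 2) * gw 1 (f s)) + ∫ y, ∑ i, ∑ j, H.pd j (G s i) y * H.pd j (f s i) y) := by
  have hp : ∀ k : Fin 3 × Fin 3, Evo S (1 + ga) (fun s => H.pd k.2 (f s k.1))
      fun s => H.pd k.2 (G s k.1) := fun k => (h k.1).pd hS k.2
  have key := DynEn_sum (w := fun _ => 1) (v := fun _ => ga - 2) (C := 1) (D := |ga - 2|) hp hp hS
    contDiff_const (fun y => by simp) continuous_const (fun y => le_rfl)
    (fun y => by rw [DynEn_yd_one]; ring)
  refine key.congr hS.le (fun s _ => ?_) fun s _ => ?_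
  · simp only [gw, Fintype.sum_prod_type, sq, Pi.one_apply]
  · have e : (fun y => ∑ i, ∑ j, H.pd j (f s i) y * H.pd j (G s i) y) =
        fun y => ∑ i, ∑ j, H.pd j (G s i) y * H.pd j (f s i) y := by
      funext y
      simp only [mul_comm]
    simp only [gw, Fintype.sum_prod_type, sq, Pi.one_apply, one_mul, integral_const_mul]
    rw [e]
    ring

end

section

variable {ν T : ℝ} {u : ℝ → Vc} {p : ℝ → Sc}

/-- What the proof uses of a solution. -/
theorem fsol_bounds {ν T : ℝ} {u0 : R3 → R3} {u : R3 → ℝ → R3} {p : R3 → ℝ → ℝ}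
    {U : ℝ → Fin 3 → R3 → ℂ} (h : FSol P.al ν u0 T u p U) :
    (∀ t ∈ Icc 0 T, ∀ i, Hinf fun y => u y t i) ∧
    (∀ l, ∀ s ≥ 0, ∃ C, ∀ t ∈ Icc 0 T, ∀ i, ∫ y, pds l (Dp s fun y => u y t i) y ^ 2 ≤ C ∧
      ∀ x, |pds l (Dp s fun y => u y t i) x| ≤ C) ∧
    ∀ x, ∀ t ∈ Icc 0 T, ∀ i, derivWithin (fun s => u x s i) (Icc 0 T) t
      + ∑ j, u x t j * pd j (fun y => u y t i) x + pd i (fun y => p y t) x
      = -ν * Lam (fun y => u y t i) x := by
  refine ⟨fun t ht i => (FourH_rep h ht i).hinf, fun l s hs => ?_, fun x t ht i => ?_⟩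
  · obtain ⟨C, hC, hb⟩ := h.sobolev (2 * (l.length + ⌈s⌉₊) + 2)
    obtain ⟨D, hD⟩ := four_unif (l.length + ⌈s⌉₊) ((4 * π) ^ (l.length + ⌈s⌉₊)) hC
    refine ⟨D, fun t ht i => ?_⟩
    obtain ⟨G, hG, hle⟩ := ((FourH_rep h ht i).Dp hs).pds l
    refine hD _ G (U t i) hG (fun ξ => (hle ξ).trans ?_) (hb t ht i)
    rw [norm_mul, sy_norm, ← mul_assoc]
    exact mul_le_mul_of_nonneg_right (FourH_sym hs _ ξ) (norm_nonneg _)
  · rw [h.momentum x t ht i, Lam, (FourH_rep h ht i).1.Dp_eq]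
    rfl

theorem DynPS_lam_sum {F : Vc} (hF : ∀ j, Hinf (F j)) (c : Fin 3 → ℝ) :
    Lam (fun y => ∑ j, c j * F j y) = fun y => ∑ j, c j * Lam (F j) y := by
  have hs := se_nn
  have h := fun j => hinf_cmul (hF j) (c j)
  have e : (fun y => ∑ j, c j * F j y)
      = (fun y => c 0 * F 0 y) + (fun y => c 1 * F 1 y) + fun y => c 2 * F 2 y := by
    funext y
    simp only [Fin.sum_univ_three, Pi.add_apply]
  unfold Lam
  rw [e, Dp_add ((h 0).add (h 1)).inA (h 2).inA hs, Dp_add (h 0).inA (h 1).inA hs,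
    Dp_smul (hF 0).inA hs, Dp_smul (hF 1).inA hs, Dp_smul (hF 2).inA hs]
  funext y
  simp only [Fin.sum_univ_three, Pi.add_apply]

theorem psol_of_fsol {u0 : R3 → R3} {w : R3 → ℝ → R3} {q : R3 → ℝ → ℝ} {U : ℝ → Fin 3 → R3 → ℂ}
    (h : FSol P.al ν u0 T w q U) : PSol ν T (fun t i y => w y t i) fun t y => q y t := by
  obtain ⟨h1, h2, h3⟩ := fsol_bounds h
  have js : ∀ i, JS T fun t y => w y t i := fun i => contDiffOn_euclidean.1 h.smooth_u i
  refine ⟨js, fun t ht => JS.smooth (f := fun t y => q y t) h.smooth_p ht,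
    fun i => ⟨fun s hs => h1 s hs i, fun l => ?_⟩, fun t ht y => h.divFree y t ht,
    fun t ht i y => ?_⟩
  · obtain ⟨C, hC⟩ := h2 l 0 le_rfl
    refine ⟨C, fun s hs => ?_⟩
    have := (hC s hs i).1
    rwa [dp_zero (h1 s hs i)] at this
  · have ht' := Ioo_subset_Icc_self ht
    have hc : ContDiffOn ℝ ∞ (fun s => w y s i) (Icc 0 T) :=
      ContDiffOn.comp (f := fun s : ℝ => (y, s)) (js i) (by fun_prop)
        fun s hs => ⟨mem_univ _, hs⟩
    have hd := ((hc.differentiableOn (by simp) t ht').hasDerivWithinAt).hasDerivAt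
      (Icc_mem_nhds ht.1 ht.2)
    have := h3 y t ht' i
    exact hd.congr_deriv (by linarith)

theorem lam_rot {M : Matrix (Fin 3) (Fin 3) ℝ} (hM : M.transpose * M = 1) {V : Vc}
    (hV : ∀ i, Hinf (V i)) (i : Fin 3) : Lam (rot M V i) = rot M (LamV V) i := by
  refine (DynPS_lam_sum (F := fun j y => V j (act M y)) (fun j => hinf_act hM (hV j))
    fun j => M j i).trans (funext fun y => Finset.sum_congr rfl fun j _ => ?_)
  unfold LamV Lam
  rw [Dp_act (hV j).inA se_nn hM]

theorem PSol.rot (h : PSol ν T u p) {M : Matrix (Fin 3) (Fin 3) ℝ} (hM : M.transpose * M = 1) :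
    PSol ν T (fun t => rot M (u t)) fun t y => p t (act M y) := by
  have hu : ∀ t ∈ Icc 0 T, ∀ i, Hinf (u t i) := fun t ht i => (h.ub i).1 t ht
  refine ⟨fun i => JS.sum Finset.univ (F := fun j t y => M j i * u t j (act M y))
      fun j _ => ((h.js j).act M).cmul (M j i),
    fun t ht => (h.sp t ht).comp (act_smooth M),
    fun i => UB.sum Finset.univ (F := fun j t y => M j i * u t j (act M y))
      fun j _ => ((h.ub j).act hM).cmul (M j i), fun t ht y => ?_, fun t ht i y => ?_⟩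
  · have hd := h.dv t ht (act M y)
    have e := fun j => DynPS_dot hM (Pi.single j 1) fun k => pd k (u t j) (act M y)
    have e0 := e 0
    have e1 := e 1
    have e2 := e 2
    unfold dvg at hd ⊢
    simp only [DynPS_pd_rot M fun i => (hu t ht i).1]
    simp only [Fin.sum_univ_three, Pi.single_apply, Fin.isValue, Fin.reduceEq, if_true, if_false,
      mul_one, mul_zero, one_mul, zero_mul, add_zero, zero_add] at hd e0 e1 e2 ⊢
    linear_combination hd + e0 + e1 + e2
  · have ht' := Ioo_subset_Icc_self ht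
    have hd := HasDerivAt.fun_sum (u := Finset.univ)
      fun j _ => (h.eq t ht j (act M y)).const_mul (M j i)
    refine hd.congr_deriv (Eq.symm ?_)
    have e := fun j => DynPS_dot hM (fun k => u t k (act M y)) fun k => pd k (u t j) (act M y)
    have e0 := e 0
    have e1 := e 1
    have e2 := e 2
    rw [lam_rot hM (hu t ht'), pd_act (h.sp t ht')]
    simp only [DynPS_pd_rot M fun i => (hu t ht' i).1]
    simp only [Dyn.rot, LamV, Fin.sum_univ_three] at e0 e1 e2 ⊢
    linear_combination (-M 0 i) * e0 - M 1 i * e1 - M 2 i * e2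

theorem PSol.vort (h : PSol ν T u p) {t : ℝ} (ht : t ∈ Ioo 0 T) (i : Fin 3) (y : R3) :
    HasDerivAt (fun τ => curl (u τ) i y) (GG ν (u t) i y) t := by
  have ht' := Ioo_subset_Icc_self ht
  have hu : ∀ i, Hinf (u t i) := fun i => (h.ub i).1 t ht'
  have h1 := fun k j => (h.js k).hasDerivAt_pd ht (h.eq t ht k) j y
  have hA : ∀ k, ContDiff ℝ ∞ fun z => -∑ j, u t j z * pd j (u t k) z := fun k =>
    (ContDiff.sum fun j _ => (hu j).1.mul (pd_smooth (hu k).1 j)).neg
  have hP : ∀ k, ContDiff ℝ ∞ (pd k (p t)) := pd_smooth (h.sp t ht')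
  have hL : ∀ k, ContDiff ℝ ∞ (Lam (u t k)) := fun k => (hinf_lam (hu k)).1
  have e : ∀ k j, pd j (fun z => -(∑ j, u t j z * pd j (u t k) z) - pd k (p t) z
      - ν * Lam (u t k) z) y = pd j (fun z => -∑ j, u t j z * pd j (u t k) z) y
      - pd j (pd k (p t)) y - ν * pd j (Lam (u t k)) y := fun k j => by
    rw [pd_sub ((hA k).sub (hP k)) (contDiff_const.mul (hL k)), pd_sub (hA k) (hP k),
      pd_cmul (hL k)]
  simp only [e] at h1
  refine ((h1 (i + 2) (i + 1)).sub (h1 (i + 1) (i + 2))).congr_deriv (Eq.symm ?_)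
  have a1 := curl_adv (fun k => (hu k).1) i y
  have a2 := curl_grad (h.sp t ht') i y
  have a3 := congrFun (curl_lam hu i) y
  unfold GG
  rw [← a1, ← a3]
  simp only [curl, grad, LamV] at a2 ⊢
  linear_combination a2

end

section

variable {ν T S : ℝ} {u V V' : ℝ → Vc} {p : ℝ → Sc}

theorem DynRS_ac (s : ℝ) :
    Real.exp (-((1 - ga) * s)) * Real.exp (-(ga * s)) = Real.exp (-s) := by
  rw [← Real.exp_add]
  congr 1
  ring

theorem resc_zero (u : ℝ → Vc) : resc u 0 = u 0 := by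
  funext i y
  simp [resc]

theorem resc_rot (M : Matrix (Fin 3) (Fin 3) ℝ) (u : ℝ → Vc) (s : ℝ) :
    resc (fun t => rot M (u t)) s = rot M (resc u s) := by
  funext i y
  simp only [resc, rot, act_smul, Finset.mul_sum]
  refine Finset.sum_congr rfl fun j _ => ?_
  ring

theorem curl_resc {s : ℝ} (h : ∀ i, ContDiff ℝ ∞ (u (1 - Real.exp (-s)) i)) (i : Fin 3) :
    curl (resc u s) i = fun y =>
      Real.exp (-s) * curl (u (1 - Real.exp (-s))) i (Real.exp (-(ga * s)) • y) := by
  rw [← DynRS_ac s]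
  have := DynRS_curl_sc h (Real.exp (-((1 - ga) * s))) (Real.exp (-(ga * s))) i
  rw [DynRS_ac s] at this ⊢
  exact this

theorem GG_resc {s : ℝ} (h : ∀ i, Hinf (u (1 - Real.exp (-s)) i)) (i : Fin 3) (y : R3) :
    GG ν (resc u s) i y =
      Real.exp (-s) ^ 2 * GG ν (u (1 - Real.exp (-s))) i (Real.exp (-(ga * s)) • y) := by
  have hs : ∀ i, ContDiff ℝ ∞ (u (1 - Real.exp (-s)) i) := fun i => (h i).1
  have hc : 0 < Real.exp (-(ga * s)) := Real.exp_pos _
  have e1 : curl (resc u s) = fun i y =>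
      Real.exp (-s) * curl (u (1 - Real.exp (-s))) i (Real.exp (-(ga * s)) • y) :=
    funext (curl_resc hs)
  have e2 : cross (resc u s) (curl (resc u s)) = fun i y =>
      (Real.exp (-((1 - ga) * s)) * Real.exp (-s)) *
        cross (u (1 - Real.exp (-s))) (curl (u (1 - Real.exp (-s)))) i
          (Real.exp (-(ga * s)) • y) := by
    rw [e1]
    funext i y
    simp only [cross, resc]
    ring
  have hx : ∀ i, ContDiff ℝ ∞
      (cross (u (1 - Real.exp (-s))) (curl (u (1 - Real.exp (-s)))) i) := fun i =>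
    ((hs _).mul (curl_smooth hs _)).sub ((hs _).mul (curl_smooth hs _))
  have hw := hinf_curl h i
  have e3 : Real.exp (-(ga * s)) ^ se = Real.exp (-s) := by
    rw [← Real.exp_mul]
    congr 1
    linear_combination (-s) * ga_se
  simp only [GG]
  rw [e2, DynRS_curl_sc hx, curl_resc hs]
  unfold Lam
  rw [Dp_smul (hinf_scale hw hc).inA se_nn, Dp_scale hw.inA se_nn hc, e3]
  have e4 := DynRS_ac s
  simp only []
  rw [mul_right_comm (Real.exp (-((1 - ga) * s))), e4]
  ring

theorem RSol.evo (h : RSol ν S V) (hS : 0 < S) {B : Vc} (hB : Bg B) :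
    EvoV S (fun s => curl (V s - B)) fun s => NN ν B (V s - B) := by
  intro i
  have hN : ∀ s, NN ν B (V s - B) i =
      fun y => GG ν (V s) i y - curl B i y - ga * yd (curl B i) y := by
    intro s
    funext y
    simp only [NN, GG, add_sub_cancel]
  have hc : ∀ s ∈ Icc 0 S, curl (V s - B) i = fun y => curl (V s) i y - curl B i y := by
    intro s hs
    rw [curl_sub (fun k => (h.js k).smooth hs) hB.smooth]
    rfl
  refine ⟨JS.curl (V := fun s => V s - B) (fun k => (h.js k).sub (JS.const (hB.smooth k))) hS i,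
    UB.curl (V := fun s => V s - B) (fun k => (h.ub k).sub (UB.const (bg_hinf hB k))) i, ?_,
    fun s hs y => ?_⟩
  · simp only [hN]
    exact ((ub_GG ν h.ub i).sub (UB.const (hinf_curl (bg_hinf hB) i))).sub
      ((UB.const (DynRS_hinf_yd hB i)).cmul _)
  · have hs' : s ∈ Icc 0 S := Ioo_subset_Icc_self hs
    have ev : (fun σ => curl (V σ - B) i y) =ᶠ[nhds s] fun σ => curl (V σ) i y - curl B i y := by
      filter_upwards [Icc_mem_nhds hs.1 hs.2] with σ hσ
      rw [hc σ hσ]
    refine (((h.eq s hs i y).sub_const (curl B i y)).congr_of_eventuallyEq ev).congr_deriv ?_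
    simp only [hN]
    rw [hc s hs', yd_sub (curl_smooth (fun k => (h.js k).smooth hs') i) (curl_smooth hB.smooth i)]
    ring

theorem RSol.evo_diff (h : RSol ν S V) (h' : RSol ν S V') (hS : 0 < S) :
    EvoV S (fun s => curl (V' s - V s)) fun s => GG ν (V' s) - GG ν (V s) := by
  intro i
  have hc : ∀ s ∈ Icc 0 S, curl (V' s - V s) i = fun y => curl (V' s) i y - curl (V s) i y := by
    intro s hs
    rw [curl_sub (fun k => (h'.js k).smooth hs) fun k => (h.js k).smooth hs]
    rfl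
  refine ⟨JS.curl (V := fun s => V' s - V s) (fun k => (h'.js k).sub (h.js k)) hS i,
    UB.curl (V := fun s => V' s - V s) (fun k => (h'.ub k).sub (h.ub k)) i,
    (ub_GG ν h'.ub i).sub (ub_GG ν h.ub i), fun s hs y => ?_⟩
  have hs' : s ∈ Icc 0 S := Ioo_subset_Icc_self hs
  have ev : (fun σ => curl (V' σ - V σ) i y) =ᶠ[nhds s]
      fun σ => curl (V' σ) i y - curl (V σ) i y := by
    filter_upwards [Icc_mem_nhds hs.1 hs.2] with σ hσ
    rw [hc σ hσ]
  refine (((h'.eq s hs i y).sub (h.eq s hs i y)).congr_of_eventuallyEq ev).congr_deriv ?_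
  beta_reduce
  rw [hc s hs', yd_sub (curl_smooth (fun k => (h'.js k).smooth hs') i)
    (curl_smooth (fun k => (h.js k).smooth hs') i)]
  simp only [Pi.sub_apply]
  ring

theorem PSol.rsol' (h : PSol ν T u p) (hS : 0 < S) (hT : 1 - Real.exp (-S) ≤ T) :
    RSol ν S (resc u) := by
  have hT0 : 0 < T := (DynRS_memo hS).1.trans_le hT
  have hm : ∀ s ∈ Icc 0 S, 1 - Real.exp (-s) ∈ Icc (0 : ℝ) T := fun s hs =>
    ⟨(DynRS_mem hs.1).1, (UpOrb_mono hs.2).trans hT⟩
  have hmo : ∀ s ∈ Ioo 0 S, 1 - Real.exp (-s) ∈ Ioo (0 : ℝ) T := fun s hs =>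
    ⟨(DynRS_memo hs.1).1, (sub_lt_sub_left (Real.exp_lt_exp.2 (neg_lt_neg hs.2)) 1).trans_le hT⟩
  have hh : ∀ s ∈ Icc 0 S, ∀ i, Hinf (u (1 - Real.exp (-s)) i) := fun s hs i =>
    (h.ub i).1 _ (hm s hs)
  refine ⟨fun i => ?_, fun i => ?_, fun s hs y => ?_, fun s hs i y => ?_⟩
  · exact JS.resc (h.js i) (a := fun s => Real.exp (-((1 - ga) * s)))
      (c := fun s => Real.exp (-(ga * s))) (τ := fun s => 1 - Real.exp (-s))
      (by fun_prop) (by fun_prop) (by fun_prop) hm
  · exact UB.resc (h.ub i) (a := fun s => Real.exp (-((1 - ga) * s)))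
      (c := fun s => Real.exp (-(ga * s))) (τ := fun s => 1 - Real.exp (-s))
      (by fun_prop) (by fun_prop) (fun _ => Real.exp_pos _) hm
  · have hs' : ∀ i, ContDiff ℝ ∞ (u (1 - Real.exp (-s)) i) := fun i => (hh s hs i).1
    have sc : ∀ k, ContDiff ℝ ∞ fun y : R3 =>
        u (1 - Real.exp (-s)) k (Real.exp (-(ga * s)) • y) := fun k =>
      (hs' k).comp (contDiff_const_smul _)
    have hd := h.dv _ (hm s hs) (Real.exp (-(ga * s)) • y)
    have key : ∀ k, pd k (resc u s k) y = Real.exp (-((1 - ga) * s)) * (Real.exp (-(ga * s)) *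
        pd k (u (1 - Real.exp (-s)) k) (Real.exp (-(ga * s)) • y)) := by
      intro k
      unfold resc
      rw [pd_cmul (sc k), pd_scale (hs' k)]
    simp only [dvg] at hd ⊢
    simp only [key, ← Finset.mul_sum, hd, mul_zero]
  · have hs' : ∀ i, ContDiff ℝ ∞ (u (1 - Real.exp (-s)) i) := fun i => (hh s (Ioo_subset_Icc_self hs) i).1
    have de : HasDerivAt (fun σ => Real.exp (-σ)) (-Real.exp (-s)) s := by
      simpa using (hasDerivAt_neg s).exp
    have dτ : HasDerivAt (fun σ => 1 - Real.exp (-σ)) (Real.exp (-s)) s := by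
      simpa using de.const_sub 1
    have dc : HasDerivAt (fun σ => Real.exp (-(ga * σ)))
        (Real.exp (-(ga * s)) * -ga) s := by
      simpa using (((hasDerivAt_id s).const_mul ga).neg).exp
    have hc := JS.chain (JS.curl h.js hT0 i) dc dτ (hmo s hs)
      (fun z => h.vort (hmo s hs) i z) y
    have hp := de.mul hc
    have ev : (fun σ => curl (resc u σ) i y) =ᶠ[nhds s] fun σ => Real.exp (-σ) *
        curl (u (1 - Real.exp (-σ))) i (Real.exp (-(ga * σ)) • y) := by
      filter_upwards [Icc_mem_nhds hs.1 hs.2] with σ hσ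
      rw [curl_resc fun i => (hh σ hσ i).1]
    refine (hp.congr_of_eventuallyEq ev).congr_deriv ?_
    rw [GG_resc (hh s (Ioo_subset_Icc_self hs)), curl_resc hs', DynRS_yd_sc (curl_smooth hs' i)]
    ring

theorem RSol.mono (h : RSol ν S V) {S' : ℝ} (h' : S' ≤ S) : RSol ν S' V := by
  have k : Icc 0 S' ⊆ Icc 0 S := Icc_subset_Icc_right h'
  refine ⟨fun i => ContDiffOn.mono (h.js i) (prod_mono subset_rfl k),
    fun i => ⟨fun s hs => (h.ub i).1 s (k hs), fun l => ?_⟩, fun s hs => h.dv s (k hs),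
    fun s hs => h.eq s (Ioo_subset_Ioo_right h' hs)⟩
  obtain ⟨C, hC⟩ := (h.ub i).2 l
  exact ⟨C, fun s hs => hC s (k hs)⟩

theorem gw_resc {s : ℝ} (h : ∀ i, Hinf (u (1 - Real.exp (-s)) i)) :
    gw 1 (curl (u (1 - Real.exp (-s)))) = Real.exp ((2 - ga) * s) * gw 1 (curl (resc u s)) := by
  have hs : ∀ i, ContDiff ℝ ∞ (u (1 - Real.exp (-s)) i) := fun i => (h i).1
  have hc : 0 < Real.exp (-(ga * s)) := Real.exp_pos _
  have e1 : ∀ i j y, pd j (curl (resc u s) i) y = Real.exp (-s) * (Real.exp (-(ga * s)) *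
      pd j (curl (u (1 - Real.exp (-s))) i) (Real.exp (-(ga * s)) • y)) := fun i j y => by
    have sc : ContDiff ℝ ∞ fun y : R3 =>
        curl (u (1 - Real.exp (-s))) i (Real.exp (-(ga * s)) • y) :=
      (curl_smooth hs i).comp (contDiff_const_smul _)
    rw [curl_resc hs, pd_cmul sc, pd_scale (curl_smooth hs i)]
  have e2 : gw 1 (curl (resc u s)) = (Real.exp (-s) * Real.exp (-(ga * s))) ^ 2 *
      ((Real.exp (-(ga * s)) ^ 3)⁻¹ * gw 1 (curl (u (1 - Real.exp (-s))))) := by
    unfold gw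
    rw [← int_scale _ hc, ← integral_const_mul]
    congr 1
    funext y
    simp only [e1, Pi.one_apply, Fin.sum_univ_three]
    ring
  have e3 : Real.exp ((2 - ga) * s) * ((Real.exp (-s) * Real.exp (-(ga * s))) ^ 2 *
      (Real.exp (-(ga * s)) ^ 3)⁻¹) = 1 := by
    rw [← Real.exp_add, ← Real.exp_nat_mul, ← Real.exp_nat_mul, ← Real.exp_neg, ← Real.exp_add,
      ← Real.exp_add, Real.exp_eq_one_iff]
    push_cast
    ring
  rw [e2, ← mul_assoc, ← mul_assoc, mul_assoc (Real.exp ((2 - ga) * s)), e3, one_mul]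

end

end Pool.Agent.Work.MP_6bf1e5_an.H.Q
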