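import Pool.Agent.Work.MP_6bf1e5_an.HP.ExA
import Pool.Agent.Work.MP_6bf1e5_an.H.ExMain

/-!
The maximal solution: port of ExSm, ExCl, ExEn, ExMain.
-/

open scoped ContDiff ENNReal FourierTransform Real
open Set MeasureTheory

namespace Pool.Agent.Work.MP_6bf1e5_an.H.Q

open Ex

variable [P : Par] {ν T : ℝ} {U V : ℝ → Fv}

theorem exsm_hr (hν : 0 < ν) (ξ : R3) : hr ν ξ ≤ ν * (2 * π) ^ 2 * (1 + ‖ξ‖) ^ 2 := by
  have h1 : (1 : ℝ) ≤ 2 * π * (1 + ‖ξ‖) := by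
    have := Real.pi_gt_three
    have := norm_nonneg ξ
    nlinarith
  have h2 : (2 * π * ‖ξ‖) ^ se ≤ (2 * π * (1 + ‖ξ‖)) ^ se :=
    Real.rpow_le_rpow (by positivity) (by gcongr; linarith) se_nn
  have h3 := Real.rpow_le_rpow_of_exponent_le h1 (show se ≤ (2 : ℕ) from se_hi.le.trans (by norm_num))
  rw [Real.rpow_natCast, mul_pow] at h3
  rw [hr, mul_assoc ν]
  exact mul_le_mul_of_nonneg_left (h2.trans h3) hν.le


theorem PreS.sm (h : PreS ν T U) (hν : 0 < ν) (h0 : Dat (U 0)) (n : ℕ) (i : Fin 3) :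
    Sm T n fun t ξ => U t i ξ := by
  have ub : ∀ i, UB T fun t ξ => U t i ξ := fun i =>
    ⟨(h.jc i).mono (prod_mono Subset.rfl (subset_univ _)), fun r => by
      obtain ⟨A, hA⟩ := h.bd_all hν h0 r
      exact ⟨A, fun t ht ξ => hA t ht i ξ⟩⟩
  induction n generalizing i with
  | zero => exact ub i
  | succ n ih =>
    refine ⟨ub i, fun t ξ => -((hr ν ξ : ℂ) * U t i ξ) - NL (U t) (U t) i ξ,
      fun ξ t ht => h.ode i ξ t ht, ?_⟩
    have h1 : Sm T n fun t ξ => ((-hr ν ξ : ℝ) : ℂ) * U t i ξ := by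
      refine (ih i).symb (C := ν * (2 * π) ^ 2) (k := 2)
        (Complex.continuous_ofReal.comp (hr_cont ν).neg).continuousOn fun ξ => ?_
      rw [Complex.norm_real, norm_neg, Real.norm_eq_abs, abs_of_nonneg (hr_nonneg hν.le ξ)]
      exact exsm_hr hν ξ
    have h2 : ∀ k j, Sm T n fun t ξ =>
        (-(2 * π * Complex.I) * ((Ens.lr ξ i k * ξ j : ℝ) : ℂ)) *
          Ens.cv (U t j) (U t k) ξ := fun k j => by
      refine ((ih j).cv (ih k)).symb (C := ‖(2 * π * Complex.I : ℂ)‖ * 2)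
        (k := 1) ?_ fun ξ => ?_
      · exact (continuous_const.mul
          (Complex.continuous_ofReal.comp (sym_cont i k j))).continuousOn
      · rw [norm_mul, norm_neg, Complex.norm_real, Real.norm_eq_abs, abs_mul, pow_one,
          mul_assoc _ (2 : ℝ)]
        have := Ens.abs_lr_le ξ i k
        have := Ens.sm_abs_coord_le ξ j
        gcongr
        linarith
    have h3 := h1.add (Sm.sum Finset.univ fun k _ => Sm.sum Finset.univ fun j _ => h2 k j)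
    convert h3 using 3 with t ξ
    simp only [NL, Finset.mul_sum, sub_eq_add_neg, ← Finset.sum_neg_distrib, Complex.ofReal_neg,
      neg_mul, mul_assoc]

theorem PreS.smP (h : PreS ν T U) (hν : 0 < ν) (h0 : Dat (U 0)) (n : ℕ) :
    Sm T n fun t ξ => PP (U t) ξ := by
  refine Sm.sum Finset.univ fun k _ => Sm.sum Finset.univ fun j _ =>
    ((h.sm hν h0 n j).cv (h.sm hν h0 n k)).symb
      (m := fun ξ => ((-(ξ k * ξ j / ‖ξ‖ ^ 2) : ℝ) : ℂ)) (C := 1) (k := 0) ?_ fun ξ => ?_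
  · refine Complex.continuous_ofReal.comp_continuousOn (ContinuousOn.neg ?_)
    exact ContinuousOn.div (by fun_prop) (by fun_prop) fun ξ hξ =>
      pow_ne_zero 2 (norm_ne_zero_iff.2 hξ)
  · rw [Complex.norm_real, norm_neg, Real.norm_eq_abs, abs_div, abs_mul, pow_zero, mul_one,
      abs_of_nonneg (sq_nonneg ‖ξ‖), sq]
    exact div_le_one_of_le₀ (mul_le_mul (Ens.sm_abs_coord_le ξ k) (Ens.sm_abs_coord_le ξ j)
      (abs_nonneg _) (norm_nonneg _)) (mul_self_nonneg _)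

theorem PreS.fsol {ν T : ℝ} {U : ℝ → Fv} (h : PreS ν T U) (hν : 0 < ν) (hT : 0 < T)
    (h0 : Dat (U 0)) : FSol P.al ν (tov (ph (U 0))) T (fun x t => tov (ph (U t)) x)
      (fun x t => (Ens.ev (PP (U t)) x).re) U := by
  refine ⟨?_, ?_, fun t ht i => ?_, fun k => ?_, fun t ht x i => ?_, fun x t ht i => ?_,
    fun x t ht => ?_, fun _ => rfl⟩
  · refine contDiffOn_euclidean.2 fun i => contDiffOn_infty.2 fun n => ?_
    exact Complex.reCLM.contDiff.comp_contDiffOn (h.sm hν h0 n i).contDiffOn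
  · refine contDiffOn_infty.2 fun n => ?_
    exact Complex.reCLM.contDiff.comp_contDiffOn (h.smP hν h0 n).contDiffOn
  · exact ((h.dat hν h0 ht).ct i).aestronglyMeasurable
  · obtain ⟨A, hA⟩ := h.bd_all hν h0 (k + 2)
    refine ⟨∫⁻ ξ, ENNReal.ofReal (A ^ 2 * wt 4 ξ), ?_, fun t ht i => ExCl_sob (hA t ht) i⟩
    exact ((wt_int (r := 4) (by norm_num)).const_mul (A ^ 2)).lintegral_lt_top
  · exact ((h.dat hν h0 ht).repH i).1.2 x
  · have hD := h.dat hν h0 ht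
    obtain ⟨h1, g, h2, h3⟩ := h.sm hν h0 1 i
    have h3' : UB T g := h3
    have h4 := deriv_ev h1 h3' h2 x ht
    have hP : UB T fun t ξ => PP (U t) ξ := (h.smP hν h0 0).ub
    have hadv := hD.adv i
    have iA : Integrable fun ξ : R3 =>
        ∑ j, 2 * π * Complex.I * (ξ j : ℝ) * Ens.cv (U t j) (U t i) ξ := by
      simpa using hadv.1.1 0
    have iP := ExCl_int2 hP ht i
    have eg : ∀ ξ, g t ξ = -((hr ν ξ : ℂ) * U t i ξ) - NL (U t) (U t) i ξ := fun ξ =>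
      (uniqueDiffOn_Icc hT t ht).eq_deriv _ (h2 ξ t ht) (h.ode i ξ t ht)
    have iH : Integrable fun ξ : R3 => (-ν : ℂ) *
        ((((2 * π * ‖ξ‖) ^ (2 * P.al) : ℝ) : ℂ) * U t i ξ) := by
      refine (((ExCl_int0 h3' ht).add iA).add iP).congr (Filter.Eventually.of_forall fun ξ => ?_)
      simp only [Pi.add_apply]
      rw [eg, nl_split, hr, se]
      push_cast
      ring
    have h5 : g t = fun ξ => (-ν : ℂ) *
        ((((2 * π * ‖ξ‖) ^ (2 * P.al) : ℝ) : ℂ) * U t i ξ) -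
        (∑ j, 2 * π * Complex.I * (ξ j : ℝ) * Ens.cv (U t j) (U t i) ξ
          + 2 * π * Complex.I * (ξ i : ℝ) * PP (U t) ξ) := by
      funext ξ
      rw [eg, nl_split, hr, se]
      push_cast
      ring
    have iAP : Integrable fun ξ : R3 =>
        ∑ j, 2 * π * Complex.I * (ξ j : ℝ) * Ens.cv (U t j) (U t i) ξ
          + 2 * π * Complex.I * (ξ i : ℝ) * PP (U t) ξ := iA.add iP
    rw [h5, Ens.ev_sub iH iAP, Ens.ev_add iA iP, Ens.ev_const_mul] at h4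
    have h6 := Complex.reCLM.hasFDerivAt.comp_hasDerivWithinAt t h4
    have h7 : derivWithin (fun s => tov (ph (U s)) x i) (Icc 0 T) t = _ :=
      h6.derivWithin (uniqueDiffOn_Icc hT t ht)
    have h8 : pd i (fun y => (Ens.ev (PP (U t)) y).re) x = _ :=
      Ens.pd_re_ev (ExCl_int0 hP ht) (ExCl_int1 hP ht) i x
    have h9 : Ens.ev (fun ξ : R3 =>
        ∑ j, 2 * π * Complex.I * (ξ j : ℝ) * Ens.cv (U t j) (U t i) ξ) x =
        ((∑ j, ph (U t) j x * pd j (ph (U t) i) x : ℝ) : ℂ) := (hadv.1.2 x).symm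
    rw [h7, h8, h9, Complex.reCLM_apply, Complex.sub_re, Complex.add_re, Complex.ofReal_re,
      ← Complex.ofReal_neg, Complex.re_ofReal_mul]
    change _ + ∑ j, ph (U t) j x * pd j (ph (U t) i) x + _ = -ν * (Ens.ev _ x).re
    ring
  · exact (h.dat hν h0 ht).div x

theorem ExEn_bd {ν : ℝ} (hν : 0 ≤ ν) (A : ℝ) : ∃ C, ∀ F : Fv, Ct F → Le 6 A F → ∀ i ξ,
    ‖(hr ν ξ : ℂ) * F i ξ‖ ≤ C * wt 4 ξ ∧ ‖NL F F i ξ‖ ≤ C * wt 4 ξ ∧ ‖F i ξ‖ ≤ A := by
  refine ⟨ν * (2 * π) ^ 2 * A + 36 * π * 2 ^ (6 : ℝ) * (A * (c4 * A) + A * (c4 * A)),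
    fun F hF hA i ξ => ?_⟩
  have a0 := hA.nonneg
  have c0 := c4_nonneg
  have w4 := (wt_pos 4 ξ).le
  have w6 := (wt_pos 6 ξ).le
  have n0 := norm_nonneg ξ
  have e : (1 + ‖ξ‖) ^ 2 * wt 6 ξ = wt 4 ξ := by
    have := pow_wt 2 4 ξ
    rwa [show (4 : ℝ) + (2 : ℕ) = 6 by norm_num] at this
  have p1 : 0 ≤ ν * (2 * π) ^ 2 * A * wt 4 ξ := by positivity
  have p2 : 0 ≤ 36 * π * 2 ^ (6 : ℝ) * (A * (c4 * A) + A * (c4 * A)) * wt 4 ξ := by positivity
  have h1 : (2 * π * ‖ξ‖) ^ se ≤ (2 * π * (1 + ‖ξ‖)) ^ 2 := by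
    have b : 1 ≤ 2 * π * (1 + ‖ξ‖) := by nlinarith [Real.pi_gt_three]
    rw [← Real.rpow_two]
    exact (Real.rpow_le_rpow (by positivity) (by gcongr; linarith) se_nn).trans
      (Real.rpow_le_rpow_of_exponent_le b se_hi.le)
  have l1 := L1_le (hA.mono le_rfl (by norm_num : (4 : ℝ) ≤ 6))
  have l0 := L1_nonneg F
  rw [add_mul]
  refine ⟨le_add_of_le_of_nonneg ?_ p2, le_add_of_nonneg_of_le p1 ?_,
    (hA i ξ).trans (mul_le_of_le_one_right a0 (wt_le_one (by norm_num) ξ))⟩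
  · rw [norm_mul, Complex.norm_of_nonneg (hr_nonneg hν ξ), ← e, hr]
    calc _ ≤ ν * (2 * π * (1 + ‖ξ‖)) ^ 2 * (A * wt 6 ξ) := by
          gcongr
          exact hA i ξ
      _ = _ := by ring
  · refine (NL_le hF hF (by norm_num) hA hA i ξ).trans ?_
    rw [← e]
    gcongr
    nlinarith

theorem PreS.energy {ν T : ℝ} {U : ℝ → Fv} (h : PreS ν T U) (hν : 0 < ν) (h0 : Dat (U 0)) :
    ∀ t ∈ Icc 0 T, L2 (U t) ≤ L2 (U 0) := by
  obtain ⟨A, hA⟩ := h.bd_all hν h0 6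
  obtain ⟨C, hC⟩ := ExEn_bd hν.le A
  have hn := h.jc.nl fun t ht => (hA t ht).mono le_rfl (by norm_num : (4 : ℝ) ≤ 6)
  have hb : ∀ t ∈ Icc 0 T, ∀ i ξ, ‖2 * ((-((hr ν ξ : ℂ) * U t i ξ) - NL (U t) (U t) i ξ) *
      (starRingEnd ℂ) (U t i ξ)).re‖ ≤ 2 * ((C + C) * A) * wt 4 ξ := fun t ht i ξ => by
    obtain ⟨b1, b2, b3⟩ := hC _ (h.jc.ct ht) (hA t ht) i ξ
    have b4 := norm_sub_le (-((hr ν ξ : ℂ) * U t i ξ)) (NL (U t) (U t) i ξ)
    rw [norm_neg] at b4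
    have b5 := mul_le_mul (b4.trans (add_le_add b1 b2)) b3 (norm_nonneg _)
      ((norm_nonneg _).trans (b4.trans (add_le_add b1 b2)))
    have b6 := Complex.abs_re_le_norm ((-((hr ν ξ : ℂ) * U t i ξ) - NL (U t) (U t) i ξ) *
      (starRingEnd ℂ) (U t i ξ))
    rw [norm_mul, Complex.norm_conj] at b6
    rw [norm_mul, Real.norm_two, Real.norm_eq_abs]
    linarith
  have hm : ∀ t ∈ Icc 0 T, ∀ i, Continuous fun ξ => 2 * ((-((hr ν ξ : ℂ) * U t i ξ) -
      NL (U t) (U t) i ξ) * (starRingEnd ℂ) (U t i ξ)).re := fun t ht i =>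
    continuous_const.mul (Complex.continuous_re.comp
      ((((Complex.continuous_ofReal.comp (hr_cont ν)).mul (h.jc.ct ht i)).neg.sub
        (hn.ct ht i)).mul (Complex.continuous_conj.comp (h.jc.ct ht i))))
  have hw : Integrable fun ξ => 2 * ((C + C) * A) * wt 4 ξ := (wt_int (by norm_num)).const_mul _
  have hd : ∀ t ∈ Icc 0 T, HasDerivWithinAt (fun s => L2 (U s))
      (∑ i, ∫ ξ, 2 * ((-((hr ν ξ : ℂ) * U t i ξ) - NL (U t) (U t) i ξ) *
        (starRingEnd ℂ) (U t i ξ)).re) (Icc 0 T) t := fun t ht =>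
    HasDerivWithinAt.fun_sum fun i _ => Ens.hasDerivWithinAt_integral_convex (convex_Icc 0 T)
      (f := fun s ξ => ‖U s i ξ‖ ^ 2)
      (f' := fun s ξ => 2 * ((-((hr ν ξ : ℂ) * U s i ξ) - NL (U s) (U s) i ξ) *
        (starRingEnd ℂ) (U s i ξ)).re) ht
      (fun s hs => ((h.jc.ct hs i).norm.pow 2).aestronglyMeasurable)
      ((h.dat hν h0 ht).repH i).isq (hm t ht i).aestronglyMeasurable
      (Filter.Eventually.of_forall fun ξ s hs => hb s hs i ξ) hw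
      (Filter.Eventually.of_forall fun ξ s hs => (h.ode i ξ s hs).norm_sq)
  have hl : ∀ t ∈ Icc 0 T, ∑ i, ∫ ξ, 2 * ((-((hr ν ξ : ℂ) * U t i ξ) - NL (U t) (U t) i ξ) *
      (starRingEnd ℂ) (U t i ξ)).re ≤ 0 := fun t ht => by
    have e := (h.dat hν h0 ht).null
    have i1 := fun i => ExEn_int (h.jc.ct ht) (hA t ht) i
    refine (Finset.sum_le_sum (g := fun i => -2 *
      (∫ ξ, NL (U t) (U t) i ξ * (starRingEnd ℂ) (U t i ξ)).re) fun i _ => ?_).trans ?_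
    · have e1 := Complex.reCLM.integral_comp_comm (i1 i)
      simp only [Complex.reCLM_apply] at e1
      rw [← e1, ← integral_const_mul]
      refine integral_mono (hw.mono' (hm t ht i).aestronglyMeasurable
        (Filter.Eventually.of_forall (hb t ht i))) ((i1 i).re.const_mul _) fun ξ => ?_
      have p := mul_nonneg (hr_nonneg hν.le ξ) (Complex.normSq_nonneg (U t i ξ))
      simp only [sub_mul, neg_mul, mul_assoc, Complex.mul_conj, ← Complex.ofReal_mul,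
        Complex.sub_re, Complex.neg_re, Complex.ofReal_re]
      linarith
    · rw [← Finset.mul_sum, e, mul_zero]
  have key := antitoneOn_of_hasDerivWithinAt_nonpos (convex_Icc 0 T)
    (fun t ht => (hd t ht).continuousWithinAt)
    (fun t ht => (hd t (interior_subset ht)).mono interior_subset)
    fun t ht => hl t (interior_subset ht)
  exact fun t ht => key ⟨le_rfl, ht.1.trans ht.2⟩ ht ht.1

theorem exists_max {ν : ℝ} (hν : 0 < ν) {B : Vc} (hB : Bg B) :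
    ∃ I u p U, MaxS ν B I u p U := by
  obtain ⟨F, hF, rfl⟩ := Ex.of_bg hB
  obtain ⟨A, hA⟩ := hF.bd 4
  obtain ⟨U, rfl, hU⟩ := maxF hν hF.ct hA
  obtain ⟨C, hC⟩ := Ex.L1_phys
  have en : ∀ T, PreS ν T U → ∀ t ∈ Icc 0 T, nw 1 (Ex.ph (U t)) ≤ nw 1 (Ex.ph (U 0)) := by
    intro T h t ht
    rw [← (h.dat hν hF ht).L2_eq, ← hF.L2_eq]
    exact h.energy hν hF t ht
  refine ⟨{T | 0 < T ∧ PreS ν T U}, fun x t => tov (Ex.ph (U t)) x,
    fun x t => (Ens.ev (Ex.PP (U t)) x).re, U, fun T hT => ⟨hT.1, hT.2.fsol hν hT.1 hF⟩,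
    fun T hT T' h1 h2 => ⟨h1, hT.2.mono h2⟩, fun T hT K hK => ?_, fun T hT => en T hT.2⟩
  obtain ⟨ε, hε, h⟩ := hU T hT (C + nw 1 (Ex.ph (U 0)) + K) fun T' hT' =>
    ⟨(hK T' hT').1.2, fun t ht => (hC _ ((hK T' hT').1.2.dat hν hF ht)).trans
      (add_le_add (add_le_add le_rfl (en T' (hK T' hT').1.2 t ht)) ((hK T' hT').2 t ht))⟩
  exact ⟨ε, hε, by linarith, h⟩

end Pool.Agent.Work.MP_6bf1e5_an.H.Q
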