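import Pool.Agent.Work.MP_6bf1e5_an.HP.DynA
import Pool.Agent.Work.MP_6bf1e5_an.HP.ExB
import Pool.Agent.Work.MP_6bf1e5_an.H.UpDyn

/-!
Stability, orbits and the shooting argument: port of DynStB, DynUq, UpOrb, UpLow, UpDyn.
-/

open scoped ContDiff ENNReal FourierTransform Real
open Set MeasureTheory

namespace Pool.Agent.Work.MP_6bf1e5_an.H.Q

open Dyn

variable [P : Par]


omit P in
theorem grad_pair {G d : Vc} (hG : ∀ i, Hinf (G i)) (hd : ∀ i, Hinf (d i)) :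
    ∫ y, ∑ i, ∑ j, pd j (G i) y * pd j (d i) y = ∑ i, ∑ j, ∫ y, pd j (G i) y * pd j (d i) y := by
  rw [integral_finsetSum _ fun i _ => integrable_finsetSum _ fun j _ =>
    int_mul ((hG i).pd j) ((hd i).pd j)]
  exact Finset.sum_congr rfl fun i _ =>
    integral_finsetSum _ fun j _ => int_mul ((hG i).pd j) ((hd i).pd j)

theorem pair_le {c ν : ℝ} (hν : 0 ≤ ν) (h : ∀ t : ℝ, 0 ≤ t → t ^ (3 / 2 : ℝ) ≤ 1 * t ^ se + c)
    {G d : Sc} (hG : Hinf G) (hd : Hinf d) :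
    ∫ y, (G y - ν * (Lam d y - H.Lam d y)) * d y ≤ (∫ y, G y * d y) + ν * c * ∫ y, d y ^ 2 := by
  have i1 := int_mul (hinf_lam hd) hd
  have i2 := int_mul (Dyn.hinf_lam hd) hd
  have h1 := mul_le_mul_of_nonneg_left (lam_ge h hd) hν
  simp only [sub_mul, mul_assoc, mul_sub]
  rw [integral_sub (int_mul hG hd) ((i1.const_mul ν).sub' (i2.const_mul ν)),
    integral_sub (i1.const_mul ν) (i2.const_mul ν), integral_const_mul, integral_const_mul]
  linarith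

theorem pd_dif {ν : ℝ} {G d : Sc} (hG : Hinf G) (hd : Hinf d) (j : Fin 3) :
    pd j (fun y => G y - ν * (Lam d y - H.Lam d y))
      = fun y => pd j G y - ν * (Lam (pd j d) y - H.Lam (pd j d) y) := by
  have h1 := (hinf_lam hd).1
  have h2 := (Dyn.hinf_lam hd).1
  rw [pd_sub hG.1 (contDiff_const.mul (h1.sub h2)), pd_cmul (h1.sub h2), pd_sub h1 h2,
    show pd j (Lam d) = Lam (pd j d) from pds_lam hd [j],
    show pd j (H.Lam d) = H.Lam (pd j d) from Dyn.pds_lam hd [j]]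

theorem stab_static {ν : ℝ} (hν : 0 < ν) (K : ℝ) : ∃ C, ∀ V V' : Vc, (∀ i, Hinf (V i)) →
    (∀ i, Hinf (V' i)) → (∀ y, dvg V y = 0) → (∀ y, dvg V' y = 0) → Bd K V →
    dZZ (GG ν V' - GG ν V) (curl (V' - V)) ≤ C * (ZZ (V' - V) + ZZ (V' - V) ^ 2) := by
  obtain ⟨C, hC⟩ := Dyn.stab_static hν K
  refine ⟨C + 2 * ν, fun V V' h h' hd hd' hK => ?_⟩
  have h0 := hC V V' h h' hd hd' hK
  have hδ : ∀ i, Hinf ((V' - V) i) := fun i => hinf_sub (h' i) (h i)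
  have hv := hinf_curl hδ
  have hG : ∀ i, Hinf ((Dyn.GG ν V' - Dyn.GG ν V) i) := fun i =>
    hinf_sub (Dyn.hinf_GG ν h' i) (Dyn.hinf_GG ν h i)
  have hG' : ∀ i, Hinf ((GG ν V' - GG ν V) i) := fun i =>
    hinf_sub (hinf_GG ν h' i) (hinf_GG ν h i)
  have e : ∀ i, (GG ν V' - GG ν V) i = fun y => (Dyn.GG ν V' - Dyn.GG ν V) i y
      - ν * (Lam (curl (V' - V) i) y - H.Lam (curl (V' - V) i) y) := fun i => by
    have e1 : curl (V' - V) i = fun y => curl V' i y - curl V i y := by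
      rw [curl_sub (fun i => (h' i).1) fun i => (h i).1]
      rfl
    rw [e1, lam_sub (hinf_curl h' i) (hinf_curl h i),
      Dyn.lam_sub (hinf_curl h' i) (hinf_curl h i)]
    funext y
    simp only [Pi.sub_apply, GG, Dyn.GG]
    ring
  have hp : ∀ t : ℝ, 0 ≤ t → t ^ (3 / 2 : ℝ) ≤ 1 * t ^ se + 1 := fun t ht => by
    rw [one_mul]
    exact pow_ge ht
  have a1 := Finset.sum_le_sum (s := Finset.univ) fun i _ => pair_le hν.le hp (hG i) (hv i)
  have a2 := Finset.sum_le_sum (s := Finset.univ) fun i _ => Finset.sum_le_sum (s := Finset.univ)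
    fun j _ => pair_le hν.le hp ((hG i).pd j) ((hv i).pd j)
  simp only [Finset.sum_add_distrib, ← Finset.mul_sum] at a1 a2
  rw [← nw_one hv] at a1
  rw [← gw_one hv] at a2
  unfold Dyn.dZZ at h0
  unfold dZZ
  rw [ip_eq hG hv, grad_pair hG hv] at h0
  rw [ip_eq hG' hv, grad_pair hG' hv]
  simp only [e, fun i => pd_dif (ν := ν) (hG i) (hv i)]
  have b1 := mul_nonneg (show 0 ≤ 2 - 3 * ga by linarith [ga_hi]) (DynStA_nw (curl (V' - V)))
  have b2 := mul_nonneg (show 0 ≤ 2 - 3 * ga by linarith [ga_hi]) (DynStA_gw (curl (V' - V)))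
  have b3 : ZZ (V' - V) = nw 1 (curl (V' - V)) + gw 1 (curl (V' - V)) := rfl
  have b4 := mul_nonneg hν.le (sq_nonneg (ZZ (V' - V)))
  have b5 := congrArg (ν * ·) b3
  linarith

section

variable {ν T S : ℝ} {u V V' : ℝ → Vc} {p : ℝ → Sc}

theorem RSol.stab (h : RSol ν S V) (hν : 0 < ν) (hS : 0 < S) {ε : ℝ} (hε : 0 < ε) : ∃ δ > 0,
    ∀ V' : ℝ → Vc, RSol ν S V' → ZZ (V' 0 - V 0) ≤ δ → ∀ s ∈ Icc 0 S, ZZ (V' s - V s) ≤ ε := by
  obtain ⟨K, hK⟩ := UB.bd h.ub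
  obtain ⟨C, hC⟩ := stab_static hν K
  obtain ⟨δ, hδ, hr⟩ := riccati C hS.le hε
  refine ⟨δ, hδ, fun W h' h0 => ?_⟩
  have he := h.evo_diff h' hS
  refine hr (fun s => ZZ (W s - V s))
    (fun s => dZZ (GG ν (W s) - GG ν (V s)) (curl (W s - V s)))
    ((he.ider_one hS).add (he.ider_gw hS) hS.le) (fun s hs => ⟨ZZ_nonneg _, ?_⟩) h0
  exact hC (V s) (W s) (fun i => (h.ub i).1 s hs) (fun i => (h'.ub i).1 s hs) (h.dv s hs)
    (h'.dv s hs) (hK s hs)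

theorem RSol.uniq (h : RSol ν S V) (h' : RSol ν S V') (hν : 0 < ν) (hS : 0 < S)
    (h0 : V' 0 = V 0) : ∀ s ∈ Icc 0 S, V' s = V s := by
  intro s hs
  have hz : ZZ (V' 0 - V 0) = 0 := by
    rw [h0, sub_self]
    have hc : curl (0 : Vc) = 0 := by
      funext i y
      simp [curl, pd]
    simp [ZZ, nw, gw, hc, dot, pd]
  have hle : ZZ (V' s - V s) ≤ 0 := by
    refine le_of_forall_pos_le_add fun ε hε => ?_
    obtain ⟨δ, hδ, hs'⟩ := h.stab hν hS hε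
    rw [zero_add]
    exact hs' V' h' (hz.le.trans hδ.le) s hs
  have hH : ∀ i, Hinf ((V' s - V s) i) := fun i =>
    hinf_sub ((h'.ub i).1 s hs) ((h.ub i).1 s hs)
  have hd : ∀ y, dvg (V' s - V s) y = 0 := fun y => by
    rw [dvg_sub (fun i => ((h'.ub i).1 s hs).1) (fun i => ((h.ub i).1 s hs).1), h'.dv s hs,
      h.dv s hs, sub_zero]
  funext i y
  have h1 := zz_sup hH hd i y
  have h2 : (V' s - V s) i y = 0 := by
    refine pow_eq_zero_iff (n := 2) (by norm_num) |>.1 (le_antisymm (by linarith) (sq_nonneg _))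
  exact sub_eq_zero.1 h2

theorem RSol.ider_mom (h : RSol ν S V) (hS : 0 < S) {B : Vc} (hB : Bg B) {θ : Vc}
    (hθ : ∀ i, Sym (-3) (θ i)) :
    IDer S (fun s => mom θ (V s - B)) fun s => dM ν B θ (V s - B) :=
  (h.evo hS hB).ider_ip hS hθ

theorem DynUq_sq (h : RSol ν S V) (hS : 0 < S) {B : Vc} (hB : Bg B) {n : ℕ} {θ : Fin n → Vc}
    (hθ : ∀ a i, Sym (-3) (θ a i)) :
    IDer S (fun s => ∑ a, mom (θ a) (V s - B) ^ 2)
      fun s => 2 * ∑ a, mom (θ a) (V s - B) * dM ν B (θ a) (V s - B) := by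
  refine (IDer.sum Finset.univ (fun a _ => (h.ider_mom hS hB (hθ a)).mul
    (h.ider_mom hS hB (hθ a)) hS.le) hS.le).congr hS.le (fun s _ => ?_) fun s _ => ?_
  · exact Finset.sum_congr rfl fun a _ => (sq _).symm
  · rw [Finset.mul_sum]
    exact Finset.sum_congr rfl fun a _ => by ring

theorem RSol.iderZ (h : RSol ν S V) (hS : 0 < S) {B : Vc} (hB : Bg B) {L : Lyap} (hL : L.Good) :
    IDer S (fun s => L.zz (V s - B)) fun s => dZ L ν B (V s - B) := by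
  refine (DynUq_sq h hS hB (good_Z hL)).congr hS.le (fun s _ => rfl) fun s _ => rfl

theorem DynUq_F (h : RSol ν S V) (hS : 0 < S) {B : Vc} (hB : Bg B) {L : Lyap} (hL : L.Good) :
    IDer S (fun s => ∑ a, mom (L.θF a) (V s - B) * mom (L.θ a) (V s - B))
      fun s => 2 * ∑ a, mom (L.θF a) (V s - B) * dM ν B (L.θ a) (V s - B) := by
  have e : ∀ s ∈ Icc 0 S, ∀ a, mom (L.θF a) (V s - B) = ∑ b, L.F a b * mom (L.θ b) (V s - B) :=
    fun s hs a => DynCt_F hL (hinf_curl fun i => hinf_sub ((h.ub i).1 s hs) (bg_hinf hB i)) a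
  refine (IDer.sum Finset.univ (fun a _ => IDer.sum Finset.univ (fun b _ =>
    ((h.ider_mom hS hB (hL.1 b)).mul (h.ider_mom hS hB (hL.1 a)) hS.le).const_mul (L.F a b))
    hS.le) hS.le).congr hS.le (fun s hs => ?_) fun s hs => ?_
  · simp only [e s hs, Finset.sum_mul, mul_assoc]
  · simp only [e s (Ioo_subset_Icc_self hs), Finset.sum_mul, mul_add, Finset.sum_add_distrib,
      two_mul, mul_assoc, add_left_inj]
    rw [Finset.sum_comm]
    exact Finset.sum_congr rfl fun a _ => Finset.sum_congr rfl fun b _ => by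
      rw [hL.2.1 b a, mul_comm (dM ν B (L.θ a) _)]

theorem RSol.iderE (h : RSol ν S V) (hS : 0 < S) {B : Vc} (hB : Bg B) {L : Lyap} (hL : L.Good) :
    IDer S (fun s => L.E (V s - B)) fun s => dE L ν B (V s - B) := by
  have he := h.evo hS hB
  have h1 := ((he.ider_Om hS).add (DynUq_F h hS hB hL) hS.le).add
    ((he.ider_gw hS).const_mul L.κ) hS.le
  refine h1.congr hS.le (fun s _ => ?_) fun s _ => ?_
  · unfold Lyap.E Lyap.X Lyap.X1 Lyap.Xv Lyap.zz mom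
    ring
  · simp only [dE, dW, dH]
    ring

theorem orb_of_max (hν : 0 < ν) {B : Vc} (hB : Bg B) {I : Set ℝ} {w : R3 → ℝ → R3}
    {q : R3 → ℝ → ℝ} {U : ℝ → Fin 3 → R3 → ℂ} (h : MaxS ν B I w q U) :
    Orb ν B (lf I) (resc (cmp w)) := by
  have hP : ∀ T ∈ I, PSol ν T (cmp w) fun t y => q y t := fun T hT => psol_of_fsol (h.sol T hT).2
  have h0 : resc (cmp w) 0 = B := by
    obtain ⟨ε, -, hε⟩ := h.cont 0 le_rfl 0 fun T' hT' => absurd hT'.2 hT'.1.not_gt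
    rw [resc_zero]
    funext i y
    unfold cmp
    rw [(h.sol _ hε).2.initial y]
    rfl
  have key : ∀ M : Matrix (Fin 3) (Fin 3) ℝ, M.transpose * M = 1 → EqM M B →
      ∀ S ∈ lf I, ∀ s ∈ Icc 0 S, EqM M (resc (cmp w) s) := by
    intro M hM hE S hS s hs
    have h1 := ((hP _ hS.2).rsol' hS.1 le_rfl).uniq (((hP _ hS.2).rot hM).rsol' hS.1 le_rfl) hν hS.1
      (by rw [resc_rot, h0]; exact (rot_eq_iff hM B).2 hE) s hs
    rw [resc_rot] at h1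
    exact (rot_eq_iff hM _).1 h1
  refine ⟨fun S hS => ⟨hS.1, (hP _ hS.2).rsol' hS.1 le_rfl⟩, fun S hS S' h1 h2 =>
    ⟨h1, h.down _ hS.2 _ (DynRS_memo h1).1 (UpOrb_mono h2)⟩, fun S hS K hK => ?_, h0,
    fun S hS s hs => ⟨fun θ => key _ (rotM_orth θ) (hB.eqv.1 θ) S hS s hs,
      key _ flpM_orth hB.eqv.2 S hS s hs⟩⟩
  have hl : ∀ t < 1, 1 - Real.exp (- -Real.log (1 - t)) = t := fun t ht => by
    rw [neg_neg, Real.exp_log (sub_pos.2 ht), sub_sub_cancel]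
  have hS1 := Real.exp_pos (-S)
  obtain ⟨ε, hε, hI⟩ := h.cont (1 - Real.exp (-S)) (DynRS_mem hS).1 (Real.exp ((2 - ga) * S) * |K|)
    fun T' hT' => by
      have a1 : T' < 1 := by linarith [hT'.2]
      have a2 : -Real.log (1 - T') < S := by
        rw [neg_lt, Real.lt_log_iff_exp_lt (sub_pos.2 a1)]
        linarith [hT'.2]
      obtain ⟨b1, b2⟩ := hK (-Real.log (1 - T'))
        ⟨neg_pos.2 (Real.log_neg (sub_pos.2 a1) (by linarith [hT'.1])), a2⟩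
      have b3 : T' ∈ I := hl T' a1 ▸ b1.2
      refine ⟨b3, fun t ht => ?_⟩
      have a3 : t < 1 := ht.2.trans_lt a1
      have a4 : -Real.log (1 - t) ≤ -Real.log (1 - T') :=
        neg_le_neg (Real.log_le_log (sub_pos.2 a1) (by linarith [ht.2]))
      have b4 := b2 (-Real.log (1 - t))
        ⟨neg_nonneg.2 (Real.log_nonpos (sub_pos.2 a3).le (by linarith [ht.1])), a4⟩
      have b5 := gw_resc (u := cmp w) (s := -Real.log (1 - t))
        (by rw [hl t a3]; exact fun i => ((hP _ b3).ub i).1 t ht)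
      rw [hl t a3] at b5
      rw [b5]
      exact mul_le_mul (Real.exp_le_exp.2 (mul_le_mul_of_nonneg_left (by linarith)
        (by linarith [ga_hi]))) (b4.trans (le_abs_self K))
        (DynStA_gw _) (Real.exp_pos _).le
  have c0 : 0 < S + ε := by linarith
  refine ⟨ε, hε, c0, h.down _ hI _ (DynRS_memo c0).1 ?_⟩
  have c1 := Real.add_one_le_exp (-ε)
  have c2 := (DynRS_mem hS).1
  rw [neg_add, Real.exp_add]
  nlinarith

theorem Orb.all {B : Vc} {J : Set ℝ} (h : Orb ν B J V) (hS : 0 < S) {K : ℝ}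
    (hK : ∀ S' ∈ J, S' ≤ S → ∀ s ∈ Icc 0 S', gw 1 (curl (V s)) ≤ K) : S ∈ J := by
  have hb : BddAbove {T ∈ Icc 0 S | ∀ T' ∈ Ioo 0 T, T' ∈ J} := ⟨S, fun T hT => hT.1.2⟩
  have h0 : (0 : ℝ) ∈ {T ∈ Icc 0 S | ∀ T' ∈ Ioo 0 T, T' ∈ J} :=
    ⟨⟨le_rfl, hS.le⟩, fun T' hT' => absurd hT'.2 hT'.1.not_gt⟩
  obtain ⟨ε, hε, hJ⟩ := h.cont (sSup {T ∈ Icc 0 S | ∀ T' ∈ Ioo 0 T, T' ∈ J}) (le_csSup hb h0) K
    fun S' hS' => by
      obtain ⟨T, hT, h1⟩ := exists_lt_of_lt_csSup ⟨0, h0⟩ hS'.2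
      have h2 := hT.2 S' ⟨hS'.1, h1⟩
      exact ⟨h2, hK S' h2 (h1.le.trans hT.1.2)⟩
  refine h.down _ hJ S hS (not_lt.1 fun hlt => ?_)
  have := le_csSup hb (a := sSup {T ∈ Icc 0 S | ∀ T' ∈ Ioo 0 T, T' ∈ J} + ε)
    ⟨⟨(h.sol _ hJ).1.le, hlt.le⟩, fun T' hT' => h.down _ hJ T' hT'.1 hT'.2.le⟩
  linarith

theorem RSol.stab' (h : RSol ν S V) (hν : 0 < ν) {ε : ℝ} (hε : 0 < ε) : ∃ δ > 0,
    ∀ S', 0 < S' → S' ≤ S → ∀ V' : ℝ → Vc, RSol ν S' V' → ZZ (V' 0 - V 0) ≤ δ →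
      ∀ s ∈ Icc 0 S', ZZ (V' s - V s) ≤ ε := by
  obtain ⟨K, hK⟩ := UB.bd h.ub
  obtain ⟨C, hC⟩ := stab_static hν K
  obtain ⟨δ, hδ, hr⟩ := riccati' C S hε
  refine ⟨δ, hδ, fun S' hS hS' W h' h0 => ?_⟩
  have h1 := h.mono hS'
  have he := h1.evo_diff h' hS
  refine hr S' ⟨hS.le, hS'⟩ (fun s => ZZ (W s - V s))
    (fun s => dZZ (GG ν (W s) - GG ν (V s)) (curl (W s - V s)))
    ((he.ider_one hS).add (he.ider_gw hS) hS.le) (fun s hs => ⟨ZZ_nonneg _, ?_⟩) h0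
  exact hC (V s) (W s) (fun i => (h1.ub i).1 s hs) (fun i => (h'.ub i).1 s hs) (h1.dv s hs)
    (h'.dv s hs) (hK s ⟨hs.1, hs.2.trans hS'⟩)

/-- Nearby data have solutions on the same interval, and these stay close. -/
theorem Orb.near (h : RSol ν S V) (hν : 0 < ν) (hS : 0 < S) {ε : ℝ} (hε : 0 < ε) : ∃ δ > 0,
    ∀ (B' : Vc) (J' : Set ℝ) (V' : ℝ → Vc), Orb ν B' J' V' → ZZ (B' - V 0) ≤ δ →
      S ∈ J' ∧ ∀ s ∈ Icc 0 S, ZZ (V' s - V s) ≤ ε := by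
  obtain ⟨δ, hδ, hs⟩ := h.stab' hν hε
  obtain ⟨K, hK⟩ := UB.bd h.ub
  obtain ⟨K', hK'⟩ := ZZ_bdd (fun i => (h.ub i).1) hK
  have hg : ∀ W : Vc, gw 1 (curl W) ≤ ZZ W := fun W => le_add_of_nonneg_left (DynStA_nw _)
  refine ⟨δ, hδ, fun B' J' V' hO h0 => ?_⟩
  rw [← hO.init] at h0
  have h1 : S ∈ J' := hO.all hS (K := 2 * ε + 2 * K') fun S' hJ hS' s hs' => by
    obtain ⟨a1, a2⟩ := hO.sol S' hJ
    have a3 : s ∈ Icc 0 S := ⟨hs'.1, hs'.2.trans hS'⟩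
    have := gw_tri (fun i => (a2.ub i).1 s hs') fun i => (h.ub i).1 s a3
    linarith [hg (V' s - V s), hg (V s), hs S' a1 hS' V' a2 h0 s hs', hK' s a3]
  exact ⟨h1, hs S hS le_rfl V' (hO.sol S h1).2 h0⟩

end

theorem blowup_one {ν : ℝ} (hν : 0 < ν) {B0 : Vc} (hB : Bg B0) {I : Set ℝ} {w : R3 → ℝ → R3}
    {q : R3 → ℝ → ℝ} {U : ℝ → Fin 3 → R3 → ℂ} (h : MaxS ν B0 I w q U) (hI : ∀ S > 0, S ∈ lf I)
    {c R : ℝ} (hc : 0 < c) (hl : ∀ s ≥ 0, (∃ y i, ‖y‖ ≤ R ∧ c ≤ |resc (cmp w) s i y|) ∧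
      ∃ y i, ‖y‖ ≤ R ∧ c ≤ |curl (resc (cmp w) s) i y|) : BlowUp ν 1 := by
  have hsm : ContDiff ℝ ∞ (tov B0) := contDiff_euclidean.2 fun i => hB.smooth i
  have hcs : HasCompactSupport (tov B0) := by
    refine HasCompactSupport.intro (K := ⋃ i, tsupport (B0 i))
      (isCompact_iUnion fun i => (hB.supp i).isCompact) fun y hy => ?_
    ext i
    simp only [mem_iUnion, not_exists] at hy
    simpa [tov] using image_eq_zero_of_notMem_tsupport (hy i)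
  have hlog : ∀ t : ℝ, t < 1 → Real.exp (-(-Real.log (1 - t))) = 1 - t := fun t ht => by
    rw [neg_neg, Real.exp_log (by linarith)]
  have hmem : ∀ T1, 0 < T1 → T1 < 1 → T1 ∈ I := fun T1 h0 h1 => by
    have hS : 0 < -Real.log (1 - T1) := neg_pos.2 (Real.log_neg (by linarith) (by linarith))
    have := (hI _ hS).2
    rwa [hlog T1 h1, sub_sub_cancel] at this
  have hF : ∀ T1, 0 < T1 → T1 < 1 → FSol P.al ν (tov B0) T1 w q U := fun T1 h0 h1 =>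
    (h.sol T1 (hmem T1 h0 h1)).2
  have hsw : ∀ t ∈ Ico (0 : ℝ) 1, ∀ i, ContDiff ℝ ∞ (cmp w t i) := fun t ht i =>
    (((psol_of_fsol (hF ((t + 1) / 2) (by linarith [ht.1]) (by linarith [ht.2]))).ub i).1 t
      ⟨ht.1, by linarith [ht.2]⟩).1
  refine ⟨hcs.toSchwartzMap hsm, fun x => hB.dv x, w, q, U, hF, fun t ht => ?_, c, hc, R,
    fun t ht => ?_⟩
  · have h1 := h.en _ (hmem ((t + 1) / 2) (by linarith [ht.1]) (by linarith [ht.2])) t
      ⟨ht.1, by linarith [ht.2]⟩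
    have h2 := UpLow_en (fun x _ => tov B0 x) 0
    rw [UpLow_en] at h1
    exact h1.trans (le_of_eq h2)
  · have h1t : 0 < 1 - t := by linarith [ht.2]
    have hs : 0 ≤ -Real.log (1 - t) := neg_nonneg.2 (Real.log_nonpos h1t.le (by linarith [ht.1]))
    have e0 := hlog t ht.2
    have e1 : Real.exp (-(ga * -Real.log (1 - t))) = (1 - t) ^ ga := by
      rw [Real.rpow_def_of_pos h1t]
      congr 1
      ring
    have e2 : Real.exp (-((1 - ga) * -Real.log (1 - t))) * (1 - t) ^ (ga - 1) = 1 := by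
      rw [Real.rpow_def_of_pos h1t, ← Real.exp_add, Real.exp_eq_one_iff]
      ring
    have p1 : 0 < (1 - t) ^ ga := Real.rpow_pos_of_pos h1t _
    have p2 : 0 < (1 - t) ^ (ga - 1) := Real.rpow_pos_of_pos h1t _
    have hn : ∀ y : R3, ‖y‖ ≤ R → ‖(1 - t) ^ ga • y‖ ≤ R * (1 - t) ^ ga :=
      fun y hy => by
        rw [norm_smul, Real.norm_of_nonneg p1.le, mul_comm]
        exact mul_le_mul_of_nonneg_right hy p1.le
    obtain ⟨⟨y, i, hy, h1⟩, y', i', hy', h2⟩ := hl _ hs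
    refine ⟨⟨_, hn y hy, ?_⟩, _, hn y' hy', i', ?_⟩
    · simp only [resc] at h1
      rw [e0, e1, sub_sub_cancel, abs_mul, abs_of_pos (Real.exp_pos _)] at h1
      have h3 := mul_le_mul_of_nonneg_right h1 p2.le
      rw [mul_right_comm, e2, one_mul] at h3
      exact h3.trans (PiLp.norm_apply_le (w _ t) i)
    · rw [curl_resc (by rw [e0, sub_sub_cancel]; exact hsw t ht)] at h2
      simp only [] at h2
      rw [e0, e1, sub_sub_cancel, abs_mul, abs_of_pos h1t] at h2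
      rw [div_le_iff₀ h1t, mul_comm]
      exact h2

theorem blowup_scale {ν ν' T : ℝ} (h : BlowUp ν T) (hν : 0 < ν) (hν' : 0 < ν') :
    BlowUp ν' (T * ν / ν') := by
  obtain ⟨u0, hd, u, p, U, hF, hE, c, hc, R, hr⟩ := h
  have ha : 0 < ν' / ν := div_pos hν' hν
  have hb : 0 < ν / ν' := div_pos hν hν'
  have hab : ν / ν' * (ν' / ν) = 1 := by field_simp
  have hinv : (ν / ν')⁻¹ = ν' / ν := inv_div _ _
  have hT : T * ν / ν' * (ν' / ν) = T := by field_simp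
  have haν : ν' / ν * ν = ν' := div_mul_cancel₀ _ hν.ne'
  generalize ν' / ν = a at ha hab hinv hT haν
  have hm : ∀ t ∈ Ico 0 (T * ν / ν'), t * a ∈ Ico 0 T := fun t ht =>
    ⟨mul_nonneg ht.1 ha.le, hT ▸ mul_lt_mul_of_pos_right ht.2 ha⟩
  have hc' : 0 < a * c * a ^ (ga - 1) := by positivity
  refine ⟨a • u0, fun x => ?_, fun x t => a • u x (t * a), fun x t => a ^ 2 * p x (t * a),
    fun t i ξ => a * U (t * a) i ξ, fun T1 h0 h1 => ?_, fun t ht => ?_,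
    min c (a * c * a ^ (ga - 1)), lt_min hc hc', R * a ^ ga, fun t ht => ?_⟩
  · simp only [smul_apply, PiLp.smul_apply, smul_eq_mul, DynSc_pd, ← Finset.mul_sum]
    rw [hd x, mul_zero]
  · have h2 := fsol_scale ha (hF (T1 * a) (mul_pos h0 ha) (hT ▸ mul_lt_mul_of_pos_right h1 ha))
    rw [haν] at h2
    exact h2
  · simp only [smul_apply, norm_smul, mul_pow, integral_const_mul]
    exact mul_le_mul_of_nonneg_left (hE _ (hm t ht)) (sq_nonneg _)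
  · have h0 : 0 < T * ν / ν' - t := sub_pos.2 ht.2
    have e : T - t * a = a * (T * ν / ν' - t) := by linarith
    obtain ⟨⟨x, hx, h1⟩, x', hx', i, h2⟩ := hr _ (hm t ht)
    rw [e, Real.mul_rpow ha.le h0.le, ← mul_assoc] at hx hx' h1
    rw [e] at h2
    refine ⟨⟨x, hx, ?_⟩, x', hx', i, ?_⟩
    · rw [norm_smul, Real.norm_of_nonneg ha.le]
      refine (mul_le_mul_of_nonneg_right (min_le_right _ _)
        (Real.rpow_pos_of_pos h0 _).le).trans ?_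
      have := mul_le_mul_of_nonneg_left h1 ha.le
      linarith
    · simp only [PiLp.smul_apply, smul_eq_mul, DynSc_pd]
      rw [← mul_sub, abs_mul, abs_of_pos ha]
      refine (div_le_div_of_nonneg_right (min_le_left _ _) h0.le).trans ?_
      rw [div_le_iff₀ (mul_pos ha h0)] at h2
      rw [div_le_iff₀ h0]
      linarith

theorem dyn_up (L : Lyap) (hL : L.Good) {ν : ℝ} (hν : 0 < ν) {B : Vc} (hB : Bg B)
    {φ : Fin 2 → Vc} (hφ : ∀ k, Bg (φ k)) {c m β rr ϱ x0 em cl cz ch cb : ℝ}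
    (hM1 : ∀ u, Adm u → L.X u ≤ rr → dE L ν B u ≤ -m * L.X u + β)
    (hM2 : ∀ u, Adm u → L.X u ≤ rr → dE L ν B u + c * dZ L ν B u ≤ -m * L.X u + β)
    (hco : L.Coer cl cz ch cb) (hcl : 0 < cl) (hcz : 0 ≤ cz)
    (hc : 0 < c) (hc2 : c ≤ 2) (hm : 0 < m) (hβ : 0 < β)
    (hϱ : 0 < ϱ) (hem : 4 * β ≤ cz * m * em) (hx0 : β ≤ m * x0)
    (hrr : x0 + 2 / c * (x0 + 2 * em) < rr)
    (hX : ∀ a : Fin 2 → ℝ, ∑ k, a k ^ 2 ≤ ϱ ^ 2 → L.X (pl φ a) ≤ x0)
    (hE : ∀ a : Fin 2 → ℝ, ∑ k, a k ^ 2 = ϱ ^ 2 → L.E (pl φ a) ≤ -em)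
    (hnz : rr < cl * nw Om (curl B)) : BlowUp ν 1 := by
  choose I w q U hmax using fun a : Fin 2 → ℝ => exists_max hν (bg_add_pl hB hφ a)
  obtain ⟨V, hVe⟩ : ∃ V : (Fin 2 → ℝ) → ℝ → Vc, V = fun a => resc (cmp (w a)) := ⟨_, rfl⟩
  obtain ⟨J, hJe⟩ : ∃ J : (Fin 2 → ℝ) → Set ℝ, J = fun a => lf (I a) := ⟨_, rfl⟩
  have hO : ∀ a, Orb ν (B + pl φ a) (J a) (V a) := fun a => by
    rw [hVe, hJe]
    exact orb_of_max hν (bg_add_pl hB hφ a) (hmax a)
  have hBh := bg_hinf hB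
  have hin : ∀ a, ∀ S ∈ J a, ∀ s ∈ Icc 0 S, ∀ i, Hinf (V a s i) := fun a S hS s hs i =>
    (((hO a).sol S hS).2.ub i).1 s hs
  have hin' : ∀ a, ∀ S ∈ J a, ∀ s ∈ Icc 0 S, ∀ i, Hinf ((V a s - B) i) :=
    fun a S hS s hs i => hinf_sub (hin a S hS s hs i) (hBh i)
  have hadm : ∀ a, ∀ S ∈ J a, ∀ s ∈ Icc 0 S, Adm (V a s - B) := fun a S hS s hs =>
    ⟨hin' a S hS s hs, fun y => by
      rw [dvg_sub (fun i => (hin a S hS s hs i).1) hB.smooth, ((hO a).sol S hS).2.dv s hs, hB.dv,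
        sub_zero], eqv_sub ((hO a).eqv S hS s hs) hB.eqv⟩
  have h0 : ∀ a, V a 0 - B = pl φ a := fun a => by
    rw [(hO a).init]
    exact add_sub_cancel_left _ _
  have hXE : ∀ u, L.E u + 2 * L.zz u = L.X u := fun u => by unfold Lyap.E; ring
  have hXl := fun a S hS s hs => zz_le_X hL hco hcl.le hcz (hin' a S hS s hs)
  have hem0 : 0 < em := by
    by_contra h
    push Not at h
    have := mul_nonpos_of_nonneg_of_nonpos (mul_nonneg hcz hm.le) h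
    linarith
  have hboot : ∀ a ∈ disc ϱ, ∀ S ∈ J a, ∀ s ∈ Icc 0 S,
      (∀ σ ∈ Ico 0 s, -em < L.E (V a σ - B)) → L.E (V a s - B) + 2 * L.zz (V a s - B) < rr ∧
      (s < S → L.E (V a s - B) ≤ -em →
        ∀ ε > 0, ∃ σ ∈ Ioo s (s + ε), σ < S ∧ L.E (V a σ - B) < -em) := by
    intro a ha S hS
    obtain ⟨hS0, hR⟩ := (hO a).sol S hS
    refine boot (E := fun s => L.E (V a s - B)) (zz := fun s => L.zz (V a s - B)) hS0
      (hR.iderE hS0 hB hL) (hR.iderZ hS0 hB hL)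
      (fun s _ => zz_nonneg L _) (fun s hs => ?_) (fun s hs => ?_) hcz (fun s hs => ?_)
      (fun s hs => ?_) hc hc2 hm hβ hem hx0 hrr ?_
    · rw [hXE]; exact (hXl a S hS s hs).2.1
    · rw [hXE]; exact (hXl a S hS s hs).1
    · rw [hXE]; exact hM1 _ (hadm a S hS s hs)
    · rw [hXE]; exact hM2 _ (hadm a S hS s hs)
    · rw [hXE, h0]; exact hX a ha
  have hclose : ∀ a, ∀ S ∈ J a, ∀ ε > 0, ∃ δ > 0, ∀ b : Fin 2 → ℝ, ∑ k, (b k - a k) ^ 2 ≤ δ →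
      S ∈ J b ∧ ∀ s ∈ Icc 0 S, ZZ (V b s - B - (V a s - B)) ≤ ε := by
    intro a S hS ε hε
    obtain ⟨δ, hδ, h⟩ := Orb.near ((hO a).sol S hS).2 hν ((hO a).sol S hS).1 hε
    obtain ⟨C, hC, h'⟩ := ZZ_pl (φ := φ) fun k => bg_hinf (hφ k)
    refine ⟨δ / C, div_pos hδ hC, fun b hab => ?_⟩
    simp only [sub_sub_sub_cancel_right]
    refine h _ _ _ (hO b) ?_
    rw [(hO a).init, add_sub_add_left_eq_sub, fin_pl_sub]
    refine (h' _).trans ?_
    rw [le_div_iff₀ hC] at hab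
    linarith
  have main : ∃ a, (∀ S > 0, S ∈ J a) ∧ ∀ s ≥ 0, L.X (V a s - B) ≤ rr := by
    by_contra hcon
    refine shoot' hϱ (e := -em) (W := dom (disc ϱ) J) (E := fun a s => L.E (V a s - B))
      (g := fun i a s => mom (L.θZ i) (V a s - B)) (fun z hz => ⟨hz.1, hz.2.1⟩)
      (dom_open fun a _ S hS => ?_) ?_ ?_ (fun i => ?_) (fun a ha => ?_) ?_ (fun a s hs h => ?_)
      fun a ha => ?_
    · obtain ⟨δ, hδ, h⟩ := hclose a S hS 1 one_pos
      exact ⟨δ, hδ, fun b _ hab => (h b hab).1⟩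
    · rintro a s ⟨h1, _, S, hS, h3⟩ σ hσ
      exact ⟨h1, hσ.1, S, hS, hσ.2.trans_lt h3⟩
    · refine joint' (E := fun a s => L.E (V a s - B)) (fun a _ S hS =>
        (((hO a).sol S hS).2.iderE ((hO a).sol S hS).1 hB hL).contOn ((hO a).sol S hS).1.le)
        fun a _ S hS ε hε => ?_
      obtain ⟨K, hK⟩ := UB.bd (S := S) (V := fun s => V a s - B)
        fun i => (((hO a).sol S hS).2.ub i).sub (UB.const (hBh i))
      obtain ⟨K', hK'⟩ := ZZ_bdd (V := fun s => V a s - B) (fun i s hs => hin' a S hS s hs i) hK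
      obtain ⟨η, hη, h1⟩ := E_cont L hL K' hε
      obtain ⟨δ, hδ, h2⟩ := hclose a S hS η hη
      exact ⟨δ, hδ, fun b _ hab s hs => h1 _ _ (hin' a S hS s hs)
        (hin' b S (h2 b hab).1 s hs) (hK' s hs) ((h2 b hab).2 s hs)⟩
    · refine joint' (E := fun a s => mom (L.θZ i) (V a s - B)) (fun a _ S hS =>
        (((hO a).sol S hS).2.ider_mom ((hO a).sol S hS).1 hB (good_Z hL i)).contOn
          ((hO a).sol S hS).1.le) fun a _ S hS ε hε => ?_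
      obtain ⟨η, hη, h1⟩ := mom_cont (good_Z hL i) hε
      obtain ⟨δ, hδ, h2⟩ := hclose a S hS η hη
      exact ⟨δ, hδ, fun b _ hab s hs => h1 _ _ (hin' a S hS s hs)
        (hin' b S (h2 b hab).1 s hs) ((h2 b hab).2 s hs)⟩
    · by_contra hne
      push Not at hne
      have hx : ∀ S ∈ J a, ∀ s ∈ Icc 0 S, L.X (V a s - B) ≤ rr := fun S hS s hs => by
        rw [← hXE]
        exact (hboot a ha S hS s hs fun σ hσ =>
          hne σ ⟨ha, hσ.1, S, hS, hσ.2.trans_le hs.2⟩).1.le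
      have hall : ∀ S > 0, S ∈ J a := fun S hS =>
        (hO a).all hS (K := 2 * (rr / L.κ) + 2 * gw 1 (curl B)) fun S' h1 _ s hs => by
          refine (gw_tri (hin a S' h1 s hs) hBh).trans ?_
          have h2 : gw 1 (curl (V a s - B)) ≤ rr / L.κ := by
            rw [le_div_iff₀ hL.2.2, mul_comm]
            exact (hXl a S' h1 s hs).2.2.2.trans (hx S' h1 s hs)
          linarith
      exact hcon ⟨a, hall, fun s hs => hx (s + 1) (hall _ (by linarith)) s ⟨hs, by linarith⟩⟩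
    · rintro a s ⟨h1, h2, S, hS, h3⟩ hlt hle ε hε
      obtain ⟨σ, h4, h5, h6⟩ := (hboot a h1 S hS s ⟨h2, h3.le⟩ hlt).2 h3 hle ε hε
      exact ⟨σ, h4, ⟨h1, le_trans h2 h4.1.le, S, hS, h5⟩, h6⟩
    · by_contra hz
      push Not at hz
      have h1 : L.zz (V a s - B) = 0 := by
        show ∑ i, mom (L.θZ i) (V a s - B) ^ 2 = 0
        simp [hz]
      have h2 := hXE (V a s - B)
      obtain ⟨_, h4, S, hS, h5⟩ := hs
      have h3 := (hXl a S hS s ⟨h4, h5.le⟩).1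
      linarith
    · refine ⟨by rw [h0]; exact hE a ha, fun i => ?_⟩
      rw [h0, h0, fin_pl_neg, mom_neg]
  obtain ⟨a, h1, h2⟩ := main
  obtain ⟨c', hc', R, hl⟩ := low hB ((div_lt_iff₀' hcl).2 hnz)
  have h3 := fun s (hs : s ≥ 0) => hl _ (hin a (s + 1) (h1 _ (by linarith)) s ⟨hs, by linarith⟩)
    ((le_div_iff₀' hcl).2
      ((hXl a (s + 1) (h1 _ (by linarith)) s ⟨hs, by linarith⟩).2.2.1.trans (h2 s hs)))
  rw [hVe] at h3
  rw [hJe] at h1
  exact blowup_one hν (bg_add_pl hB hφ a) (hmax a) h1 hc' h3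

end Pool.Agent.Work.MP_6bf1e5_an.H.Q
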