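import Pool.Agent.Work.MP_6bf1e5_an.HP.Par
import Pool.Agent.Work.MP_6bf1e5_an.H.ExCat

/-!
Existence on the Fourier side: port of ExOde, ExApr, ExLoc, ExCat.
-/

open scoped ContDiff ENNReal FourierTransform Real
open Set MeasureTheory

namespace Pool.Agent.Work.MP_6bf1e5_an.H.Q

open Ex

variable [P : Par] {ν T : ℝ} {U V : ℝ → Fv}

theorem hr_cont (ν : ℝ) : Continuous (hr ν) := by
    exact continuous_const.mul ((continuous_const.mul continuous_norm).rpow_const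
      fun ξ => Or.inr se_nn)

theorem hr_nonneg {ν : ℝ} (hν : 0 ≤ ν) (ξ : R3) : 0 ≤ hr ν ξ := by
    unfold hr
    positivity

theorem hr_neg (ν : ℝ) (ξ : R3) : hr ν (-ξ) = hr ν ξ := by
    rw [hr, hr, norm_neg]

theorem hr_ge {ν : ℝ} (hν : 0 ≤ ν) (ξ : R3) : Ex.hr ν ξ ≤ hr ν ξ + ν := by
  have := mul_le_mul_of_nonneg_left (pow_ge (t := 2 * π * ‖ξ‖) (by positivity)) hν
  unfold Ex.hr hr
  linarith

theorem sym_small {ν ε : ℝ} (hν : 0 < ν) (hε : 0 < ε) :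
    ∃ l > 0, ∀ ξ : R3, ‖ξ‖ / (hr ν ξ + l) ≤ ε := by
  obtain ⟨l, hl, h⟩ := Ex.sym_small hν hε
  refine ⟨l + ν, by positivity, fun ξ => le_trans ?_ (h ξ)⟩
  have h1 := Ex.hr_nonneg hν.le ξ
  exact div_le_div_of_nonneg_left (norm_nonneg _) (by linarith) (by linarith [hr_ge hν.le ξ])

theorem sym_gain {ν : ℝ} (hν : 0 < ν) :
    ∃ C ≥ 0, ∀ ξ : R3, ‖ξ‖ / (hr ν ξ + 1) ≤ C * wt (1 / 2) ξ := by
  obtain ⟨C, hC, h⟩ := Ex.sym_gain hν
  refine ⟨(1 + ν) * C, by positivity, fun ξ => ?_⟩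
  have h1 := Ex.hr_nonneg hν.le ξ
  have h2 := hr_nonneg hν.le ξ
  have h3 := hr_ge hν.le ξ
  rw [mul_assoc]
  refine le_trans ?_ (mul_le_mul_of_nonneg_left (h ξ) (by positivity))
  rw [← mul_div_assoc, div_le_div_iff₀ (by positivity) (by positivity)]
  have h4 : Ex.hr ν ξ + 1 ≤ (1 + ν) * (hr ν ξ + 1) := by nlinarith
  nlinarith [mul_le_mul_of_nonneg_left h4 (norm_nonneg ξ)]

theorem PreS.mono (h : PreS ν T U) {T' : ℝ} (hT : T' ≤ T) : PreS ν T' U := by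
  have hs : Icc 0 T' ⊆ Icc 0 T := Icc_subset_Icc_right hT
  refine ⟨fun i => (h.jc i).mono (prod_mono hs le_rfl), ?_, fun i ξ t ht => (h.ode i ξ t (hs ht)).mono hs⟩
  obtain ⟨A, hA⟩ := h.bd
  exact ⟨A, fun t ht => hA t (hs ht)⟩

theorem PreS.congr (h : PreS ν T U) (e : ∀ t ∈ Icc 0 T, V t = U t) : PreS ν T V := by
  refine ⟨fun i => (h.jc i).congr fun z hz => ?_, ?_, fun i ξ t ht => ?_⟩
  · show V z.1 i z.2 = U z.1 i z.2
    rw [e z.1 hz.1]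
  · obtain ⟨A, hA⟩ := h.bd
    exact ⟨A, fun t ht => by rw [e t ht]; exact hA t ht⟩
  · rw [e t ht]
    exact (h.ode i ξ t ht).congr (fun s hs => by rw [e s hs]) (by rw [e t ht])

theorem PreS.cj (h : PreS ν T U) : PreS ν T fun t => cj (U t) := by
  refine ⟨fun i => ?_, ?_, fun i ξ t ht => ?_⟩
  · have h1 : ContinuousOn (fun z : ℝ × R3 => U z.1 i (-z.2)) (Icc 0 T ×ˢ univ) :=
      (h.jc i).comp (f := fun z : ℝ × R3 => (z.1, -z.2)) (by fun_prop)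
        (fun z hz => ⟨hz.1, mem_univ _⟩)
    exact Complex.continuous_conj.comp_continuousOn h1
  · obtain ⟨A, hA⟩ := h.bd
    exact ⟨A, fun t ht => (hA t ht).cj⟩
  · have h1 := (h.ode i (-ξ) t ht).star
    rw [NL_cj]
    exact h1.congr_deriv (by simp [Ex.cj, hr_neg])

theorem ExApr_core (hν : 0 < ν) {K : ℝ} (hK : 0 ≤ K) : ∃ l > 0, ∀ (T a : ℝ) (W ρ : ℝ → Fv),
    (∀ i ξ, ∀ t ∈ Icc 0 T, HasDerivWithinAt (fun s => W s i ξ)
      (-((hr ν ξ : ℂ) * W t i ξ) - ρ t i ξ) (Icc 0 T) t) →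
    (∃ m, ∀ t ∈ Icc 0 T, Le 4 m (W t)) → Le 4 a (W 0) →
    (∀ t ∈ Icc 0 T, ∀ y, Le 4 y (W t) → ∀ i ξ, ‖ρ t i ξ‖ ≤ K * y * (‖ξ‖ * wt 4 ξ)) →
    ∀ t ∈ Icc 0 T, Le 4 (2 * a * Real.exp (l * t)) (W t) := by
  obtain ⟨l, hl, hs⟩ := sym_small (ε := 1 / (2 * (K + 1))) hν (by positivity)
  refine ⟨l, hl, ?_⟩
  intro T a W ρ ode ⟨m, hm⟩ ha hρ
  have ha0 : 0 ≤ a := ha.nonneg
  have he : ∀ t ∈ Icc 0 T, 1 ≤ Real.exp (l * t) := fun t ht =>
    Real.one_le_exp (mul_nonneg hl.le ht.1)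
  have key := halve (Q := fun x => ∀ t ∈ Icc 0 T, Le 4 (x * Real.exp (l * t)) (W t)) (a := a)
    (m := |m|) ha0 (abs_nonneg m) ?_ ?_ ?_
  · intro t ht i ξ
    have hw := wt_pos 4 ξ
    have hE := Real.exp_pos (l * t)
    refine le_of_forall_pos_le_add fun ε hε => ?_
    have := key (ε / (Real.exp (l * t) * wt 4 ξ)) (by positivity) t ht i ξ
    refine this.trans (le_of_eq ?_)
    field_simp
  · intro t ht
    refine (hm t ht).mono ?_ le_rfl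
    have := he t ht
    have h1 := le_abs_self m
    have h2 := abs_nonneg m
    nlinarith
  · intro x y hxy hx t ht
    exact (hx t ht).mono (mul_le_mul_of_nonneg_right hxy (Real.exp_pos _).le) le_rfl
  · intro x hx hQ t ht i ξ
    have hw := wt_pos 4 ξ
    have hE := Real.exp_pos (l * t)
    have hh := hr_nonneg hν.le ξ
    have h1 := ode1 (T := T) (h := hr ν ξ) (l := l) (A := K * x * (‖ξ‖ * wt 4 ξ))
      (z := fun s => W s i ξ) (ρ := fun s => ρ s i ξ) hh hl (by positivity) (ode i ξ)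
      (fun s hs' => by
        refine (hρ s hs' _ (hQ s hs') i ξ).trans (le_of_eq ?_)
        ring) t ht
    have h2 : K * x * (‖ξ‖ * wt 4 ξ) * Real.exp (l * t) / (hr ν ξ + l)
        = K * x * wt 4 ξ * Real.exp (l * t) * (‖ξ‖ / (hr ν ξ + l)) := by ring
    have h3 : K * x * wt 4 ξ * Real.exp (l * t) * (‖ξ‖ / (hr ν ξ + l))
        ≤ K * x * wt 4 ξ * Real.exp (l * t) * (1 / (2 * (K + 1))) :=
      mul_le_mul_of_nonneg_left (hs ξ) (by positivity)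
    have h4 : K * (1 / (2 * (K + 1))) ≤ 1 / 2 := by
      rw [mul_one_div, div_le_div_iff₀ (by positivity) (by positivity)]
      nlinarith
    have h5 : K * x * wt 4 ξ * Real.exp (l * t) * (1 / (2 * (K + 1)))
        ≤ x * wt 4 ξ * Real.exp (l * t) * (1 / 2) := by
      have : K * x * wt 4 ξ * Real.exp (l * t) * (1 / (2 * (K + 1)))
          = x * wt 4 ξ * Real.exp (l * t) * (K * (1 / (2 * (K + 1)))) := by ring
      rw [this]
      exact mul_le_mul_of_nonneg_left h4 (by positivity)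
    have h6 : ‖W 0 i ξ‖ ≤ a * wt 4 ξ * Real.exp (l * t) := by
      refine (ha i ξ).trans ?_
      exact le_mul_of_one_le_right (by positivity) (he t ht)
    calc ‖W t i ξ‖ ≤ ‖W 0 i ξ‖ + K * x * (‖ξ‖ * wt 4 ξ) * Real.exp (l * t) / (hr ν ξ + l) := h1
      _ ≤ a * wt 4 ξ * Real.exp (l * t) + x * wt 4 ξ * Real.exp (l * t) * (1 / 2) := by
        rw [h2]; linarith
      _ = (a + x / 2) * Real.exp (l * t) * wt 4 ξ := by ring

theorem apri (hν : 0 < ν) (K : ℝ) : ∃ l > 0, ∀ (T A : ℝ) (U : ℝ → Fv), PreS ν T U →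
    Le 4 A (U 0) → (∀ t ∈ Icc 0 T, Ex.L1 (U t) ≤ K) →
    ∀ t ∈ Icc 0 T, Le 4 (2 * A * Real.exp (l * t)) (U t) := by
  obtain ⟨l, hl, H⟩ := ExApr_core (K := 36 * π * 2 ^ (4 : ℝ) * (2 * |K|)) hν (by positivity)
  refine ⟨l, hl, fun T A U h hA hK => H T A U (fun t => NL (U t) (U t)) h.ode h.bd hA ?_⟩
  intro t ht y hy i ξ
  have hc := h.jc.ct ht
  refine (NL_le hc hc le_rfl hy hy i ξ).trans ?_
  have hw := wt_pos 4 ξ
  have hy0 := hy.nonneg
  refine mul_le_mul_of_nonneg_right ?_ (by positivity)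
  have h1 : y * Ex.L1 (U t) ≤ y * |K| :=
    mul_le_mul_of_nonneg_left ((hK t ht).trans (le_abs_self K)) hy0
  have h2 : 36 * π * 2 ^ (4 : ℝ) * (2 * |K|) * y
      = 36 * π * 2 ^ (4 : ℝ) * (y * |K| + y * |K|) := by ring
  rw [h2]
  exact mul_le_mul_of_nonneg_left (by linarith) (by positivity)

theorem PreS.uniq (h : PreS ν T U) (h' : PreS ν T V) (hν : 0 < ν) (h0 : V 0 = U 0) :
    ∀ t ∈ Icc 0 T, V t = U t := by
  obtain ⟨A, hA⟩ := h.bd
  obtain ⟨B, hB⟩ := h'.bd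
  have hc4 := c4_nonneg
  obtain ⟨l, hl, H⟩ := ExApr_core (K := 36 * π * 2 ^ (4 : ℝ) * (2 * c4 * (|A| + |B|))) hν
    (by positivity)
  have key := H T 0 (fun t => V t - U t) (fun t => NL (V t) (V t) - NL (U t) (U t))
    (fun i ξ t ht => by
      have h1 := (h'.ode i ξ t ht).sub (h.ode i ξ t ht)
      exact h1.congr_deriv (by simp only [Pi.sub_apply]; ring))
    ⟨B + A, fun t ht => (hB t ht).sub (hA t ht)⟩
    (fun i ξ => by simp [h0]) ?_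
  · intro t ht
    funext i ξ
    have h1 := key t ht i ξ
    simp only [mul_zero, zero_mul, Pi.sub_apply, norm_le_zero_iff, sub_eq_zero] at h1
    exact h1
  · intro t ht y hy i ξ
    have hU := h.jc.ct ht
    have hV := h'.jc.ct ht
    have hW := hV.sub hU
    have hw := wt_pos 4 ξ
    have hy0 := hy.nonneg
    have bA := (hA t ht).mono (le_abs_self A) le_rfl
    have bB := (hB t ht).mono (le_abs_self B) le_rfl
    have hA0 := abs_nonneg A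
    have hB0 := abs_nonneg B
    simp only [Pi.sub_apply]
    rw [NL_sub hV hU bB bA]
    refine (norm_add_le _ _).trans ?_
    have h1 := NL_le hW hV le_rfl hy bB i ξ
    have h2 := NL_le hU hW le_rfl bA hy i ξ
    have l1 := L1_le hy
    have l2 := L1_le bA
    have l3 := L1_le bB
    have e1 : y * Ex.L1 (V t) + |B| * Ex.L1 (V t - U t) ≤ y * (c4 * |B|) + |B| * (c4 * y) :=
      add_le_add (mul_le_mul_of_nonneg_left l3 hy0) (mul_le_mul_of_nonneg_left l1 hB0)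
    have e2 : |A| * Ex.L1 (V t - U t) + y * Ex.L1 (U t) ≤ |A| * (c4 * y) + y * (c4 * |A|) :=
      add_le_add (mul_le_mul_of_nonneg_left l1 hA0) (mul_le_mul_of_nonneg_left l2 hy0)
    have hp : 0 ≤ 36 * π * 2 ^ (4 : ℝ) := by positivity
    have hq : 0 ≤ ‖ξ‖ * wt 4 ξ := by positivity
    have f1 := h1.trans (mul_le_mul_of_nonneg_right (mul_le_mul_of_nonneg_left e1 hp) hq)
    have f2 := h2.trans (mul_le_mul_of_nonneg_right (mul_le_mul_of_nonneg_left e2 hp) hq)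
    refine (add_le_add f1 f2).trans (le_of_eq ?_)
    ring

theorem PreS.bd_all (h : PreS ν T U) (hν : 0 < ν) (h0 : Dat (U 0)) (r : ℝ) :
    ∃ A, ∀ t ∈ Icc 0 T, Le r A (U t) := by
  obtain ⟨A0, hA0⟩ := h.bd
  obtain ⟨C, hC, hg⟩ := sym_gain hν
  have hc4 := c4_nonneg
  have key : ∀ n : ℕ, ∃ A, ∀ t ∈ Icc 0 T, Le (4 + n / 2) A (U t) := by
    intro n
    induction n with
    | zero => exact ⟨A0, fun t ht => by simpa using hA0 t ht⟩
    | succ n ih =>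
      obtain ⟨A, hA⟩ := ih
      obtain ⟨A', hA'⟩ := h0.bd (4 + n / 2 + 1 / 2)
      set r : ℝ := 4 + n / 2 with hr'
      have hr4 : 4 ≤ r := by
        have : (0 : ℝ) ≤ n / 2 := by positivity
        linarith
      set M : ℝ := 36 * π * 2 ^ r * (2 * (|A| * (c4 * |A0|))) with hM
      have hM0 : 0 ≤ M := by positivity
      refine ⟨A' + M * Real.exp T * C, fun t ht i ξ => ?_⟩
      have e : (4 : ℝ) + ((n + 1 : ℕ) : ℝ) / 2 = r + 1 / 2 := by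
        rw [hr']; push_cast; ring
      rw [e]
      have hw := wt_pos r ξ
      have hw' := wt_pos (1 / 2) ξ
      have hh := hr_nonneg hν.le ξ
      have h1 := ode1 (T := T) (h := hr ν ξ) (l := 1) (A := M * (‖ξ‖ * wt r ξ))
        (z := fun s => U s i ξ) (ρ := fun s => NL (U s) (U s) i ξ) hh one_pos (by positivity)
        (h.ode i ξ)
        (fun s hs => by
          have hc := h.jc.ct hs
          have bA := (hA s hs).mono (le_abs_self A) le_rfl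
          have l1 := L1_le ((hA0 s hs).mono (le_abs_self A0) le_rfl)
          have e1 : |A| * Ex.L1 (U s) ≤ |A| * (c4 * |A0|) :=
            mul_le_mul_of_nonneg_left l1 (abs_nonneg A)
          refine (NL_le hc hc hr4 bA bA i ξ).trans ?_
          refine le_trans ?_ (le_mul_of_one_le_right (by positivity)
            (Real.one_le_exp (by simpa using hs.1)))
          refine mul_le_mul_of_nonneg_right ?_ (by positivity)
          exact mul_le_mul_of_nonneg_left (by linarith) (by positivity)) t ht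
      have h2 : M * (‖ξ‖ * wt r ξ) * Real.exp (1 * t) / (hr ν ξ + 1)
          = M * wt r ξ * Real.exp (1 * t) * (‖ξ‖ / (hr ν ξ + 1)) := by ring
      have h3 : Real.exp (1 * t) ≤ Real.exp T := Real.exp_le_exp.2 (by simpa using ht.2)
      have h4 : M * wt r ξ * Real.exp (1 * t) * (‖ξ‖ / (hr ν ξ + 1))
          ≤ M * wt r ξ * Real.exp T * (C * wt (1 / 2) ξ) :=
        mul_le_mul (mul_le_mul_of_nonneg_left h3 (by positivity)) (hg ξ) (by positivity)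
          (by positivity)
      have h5 := hA' i ξ
      rw [wt_add] at h5 ⊢
      calc ‖U t i ξ‖ ≤ ‖U 0 i ξ‖ + M * (‖ξ‖ * wt r ξ) * Real.exp (1 * t) / (hr ν ξ + 1) := h1
        _ ≤ A' * (wt r ξ * wt (1 / 2) ξ) + M * wt r ξ * Real.exp T * (C * wt (1 / 2) ξ) := by
          rw [h2]; linarith
        _ = _ := by ring
  obtain ⟨n, hn⟩ := exists_nat_ge (2 * r)
  obtain ⟨A, hA⟩ := key n
  exact ⟨A, fun t ht => (hA t ht).mono le_rfl (by linarith)⟩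

theorem PreS.dat (h : PreS ν T U) (hν : 0 < ν) (h0 : Dat (U 0)) {t : ℝ} (ht : t ∈ Icc 0 T) :
    Dat (U t) := by
  refine ⟨h.jc.ct ht, fun r => ?_, fun ξ => ?_, ?_⟩
  · obtain ⟨A, hA⟩ := h.bd_all hν h0 r
    exact ⟨A, hA t ht⟩
  · have h1 := ode1 (T := T) (h := hr ν ξ) (l := 1) (A := 0)
      (z := fun s => ∑ i, ((ξ i : ℝ) : ℂ) * U s i ξ) (ρ := fun _ => 0) (hr_nonneg hν.le ξ) one_pos
      le_rfl
      (fun s hs => by
        have h2 := HasDerivWithinAt.fun_sum (u := Finset.univ)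
          (fun i _ => (h.ode i ξ s hs).const_mul ((ξ i : ℝ) : ℂ))
        refine h2.congr_deriv ?_
        have h3 := NL_dv (U s) (U s) ξ
        simp only [mul_sub, Finset.sum_sub_distrib, h3, Finset.mul_sum, mul_neg,
          Finset.sum_neg_distrib]
        congr 2
        exact Finset.sum_congr rfl fun i _ => by ring)
      (fun s _ => by simp) t ht
    have h4 := h0.dv ξ
    simp only [h4, norm_zero, zero_mul, zero_div, add_zero, norm_le_zero_iff] at h1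
    exact h1
  · exact h.uniq h.cj hν h0.hm t ht

/-- The map of the fixed point argument. -/
noncomputable def ExLoc_Ψ (ν l : ℝ) (F : Fv) (y : ExLoc_X) (z : ℝ × R3) (i : Fin 3) : ℂ :=
  (((wt 4 z.2)⁻¹ : ℝ) : ℂ) * du (hr ν z.2) (F i z.2)
    (fun s => NL (ExLoc_lift y s) (ExLoc_lift y s) i z.2) (max 0 (min z.1 l⁻¹))

theorem ExLoc_Ψ_cont (ν l : ℝ) {F : Fv} (hF : Ct F) (y : ExLoc_X) :
    Continuous (ExLoc_Ψ ν l F y) := by
  refine continuous_pi fun i => Continuous.mul (Complex.continuous_ofReal.comp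
    (((wt_cont 4).comp continuous_snd).inv₀ fun z => (wt_pos 4 _).ne')) ?_
  exact (du_cont (ρ := fun s ξ => NL (ExLoc_lift y s) (ExLoc_lift y s) i ξ) (hr_cont ν) (hF i)
    (ExLoc_nl y i)).comp (f := fun z : ℝ × R3 => (max 0 (min z.1 l⁻¹), z.2)) (by fun_prop)

theorem ExLoc_du {ν l ε R A t : ℝ} (hν : 0 < ν) (hl : 0 < l) {ξ : R3}
    (hε : ‖ξ‖ / (hr ν ξ + l) ≤ ε) {z0 : ℂ} (h0 : ‖z0‖ ≤ R * wt 4 ξ) {ρ : ℝ → ℂ}
    (hρ : Continuous ρ) (hA : 0 ≤ A) (hb : ∀ s, ‖ρ s‖ ≤ A * (‖ξ‖ * wt 4 ξ)) :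
    ‖(((wt 4 ξ)⁻¹ : ℝ) : ℂ) * du (hr ν ξ) z0 ρ (max 0 (min t l⁻¹))‖ ≤ R + 3 * A * ε := by
  have hw := wt_pos 4 ξ
  have h1 := du_le z0 hρ (hr_nonneg hν.le ξ) hl hb (t := max 0 (min t l⁻¹))
    ⟨le_max_left _ _, max_le (inv_pos.2 hl).le (min_le_right _ _)⟩
  rw [norm_mul, Complex.norm_real, Real.norm_of_nonneg (inv_pos.2 hw).le, inv_mul_le_iff₀ hw]
  have h2 : 3 * (A * (‖ξ‖ * wt 4 ξ)) / (hr ν ξ + l) = 3 * A * wt 4 ξ * (‖ξ‖ / (hr ν ξ + l)) := by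
    ring
  have h3 := mul_le_mul_of_nonneg_left hε (show 0 ≤ 3 * A * wt 4 ξ by positivity)
  linarith

theorem ExLoc_Ψ_le {ν l ε R : ℝ} (hν : 0 < ν) (hl : 0 < l) (hε0 : 0 ≤ ε)
    (hε : ∀ ξ : R3, ‖ξ‖ / (hr ν ξ + l) ≤ ε) {F : Fv} (bF : Le 4 R F) (y : ExLoc_X) (z : ℝ × R3) :
    ‖ExLoc_Ψ ν l F y z‖ ≤ R + 3 * (ExLoc_k * (‖y‖ * ‖y‖)) * ε := by
  have hA : 0 ≤ ExLoc_k * (‖y‖ * ‖y‖) := mul_nonneg ExLoc_k_nonneg (by positivity)
  refine (pi_norm_le_iff_of_nonneg (add_nonneg bF.nonneg (by positivity))).2 fun i => ?_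
  exact ExLoc_du hν hl (hε _) (bF i _) (ExLoc_nl' y i _) hA fun s =>
    ExLoc_bil (ExLoc_ct y s) (ExLoc_ct y s) (ExLoc_le y s) (ExLoc_le y s) i _

theorem ExLoc_Ψ_sub {ν l ε : ℝ} (hν : 0 < ν) (hl : 0 < l) (hε0 : 0 ≤ ε)
    (hε : ∀ ξ : R3, ‖ξ‖ / (hr ν ξ + l) ≤ ε) (F : Fv) (y y' : ExLoc_X) (z : ℝ × R3) :
    ‖ExLoc_Ψ ν l F y z - ExLoc_Ψ ν l F y' z‖ ≤
      3 * (ExLoc_k * ((‖y‖ + ‖y'‖) * ‖y - y'‖)) * ε := by
  have hA : 0 ≤ ExLoc_k * ((‖y‖ + ‖y'‖) * ‖y - y'‖) := mul_nonneg ExLoc_k_nonneg (by positivity)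
  refine (pi_norm_le_iff_of_nonneg (by positivity)).2 fun i => ?_
  rw [Pi.sub_apply, ExLoc_Ψ, ExLoc_Ψ, ← mul_sub, du_sub _ _ (ExLoc_nl' y i _) (ExLoc_nl' y' i _),
    ← zero_add (3 * _ * ε)]
  refine ExLoc_du hν hl (hε _) (by simp) ((ExLoc_nl' y i _).sub (ExLoc_nl' y' i _)) hA fun s => ?_
  rw [NL_sub (ExLoc_ct y s) (ExLoc_ct y' s) (ExLoc_le y s) (ExLoc_le y' s), ExLoc_sub]
  have h1 := ExLoc_bil (ExLoc_ct (y - y') s) (ExLoc_ct y s) (ExLoc_le _ s) (ExLoc_le y s) i z.2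
  have h2 := ExLoc_bil (ExLoc_ct y' s) (ExLoc_ct (y - y') s) (ExLoc_le _ s) (ExLoc_le _ s) i z.2
  refine (norm_add_le _ _).trans ((add_le_add h1 h2).trans_eq ?_)
  ring

theorem loc {ν : ℝ} (hν : 0 < ν) (R : ℝ) : ∃ T > 0, ∀ F : Fv, Ct F → Le 4 R F →
    ∃ U, PreS ν T U ∧ U 0 = F := by
  have hk := ExLoc_k_nonneg
  obtain ⟨ρ, hρ, hR⟩ : ∃ ρ, 0 < ρ ∧ 2 * R ≤ ρ := ⟨2 * |R| + 1, by positivity, by
    linarith [le_abs_self R]⟩
  obtain ⟨ε, hε0, he⟩ : ∃ ε, 0 < ε ∧ ExLoc_k * ρ * ε ≤ 1 / 12 := by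
    refine ⟨1 / (12 * (ExLoc_k + 1) * ρ), by positivity, ?_⟩
    rw [mul_one_div, div_le_div_iff₀ (by positivity) (by norm_num)]
    nlinarith
  obtain ⟨l, hl, hε⟩ := sym_small hν hε0
  refine ⟨l⁻¹, inv_pos.2 hl, fun F hF bF => ?_⟩
  have hke : 0 ≤ ExLoc_k * ε := mul_nonneg hk hε0.le
  obtain ⟨y, hy⟩ := ExLoc_fix (fun y : ExLoc_X => BoundedContinuousFunction.ofNormedAddCommGroup
    (ExLoc_Ψ ν l F y) (ExLoc_Ψ_cont ν l hF y) _ (ExLoc_Ψ_le hν hl hε0.le hε bF y)) hρ.le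
    (fun y hy => by
      refine (BoundedContinuousFunction.norm_le hρ.le).2 fun z =>
        (ExLoc_Ψ_le hν hl hε0.le hε bF y z).trans ?_
      have h1 := mul_le_mul_of_nonneg_left (mul_le_mul hy hy (norm_nonneg _) hρ.le) hke
      have h2 := mul_le_mul_of_nonneg_right he hρ.le
      linarith)
    (fun y y' hy hy' => by
      refine (BoundedContinuousFunction.norm_le (by positivity)).2 fun z =>
        (ExLoc_Ψ_sub hν hl hε0.le hε F y y' z).trans ?_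
      have h1 := mul_le_mul_of_nonneg_left
        (mul_le_mul_of_nonneg_right (add_le_add hy hy') (norm_nonneg (y - y'))) hke
      have h2 := mul_le_mul_of_nonneg_right he (norm_nonneg (y - y'))
      linarith)
  have hU : ∀ i ξ, ∀ t ∈ Icc 0 l⁻¹, ExLoc_lift y t i ξ = du (hr ν ξ) (F i ξ)
      (fun s => NL (ExLoc_lift y s) (ExLoc_lift y s) i ξ) t := by
    intro i ξ t ht
    have h1 : ExLoc_Ψ ν l F y (t, ξ) = y (t, ξ) := DFunLike.congr_fun hy (t, ξ)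
    rw [ExLoc_lift, ← h1, ExLoc_Ψ, ← mul_assoc, ← Complex.ofReal_mul,
      mul_inv_cancel₀ (wt_pos 4 ξ).ne', Complex.ofReal_one, one_mul, min_eq_left ht.2,
      max_eq_right ht.1]
  refine ⟨ExLoc_lift y, ⟨ExLoc_jc y _, ⟨‖y‖, fun t _ => ExLoc_le y t⟩, fun i ξ t ht => ?_⟩, ?_⟩
  · rw [hU i ξ t ht]
    exact (du_deriv _ _ (ExLoc_nl' y i ξ) t).hasDerivWithinAt.congr (hU i ξ) (hU i ξ t ht)
  · funext i ξ
    rw [hU i ξ 0 ⟨le_rfl, (inv_pos.2 hl).le⟩, du_zero]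

theorem PreS.cat {T1 T2 : ℝ} {U V : ℝ → Fv} (h : PreS ν T1 U) (h' : PreS ν T2 V) (h1 : 0 ≤ T1)
    (h2 : 0 ≤ T2) (e : V 0 = U T1) :
    PreS ν (T1 + T2) fun t => if t ≤ T1 then U t else V (t - T1) := by
  have eq : Icc 0 (T1 + T2) = Icc 0 T1 ∪ Icc T1 (T1 + T2) :=
    (Icc_union_Icc_eq_Icc h1 (le_add_of_nonneg_right h2)).symm
  obtain ⟨W, hW⟩ : ∃ W : ℝ → Fv, W = fun t => if t ≤ T1 then U t else V (t - T1) := ⟨_, rfl⟩
  have e1 : ∀ t ∈ Icc 0 T1, W t = U t := fun t ht => by rw [hW]; exact if_pos ht.2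
  have e2 : ∀ t ∈ Icc T1 (T1 + T2), W t = V (t - T1) := fun t ht => by
    rcases ht.1.eq_or_lt with rfl | h3
    · rw [e1 _ ⟨h1, le_rfl⟩, sub_self, e]
    · rw [hW]
      exact if_neg h3.not_ge
  have m : MapsTo (fun t => t - T1) (Icc T1 (T1 + T2)) (Icc 0 T2) := fun t ht =>
    ⟨sub_nonneg.2 ht.1, sub_le_iff_le_add'.2 ht.2⟩
  rw [← hW]
  refine ⟨fun i => ?_, ?_, fun i ξ t _ => ?_⟩
  · rw [eq, union_prod]
    refine ContinuousOn.union_of_isClosed ((h.jc i).congr fun z hz => by rw [e1 _ hz.1])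
      (((h'.jc i).comp (f := fun z : ℝ × R3 => (z.1 - T1, z.2)) (by fun_prop)
        fun z hz => ⟨m hz.1, trivial⟩).congr fun z hz => by rw [e2 _ hz.1]; rfl)
      (isClosed_Icc.prod isClosed_univ) (isClosed_Icc.prod isClosed_univ)
  · obtain ⟨A, hA⟩ := h.bd
    obtain ⟨B, hB⟩ := h'.bd
    refine ⟨max A B, fun t ht => ?_⟩
    rcases eq.subset ht with ht | ht
    · rw [e1 t ht]
      exact (hA t ht).mono (le_max_left _ _) le_rfl
    · rw [e2 t ht]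
      exact (hB _ (m ht)).mono (le_max_right _ _) le_rfl
  · rw [eq]
    refine HasDerivWithinAt.union ?_ ?_
    · by_cases ht : t ∈ Icc 0 T1
      · rw [e1 t ht]
        exact (h.ode i ξ t ht).congr (fun s hs => by rw [e1 s hs]) (by rw [e1 t ht])
      · exact HasFDerivWithinAt.of_notMem_closure (by rwa [closure_Icc])
    · by_cases ht : t ∈ Icc T1 (T1 + T2)
      · rw [e2 t ht]
        have h3 := (h'.ode i ξ _ (m ht)).scomp t
          ((hasDerivAt_id t).sub_const T1).hasDerivWithinAt m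
        rw [one_smul] at h3
        exact h3.congr (fun s hs => by rw [e2 s hs]; rfl) (by rw [e2 t ht]; rfl)
      · exact HasFDerivWithinAt.of_notMem_closure (by rwa [closure_Icc])

theorem maxF (hν : 0 < ν) {F : Fv} (hc : Ct F) {A : ℝ} (hA : Le 4 A F) : ∃ U : ℝ → Fv, U 0 = F ∧
    ∀ T ≥ 0, ∀ K, (∀ T' ∈ Ioo 0 T, PreS ν T' U ∧ ∀ t ∈ Icc 0 T', Ex.L1 (U t) ≤ K) →
      ∃ ε > 0, PreS ν (T + ε) U := by
  classical
  obtain ⟨U, hU⟩ : ∃ U : ℝ → Fv,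
      ∀ t, U t = if h : ∃ V, PreS ν t V ∧ V 0 = F then h.choose t else F := ⟨_, fun _ => rfl⟩
  have h0 : U 0 = F := by
    rw [hU]
    split_ifs with h
    exacts [h.choose_spec.2, rfl]
  have key : ∀ T V, PreS ν T V → V 0 = F → PreS ν T U := fun T V hV e => hV.congr fun t ht => by
    have h : ∃ V, PreS ν t V ∧ V 0 = F := ⟨V, hV.mono ht.2, e⟩
    rw [hU, dif_pos h]
    exact (hV.mono ht.2).uniq h.choose_spec.1 hν (h.choose_spec.2.trans e.symm) t ⟨ht.1, le_rfl⟩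
  refine ⟨U, h0, fun T hT K h => ?_⟩
  rcases hT.eq_or_lt with rfl | hT
  · obtain ⟨T0, h1, h2⟩ := loc hν A
    obtain ⟨V, h3, h4⟩ := h2 F hc hA
    exact ⟨T0, h1, by rw [zero_add]; exact key _ V h3 h4⟩
  obtain ⟨l, l0, hl⟩ := apri hν K
  obtain ⟨T0, h1, h2⟩ := loc hν (2 * A * Real.exp (l * T))
  obtain ⟨S, s0, s1, s2⟩ : ∃ S, 0 < S ∧ S < T ∧ T < S + T0 :=
    ⟨max (T / 2) (T - T0 / 2), lt_max_of_lt_left (half_pos hT),
      max_lt (half_lt_self hT) (by linarith), by linarith [le_max_right (T / 2) (T - T0 / 2)]⟩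
  obtain ⟨h3, h4⟩ := h S ⟨s0, s1⟩
  have h5 := hA.nonneg
  obtain ⟨V, h6, h7⟩ := h2 (U S) (h3.jc.ct ⟨s0.le, le_rfl⟩)
    ((hl S A U h3 (h0 ▸ hA) h4 S ⟨s0.le, le_rfl⟩).mono (by gcongr) le_rfl)
  refine ⟨S + T0 - T, sub_pos.2 s2, ?_⟩
  rw [add_sub_cancel]
  exact key _ _ (h3.cat h6 s0.le h1.le h7) ((if_pos s0.le).trans h0)

end Pool.Agent.Work.MP_6bf1e5_an.H.Q
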