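import Pool.Agent.Work.MP_6bf1e5_an.HP.Opn
import Pool.Agent.Work.MP_6bf1e5_an.H.Cst0

/-! From the static estimates to blow-up for an interval of exponents. -/

open scoped ContDiff ENNReal FourierTransform Real
open Set MeasureTheory

namespace Pool.Agent.Work.MP_6bf1e5_an.H.Q

theorem blowup_of_static {L : Lyap} {ν : ℝ} {Ψ S : Vc} {ψ s : Fin 2 → Vc} {K : Cst}
    (hS : Static L ν Ψ S ψ s K) (hν : 0 < ν) {c m β β' rr ϱ x0 em η : ℝ}
    (hN : Num L.κ ν K c m β rr) (hc : 0 < c) (hc2 : c ≤ 2) (hm : 0 < m) (hβ : 0 < β')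
    (hβ' : β < β') (hcl : 0 < K.cl) (hcz : 0 ≤ K.cz) (hϱ : 0 < ϱ) (hem : 4 * β' ≤ K.cz * m * em)
    (hx0 : β' ≤ m * x0)
    (hrr : x0 + 2 / c * (x0 + 2 * em) < rr) (hη : 0 < η) (hη' : 0 ≤ K.C0 + η)
    (hX : (K.C0 + η) * ϱ ^ 2 ≤ x0) (hE : em ≤ (K.c0 - η) * ϱ ^ 2) (hnz : rr < K.cl / 10 ^ 6) :
    ∃ δ > 0, ∀ [P : Par], P.al < 3 / 4 + δ → ∀ ν', 0 < ν' → ∃ T, 0 < T ∧ BlowUp ν' T := by
  obtain ⟨A1, h1⟩ := master hS hN
  obtain ⟨A2, h2⟩ := ini_cut hS hη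
  obtain ⟨A3, h3⟩ := hS.nz
  set A := max (max A1 A2) (max A3 1) with hA
  have a1 : A ≥ A1 := le_trans (le_max_left _ _) (le_max_left _ _)
  have a2 : A ≥ A2 := le_trans (le_max_right _ _) (le_max_left _ _)
  have a3 : A ≥ A3 := le_trans (le_max_left _ _) (le_max_right _ _)
  have a4 : 0 < A := lt_of_lt_of_le one_pos (le_trans (le_max_right _ _) (le_max_right _ _))
  obtain ⟨δ, hδ, h4⟩ := master_near hS.good (hS.pot.bg a4) hν.le hS.coer hcl hcz hc.le (h1 A a1) hβ'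
  refine ⟨δ, hδ, ?_⟩
  intro P hP ν' hν'
  have hb : BlowUp ν 1 := by
    refine dyn_up L hS.good hν (hS.pot.bg a4) (φ := fun k => cut A (ψ k) (s k))
      (fun k => (hS.potφ k).bg a4) (h4 hP).1 (h4 hP).2 hS.coer hcl hcz hc hc2 hm hβ hϱ
      hem hx0 hrr ?_ ?_ (lt_of_lt_of_le hnz ?_)
    · intro a ha
      exact le_trans (h2 A a2 a).2 (le_trans (mul_le_mul_of_nonneg_left ha hη') hX)
    · intro a ha
      have := (h2 A a2 a).1
      rw [ha] at this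
      linarith
    · have := mul_le_mul_of_nonneg_left (h3 A a3) hcl.le
      linarith
  exact ⟨1 * ν / ν', by positivity, blowup_scale hb hν hν'⟩

/-- The static estimates with the final constants hold for some data. -/
def Stat0 : Prop := ∃ (L : Lyap) (Ψ S : Vc) (ψ s : Fin 2 → Vc),
  Static L (1 / 64) Ψ S ψ s K0 ∧ L.κ = κ0

theorem blowup_of_K0 (h : Stat0) :
    ∃ δ > 0, ∀ [P : Par], P.al < 3 / 4 + δ → ∀ ν, 0 < ν → ∃ T, 0 < T ∧ BlowUp ν T := by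
  obtain ⟨L, Ψ, S, ψ, s, hS, hκ⟩ := h
  exact blowup_of_static hS (by norm_num) (β' := 252 / 10 ^ 35) (ϱ := 183 / 10 ^ 17)
    (x0 := 68 / 10 ^ 31) (em := 33 / 10 ^ 31)
    (η := 1 / 100) (hκ ▸ num0) (by norm_num) (by norm_num) (by norm_num) (by norm_num)
    (by norm_num) (by norm_num [K0]) (by norm_num [K0]) (by norm_num) (by norm_num [K0])
    (by norm_num) (by norm_num) (by norm_num) (by norm_num [K0]) (by norm_num [K0])
    (by norm_num [K0]) (by norm_num [K0])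

end Pool.Agent.Work.MP_6bf1e5_an.H.Q
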