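import Pool.Agent.Work.MP_6bf1e5_an.HP.TaoB
import Pool.Agent.Work.MP_6bf1e5_an.HP.Stmt
import Pool.Agent.Work.MP_6bf1e5_an.HP.Up
import Pool.Agent.Work.MP_6bf1e5_an.H.WideFin2

/-!
Uniqueness and non-existence among smooth solutions with bounded energy.
-/

open scoped ContDiff ENNReal FourierTransform Real Topology
open Set MeasureTheory Filter Metric

namespace Pool.Agent.Work.MP_6bf1e5_an.H.Q

variable {ν T : ℝ} {u0 : R3 → R3} {u v : R3 → ℝ → R3} {p q : R3 → ℝ → ℝ}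
  {U : ℝ → Fin 3 → R3 → ℂ}

theorem bsol_of {α : ℝ} (h : WSol α ν u0 T u p) : BSol α ν u0 T u p :=
  ⟨h.smooth_u, h.smooth_p, h.energy, fun _ => Or.inr h.four, h.momentum, h.divFree, h.initial⟩

variable [P : Par]

theorem wide_lam {φ : Sc} (h1 : ContDiff ℝ ∞ φ) (h2 : HasCompactSupport φ) (x : R3) :
    (𝓕⁻ (fun ξ => (((2 * π * ‖ξ‖) ^ (2 * P.al) : ℝ) : ℂ) * 𝓕 (fun y => (φ y : ℂ)) ξ) x).re
      = Lam φ x := by
  obtain ⟨F, hF⟩ := (hinf_of_supp h1 h2).exists_rep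
  rw [Lam, (hF.1.cg (FourB_eq hF.1 (h1.continuous.integrable_of_hasCompactSupport h2))).Dp_eq]
  simp only [sy, se]

theorem bsol_ws (h : BSol P.al ν u0 T u p) : ∃ E, ∀ E0, E ≤ E0 → Ens.Wide.Q.WS ν T E0 u p := by
  obtain ⟨C, hC, he⟩ := h.energy
  have hn : ∀ t, 0 ≤ᵐ[volume] fun x => ‖u x t‖ ^ 2 := fun t =>
    Eventually.of_forall fun x => sq_nonneg _
  have hm := fun t ht => ((wide_cont h.smooth_u (t := t) ht).norm.pow 2).aestronglyMeasurable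
    (μ := volume)
  refine ⟨C.toReal, fun E0 hE => ⟨Ens.contDiffOn_vec.1 h.smooth_u, h.smooth_p, fun t ht =>
    ⟨hm t ht, (hasFiniteIntegral_iff_ofReal (hn t)).2 (wide_pow _ 2 ▸ (he t ht).trans_lt hC)⟩,
    fun t ht => le_trans ?_ hE, fun t ht i φ hφ => ?_, h.divFree⟩⟩
  · rw [integral_eq_lintegral_of_nonneg_ae (hn t) (hm t ht), ← wide_pow]
    exact ENNReal.toReal_mono hC.ne (he t ht)
  · have h1 := h.momentum t ht i φ hφ.1 hφ.2
    simp only [wide_lam hφ.1 hφ.2] at h1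
    exact h1

theorem bsol_wsol (hν : 0 < ν) (hT : 0 < T) (h : BSol P.al ν u0 T u p) : WSol P.al ν u0 T u p := by
  refine ⟨h.smooth_u, h.smooth_p, h.energy, ?_, h.momentum, h.divFree, h.initial⟩
  rcases P.lo.eq_or_lt with e | e
  · refine (h.dissip e.ge).elim (fun h1 => ?_) id
    rw [← e, show (3 + 2 * (3 / 4) : ℝ) = 9 / 2 by norm_num] at h1
    exact Wide.four_of_dissip h.smooth_u h.energy h1
  · obtain ⟨E, hE⟩ := bsol_ws h
    exact (hE E le_rfl).four (by unfold se; linarith) hν hT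

theorem fsol_wsol (h : FSol P.al ν u0 T u p U) : WSol P.al ν u0 T u p := by
  obtain ⟨h1, h2, h3⟩ := fsol_bounds h
  obtain ⟨C, hC⟩ := h2 [] 0 le_rfl
  have hb : ∀ t ∈ Icc 0 T, ∀ i, ∫ y, u y t i ^ 2 ≤ C ∧ ∀ x, |u x t i| ≤ C := fun t ht i => by
    have := hC t ht i
    rwa [Dp_zero (h1 t ht i).inA] at this
  have he : ∀ t ∈ Icc 0 T, ∫⁻ x, ‖u x t‖ₑ ^ 2 ≤ ENNReal.ofReal (3 * C) := fun t ht => by
    have hi := fun i => Dyn.int_sq (h1 t ht i)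
    rw [wide_pow]
    simp only [Ens.norm_sq_eq_sum]
    rw [← ofReal_integral_eq_lintegral_ofReal (integrable_finsetSum _ fun i _ => hi i)
      (Eventually.of_forall fun x => Finset.sum_nonneg fun i _ => sq_nonneg _),
      integral_finsetSum _ fun i _ => hi i, Fin.sum_univ_three]
    exact ENNReal.ofReal_le_ofReal (by linarith [(hb t ht 0).1, (hb t ht 1).1, (hb t ht 2).1])
  refine ⟨h.smooth_u, h.smooth_p, ⟨_, ENNReal.ofReal_lt_top, he⟩, ?_, fun t ht i φ a1 a2 => ?_,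
    h.divFree, h.initial⟩
  · refine setLIntegral_lt_top_of_le_nnreal measure_Icc_lt_top.ne
      ⟨((ENNReal.ofReal (3 * C ^ 2) * ENNReal.ofReal (3 * C)) ^ (1 / 2 : ℝ)).toNNReal,
        fun t ht => ?_⟩
    rw [ENNReal.coe_toNNReal (ENNReal.rpow_ne_top_of_nonneg (by norm_num)
      (ENNReal.mul_ne_top ENNReal.ofReal_ne_top ENNReal.ofReal_ne_top))]
    refine ENNReal.rpow_le_rpow (le_trans ?_ (mul_le_mul_right (he t ht) _)) (by norm_num)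
    rw [← lintegral_const_mul' _ _ ENNReal.ofReal_ne_top]
    refine lintegral_mono fun x => ?_
    have h4 : ∀ i, u x t i ^ 2 ≤ C ^ 2 := fun i => by
      rw [← sq_abs]
      exact pow_le_pow_left₀ (abs_nonneg _) ((hb t ht i).2 x) 2
    rw [show 4 = 2 + 2 from rfl, pow_add]
    refine mul_le_mul_left ?_ _
    rw [← ofReal_norm, ← ENNReal.ofReal_pow (norm_nonneg _), Ens.norm_sq_eq_sum, Fin.sum_univ_three]
    exact ENNReal.ofReal_le_ofReal (by linarith [h4 0, h4 1, h4 2])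
  · simp only [wide_lam a1 a2, fun x => h3 x t ht i]
    simp only [mul_assoc]
    rw [integral_const_mul]
    exact congrArg _ (Dp_symm (h1 t ht i) (hinf_of_supp a1 a2) se_nn)

theorem wide_unique (hν : 0 ≤ ν) (hT : 0 < T) (h : FSol P.al ν u0 T u p U)
    (g : WSol P.al ν u0 T v q) : ∀ t ∈ Icc 0 T, ∀ x, v x t = u x t := by
  obtain ⟨E, hE⟩ := bsol_ws (bsol_of g)
  obtain ⟨E', hE'⟩ := bsol_ws (bsol_of (fsol_wsol h))
  obtain ⟨h1, h2, -⟩ := fsol_bounds h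
  obtain ⟨C, hC⟩ := h2 [] 0 le_rfl
  choose D hD using fun j : Fin 3 => h2 [j] 0 le_rfl
  refine (hE _ (le_max_left E E')).unique hν (hE' _ (le_max_right E E')) hT
    (M := |C| + ∑ j, |D j|) (by positivity) (fun t ht x i => ⟨?_, fun j => ?_⟩) g.four
    fun x => by rw [g.initial, h.initial]
  · have := (hC t ht i).2 x
    rw [Dp_zero (h1 t ht i).inA] at this
    exact this.trans ((le_abs_self C).trans (le_add_of_nonneg_right (by positivity)))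
  · have := (hD j t ht i).2 x
    rw [Dp_zero (h1 t ht i).inA] at this
    exact this.trans ((le_abs_self _).trans ((Finset.single_le_sum (f := fun j => |D j|)
      (fun _ _ => abs_nonneg _) (Finset.mem_univ j)).trans (le_add_of_nonneg_left (abs_nonneg C))))

theorem plain (hν : 0 < ν) (h : ∃ T, 0 < T ∧ BlowUp ν T) :
    ∃ T > 0, ∃ u0 : R3 → R3, ContDiff ℝ ∞ u0 ∧
      (∀ n K : ℕ, ∃ C, ∀ x, (1 + ‖x‖) ^ K * ‖iteratedFDeriv ℝ n u0 x‖ ≤ C) ∧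
      (∀ x, ∑ i, pd i (fun y => u0 y i) x = 0) ∧
      (∃ u p, (∀ T1, 0 < T1 → T1 < T → BSol P.al ν u0 T1 u p ∧
          ∀ v q, BSol P.al ν u0 T1 v q → ∀ t ∈ Icc 0 T1, ∀ x, v x t = u x t) ∧
        (∀ t ∈ Ico 0 T, ∫ x, ‖u x t‖ ^ 2 ≤ ∫ x, ‖u0 x‖ ^ 2) ∧
        ∃ c > 0, ∃ R : ℝ, ∀ t ∈ Ico 0 T,
          (∃ x, ‖x‖ ≤ R * (T - t) ^ ga ∧ c * (T - t) ^ (ga - 1) ≤ ‖u x t‖) ∧
          ∃ x, ‖x‖ ≤ R * (T - t) ^ ga ∧ ∃ i : Fin 3, c / (T - t) ≤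
            |pd (i + 1) (fun y => u y t (i + 2)) x - pd (i + 2) (fun y => u y t (i + 1)) x|) ∧
      ¬∃ u p, BSol P.al ν u0 T u p := by
  obtain ⟨T, hT, u0, hd, u, p, U, hs, he, c, hc, R, hr⟩ := h
  refine ⟨T, hT, u0, u0.smooth ⊤, fun n K =>
    ⟨_, SchwartzMap.one_add_le_sup_seminorm_apply (𝕜 := ℝ) (m := (K, n)) le_rfl le_rfl u0⟩, hd,
    ⟨u, p, fun T1 a1 a2 => ⟨bsol_of (fsol_wsol (hs T1 a1 a2)),
      fun v q g => wide_unique hν.le a1 (hs T1 a1 a2) (bsol_wsol hν a1 g)⟩, he, c, hc, R, hr⟩, ?_⟩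
  rintro ⟨v, q, g0⟩
  have g := bsol_wsol hν hT g0
  obtain ⟨B, hB⟩ := ((isCompact_closedBall (0 : R3) (|R| * T ^ ga)).prod
    (isCompact_Icc (a := 0) (b := T))).exists_bound_of_continuousOn
    (g.smooth_u.continuousOn.mono (prod_mono (subset_univ _) subset_rfl))
  have l1 : Tendsto (fun s : ℝ => c * s ^ (ga - 1)) (𝓝[>] 0) atTop :=
    (tendsto_rpow_neg_nhdsGT_zero (by linarith [ga_hi])).const_mul_atTop hc
  obtain ⟨s, h1, h2, h3⟩ := ((l1.eventually_gt_atTop B).and (Ioo_mem_nhdsGT hT)).exists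
  obtain ⟨⟨x, h4, h5⟩, -⟩ := hr (T - s) ⟨by linarith, by linarith⟩
  rw [sub_sub_cancel] at h4 h5
  have h6 := wide_unique hν.le (by linarith) (hs (T - s) (by linarith) (by linarith))
    (g.mono (by linarith) (by linarith)) (T - s) ⟨by linarith, le_rfl⟩ x
  have h7 := hB (x, T - s) ⟨mem_closedBall_zero_iff.2 (h4.trans (mul_le_mul (le_abs_self R)
    (Real.rpow_le_rpow h2.le h3.le ga_pos.le) (by positivity) (abs_nonneg R))),
    by linarith, by linarith⟩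
  simp only [h6] at h7
  linarith

omit P in
theorem final (h : Stat0) : ∃ δ > 0, ∀ α : ℝ, 3 / 4 ≤ α → α < 3 / 4 + δ → ∀ ν : ℝ, 0 < ν →
    ∃ T > 0, ∃ u0 : R3 → R3, ContDiff ℝ ∞ u0 ∧
      (∀ n K : ℕ, ∃ C, ∀ x, (1 + ‖x‖) ^ K * ‖iteratedFDeriv ℝ n u0 x‖ ≤ C) ∧
      (∀ x, ∑ i, pd i (fun y => u0 y i) x = 0) ∧
      (∃ u p, (∀ T1, 0 < T1 → T1 < T → BSol α ν u0 T1 u p ∧
          ∀ v q, BSol α ν u0 T1 v q → ∀ t ∈ Icc 0 T1, ∀ x, v x t = u x t) ∧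
        (∀ t ∈ Ico 0 T, ∫ x, ‖u x t‖ ^ 2 ≤ ∫ x, ‖u0 x‖ ^ 2) ∧
        ∃ c > 0, ∃ R : ℝ, ∀ t ∈ Ico 0 T,
          (∃ x, ‖x‖ ≤ R * (T - t) ^ (1 / (2 * α)) ∧ c * (T - t) ^ (1 / (2 * α) - 1) ≤ ‖u x t‖) ∧
          ∃ x, ‖x‖ ≤ R * (T - t) ^ (1 / (2 * α)) ∧ ∃ i : Fin 3, c / (T - t) ≤
            |pd (i + 1) (fun y => u y t (i + 2)) x - pd (i + 2) (fun y => u y t (i + 1)) x|) ∧
      ¬∃ u p, BSol α ν u0 T u p := by
  obtain ⟨δ, hδ, hb⟩ := blowup_of_K0 h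
  refine ⟨min δ (1 / 4), lt_min hδ (by norm_num), fun α h1 h2 ν hν => ?_⟩
  exact @plain ν ⟨α, h1, by linarith [min_le_right δ (1 / 4)]⟩ hν
    (@hb ⟨α, h1, by linarith [min_le_right δ (1 / 4)]⟩
      (h2.trans_le (by linarith [min_le_left δ (1 / 4)])) ν hν)

end Pool.Agent.Work.MP_6bf1e5_an.H.Q
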