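import Pool.Agent.Work.MP_6bf1e5_an.HP.Par
import Pool.Agent.Work.MP_6bf1e5_an.H.DynHinf

/-!
Comparison of the two dissipations on the Fourier side.
-/

open scoped ContDiff ENNReal FourierTransform Real
open Set MeasureTheory

namespace Pool.Agent.Work.MP_6bf1e5_an.H.Q

open Dyn

variable [P : Par] {f g : Sc} {V : Vc}

theorem hinf_lam (hf : Hinf f) : Hinf (Lam f) := hf.Dp se_nn

omit P in
theorem dp_self {F : R3 → ℂ} (h : RepH f F) {s : ℝ} (hs : 0 ≤ s) :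
    Integrable (fun ξ => (2 * π * ‖ξ‖) ^ s * ‖F ξ‖ ^ 2) ∧
      ∫ y, Dp s f y * f y = ∫ ξ, (2 * π * ‖ξ‖) ^ s * ‖F ξ‖ ^ 2 := by
  have h1 := h.sq_Dp (s := s / 2) (by positivity)
  rw [← Dp_sq h.hinf (by positivity), show 2 * (s / 2) = s by ring] at h1
  exact h1

theorem lam_ge {a c : ℝ} (h : ∀ t : ℝ, 0 ≤ t → t ^ (3 / 2 : ℝ) ≤ a * t ^ se + c) (hf : Hinf f) :
    ∫ y, H.Lam f y * f y ≤ a * (∫ y, Lam f y * f y) + c * ∫ y, f y ^ 2 := by
  obtain ⟨F, hF⟩ := hf.exists_rep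
  obtain ⟨i1, e1⟩ := dp_self hF (s := 3 / 2) (by norm_num)
  obtain ⟨i2, e2⟩ := dp_self hF se_nn
  rw [H.Lam, Lam, e1, e2, hF.sq, ← integral_const_mul, ← integral_const_mul,
    ← integral_add (i2.const_mul a) (hF.isq.const_mul c)]
  refine integral_mono i1 ((i2.const_mul a).add (hF.isq.const_mul c)) fun ξ => ?_
  have := mul_le_mul_of_nonneg_right (h (2 * π * ‖ξ‖) (by positivity)) (sq_nonneg ‖F ξ‖)
  simp only
  linarith

theorem lam_nonneg (hf : Hinf f) : 0 ≤ ∫ y, Lam f y * f y := by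
  obtain ⟨F, hF⟩ := hf.exists_rep
  rw [Lam, (dp_self hF se_nn).2]
  exact integral_nonneg fun ξ => by positivity

theorem lam_sq_le (hf : Hinf f) :
    ∫ y, Lam f y ^ 2 ≤ (∫ y, f y ^ 2) + 3 * ∑ j, ∫ y, pd j (pd j f) y ^ 2 := by
  obtain ⟨F, hF⟩ := hf.exists_rep
  obtain ⟨i1, e1⟩ := hF.sq_Dp se_nn
  obtain ⟨i2, e2⟩ := FourE_lap hF
  refine le_trans ?_ (add_le_add_right (DynHinf_lap hf) _)
  rw [Lam, hF.sq, e1, e2, ← integral_add hF.isq i2]
  refine integral_mono i1 (hF.isq.add i2) fun ξ => ?_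
  have ht : 0 ≤ 2 * π * ‖ξ‖ := by positivity
  simp only
  generalize 2 * π * ‖ξ‖ = t at ht
  have a3 : t ^ (2 * se) ≤ 1 + t ^ 4 := by
    rcases le_total t 1 with h | h
    · have := Real.rpow_le_one ht h (mul_nonneg zero_le_two se_nn)
      have := pow_nonneg ht 4
      linarith
    · have := Real.rpow_le_rpow_of_exponent_le h
        (show 2 * se ≤ ((4 : ℕ) : ℝ) by have := se_hi; push_cast; linarith)
      rw [Real.rpow_natCast] at this
      linarith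
  nlinarith [sq_nonneg ‖F ξ‖]

/-- The two symbols are close. -/
def Cl (ε : ℝ) : Prop := ∀ t : ℝ, 0 ≤ t → |t ^ se - t ^ (3 / 2 : ℝ)| ≤ ε * (t * (1 + t))

theorem cl_of {ε : ℝ} (h1 : se ≤ 7 / 4) (h2 : 4 * (se - 3 / 2) ≤ ε) : Cl ε := by
  intro t ht
  obtain ⟨σ, hσ⟩ : ∃ σ, σ = se - 3 / 2 := ⟨_, rfl⟩
  have s0 : 0 ≤ σ := by linarith [se_lo]
  have e0 : se = 3 / 2 + σ := by linarith
  rw [← hσ] at h2
  rcases ht.eq_or_lt with rfl | ht0
  · rw [Real.zero_rpow se_pos.ne', Real.zero_rpow (by norm_num)]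
    simp
  refine le_trans ?_ (mul_le_mul_of_nonneg_right h2 (by positivity))
  have p1 : 0 < t ^ (3 / 2 : ℝ) := by positivity
  have p2 : 0 < t ^ (1 / 2 : ℝ) := by positivity
  have e1 : t ^ (3 / 2 : ℝ) = t * t ^ (1 / 2 : ℝ) := by
    rw [← Real.rpow_one_add' ht (by norm_num)]
    norm_num
  have e2 : t ^ (1 / 2 : ℝ) * t ^ (1 / 2 : ℝ) = t := by
    rw [← Real.rpow_add ht0]
    norm_num
  have e3 : t ^ σ = Real.exp (Real.log t * σ) := Real.rpow_def_of_pos ht0 σ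
  rw [e0, Real.rpow_add ht0, ← mul_sub_one, abs_mul, abs_of_pos p1]
  rcases le_total t 1 with h | h
  · have a1 := Real.rpow_le_one ht h s0
    have a2 := Real.add_one_le_exp (Real.log t * σ)
    have a3 := Real.log_le_rpow_div (inv_nonneg.2 ht) (show (0 : ℝ) < 1 / 2 by norm_num)
    rw [Real.log_inv, Real.inv_rpow ht] at a3
    have a4 : 1 - t ^ σ ≤ 2 * σ * (t ^ (1 / 2 : ℝ))⁻¹ := by
      have := mul_le_mul_of_nonneg_right a3 s0
      rw [e3]
      linarith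
    rw [abs_sub_comm, abs_of_nonneg (by linarith), e1]
    have a5 := mul_le_mul_of_nonneg_left a4 (mul_pos ht0 p2).le
    have a6 : t * t ^ (1 / 2 : ℝ) * (2 * σ * (t ^ (1 / 2 : ℝ))⁻¹) = 2 * σ * t := by
      field_simp
    nlinarith [mul_nonneg s0 ht, mul_nonneg (mul_nonneg s0 ht) ht]
  · have a1 := Real.one_le_rpow h s0
    have a2 := Real.add_one_le_exp (-(Real.log t * σ))
    have a3 := Real.log_le_rpow_div ht (show (0 : ℝ) < 1 / 4 by norm_num)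
    have a4 : t ^ σ ≤ t ^ (1 / 4 : ℝ) := Real.rpow_le_rpow_of_exponent_le h (by linarith)
    have a5 : t ^ (1 / 4 : ℝ) * t ^ (1 / 4 : ℝ) = t ^ (1 / 2 : ℝ) := by
      rw [← Real.rpow_add ht0]
      norm_num
    have a6 : t ^ σ - 1 ≤ Real.log t * σ * t ^ σ := by
      have := mul_le_mul_of_nonneg_right a2 (Real.exp_pos (Real.log t * σ)).le
      rw [← Real.exp_add, neg_add_cancel, Real.exp_zero, ← e3] at this
      linarith
    have a7 : Real.log t * σ * t ^ σ ≤ 4 * σ * t ^ (1 / 2 : ℝ) := by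
      have := mul_le_mul (mul_le_mul_of_nonneg_right a3 s0) a4 (by positivity) (by positivity)
      rw [← a5]
      linarith
    rw [abs_of_nonneg (by linarith), e1]
    have a8 := mul_le_mul_of_nonneg_left (a6.trans a7) (mul_pos ht0 p2).le
    have a9 : t * t ^ (1 / 2 : ℝ) * (4 * σ * t ^ (1 / 2 : ℝ)) = 4 * σ * (t * t) := by
      linear_combination 4 * σ * t * e2
    nlinarith [mul_nonneg s0 ht]

theorem Cl.ge {ε : ℝ} (h : Cl ε) (hε : 0 ≤ ε) (t : ℝ) (ht : 0 ≤ t) :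
    t ^ (3 / 2 : ℝ) ≤ 1 * t ^ se + 2 * ε := by
  rcases le_total t 1 with h1 | h1
  · have h2 := (abs_le.1 (h t ht)).1
    have h3 : t * (1 + t) ≤ 2 := by nlinarith
    nlinarith [mul_le_mul_of_nonneg_left h3 hε]
  · linarith [Real.rpow_le_rpow_of_exponent_le h1 se_lo]

theorem Cl.pair {ε : ℝ} (h : Cl ε) (hε : 0 ≤ ε) (hf : Hinf f) (hg : Hinf g) :
    |(∫ y, Lam f y * g y) - ∫ y, H.Lam f y * g y|
      ≤ ε * ((∑ j, ∫ y, pd j f y ^ 2) + (∫ y, g y ^ 2) + ∑ j, ∫ y, pd j g y ^ 2) := by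
  obtain ⟨F, hF⟩ := hf.exists_rep
  obtain ⟨G, hG⟩ := hg.exists_rep
  have h1 := (hF.Dp se_nn).sub (hF.Dp (s := 3 / 2) (by norm_num))
  have h2 := (parseval h1.1 hG.1 h1.mem hG.mem).2
  obtain ⟨i1, e1⟩ := hF.sq_grad
  obtain ⟨i2, e2⟩ := hG.sq_grad
  rw [← integral_sub (int_mul (hinf_lam hf) hg) (int_mul (Dyn.hinf_lam hf) hg), e1, e2, hG.sq,
    ← integral_add i1 hG.isq, ← integral_add (i1.fun_add hG.isq) i2, ← integral_const_mul]
  simp only [← sub_mul]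
  rw [Lam, H.Lam, h2]
  refine (Complex.abs_re_le_norm _).trans (norm_integral_le_of_norm_le
    (((i1.fun_add hG.isq).fun_add i2).const_mul ε) (Filter.Eventually.of_forall fun ξ => ?_))
  rw [← sub_mul, norm_mul, norm_mul, Complex.norm_conj, sy, sy, ← Complex.ofReal_sub,
    Complex.norm_real, Real.norm_eq_abs]
  have ht : 0 ≤ 2 * π * ‖ξ‖ := by positivity
  have h3 := h _ ht
  generalize 2 * π * ‖ξ‖ = t at ht h3
  have a := norm_nonneg (F ξ)
  have b := norm_nonneg (G ξ)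
  generalize ‖F ξ‖ = x at a
  generalize ‖G ξ‖ = y at b
  rw [mul_assoc]
  refine (mul_le_mul_of_nonneg_right h3 (mul_nonneg a b)).trans ?_
  rw [mul_assoc]
  refine mul_le_mul_of_nonneg_left ?_ hε
  nlinarith [sq_nonneg (t * x - y), sq_nonneg (t * x - t * y), sq_nonneg y, sq_nonneg (t * y)]

end Pool.Agent.Work.MP_6bf1e5_an.H.Q
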