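import Pool.Agent.Work.MP_6bf1e5_an.HP.Fou
import Pool.Agent.Work.MP_6bf1e5_an.H.WidePos

/-!
The symbol of the dissipation is a superposition of the symbols of second differences: port of
WideKer and WidePos.
-/

open scoped ContDiff ENNReal FourierTransform Real
open Set MeasureTheory Filter Metric

namespace Pool.Agent.Work.MP_6bf1e5_an.H.Q

open Wide

noncomputable section

variable [P : Par] {w f g η : Sc} {F G : R3 → ℂ}

/-- The kernel. -/
def kk (h : R3) : ℝ := ‖h‖ ^ (-(3 + se))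

/-- The normalising constant. -/
def kap : ℝ := (∫ h, mm (EuclideanSpace.single 0 1) h * kk h) / (2 * π) ^ se

theorem kk_nonneg (h : R3) : 0 ≤ kk h := Real.rpow_nonneg (norm_nonneg _) _

theorem kk_meas : Measurable kk := measurable_norm.pow_const _

theorem int_min : Integrable fun h : R3 => min (‖h‖ ^ 2) 1 * kk h := by
  have hm : AEStronglyMeasurable (fun h : R3 => min (‖h‖ ^ 2) 1 * kk h) volume :=
    (((measurable_norm.pow_const 2).min measurable_const).mul kk_meas).aestronglyMeasurable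
  rw [← integrableOn_univ, ← union_compl_self (ball (0 : R3) 1)]
  refine IntegrableOn.union ?_ ?_
  · refine integrableOn_ball_of_norm_le_rpow (C := 1) (α := 1 + se) (by simp)
      (by simp only [finrank_euclideanSpace_fin]; push_cast; linarith [se_hi])
      (Eventually.of_forall fun h => ?_) hm
    rw [Real.norm_of_nonneg (mul_nonneg (min_nonneg h) (kk_nonneg h)), one_mul]
    refine (mul_le_mul_of_nonneg_right (min_le_left _ _) (kk_nonneg h)).trans_eq ?_
    rw [kk, ← Real.rpow_two, ← Real.rpow_add' (norm_nonneg _) (by linarith [se_pos])]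
    congr 1
    ring
  · have h1 : Integrable fun h : R3 => (1 + ‖h‖) ^ (-(3 + se)) :=
      integrable_one_add_norm (by simp only [finrank_euclideanSpace_fin]; push_cast; linarith [se_pos])
    refine (h1.const_mul ((2 : ℝ) ^ (3 + se))).integrableOn.mono' hm.restrict ?_
    filter_upwards [ae_restrict_mem measurableSet_ball.compl] with h hh
    rw [mem_compl_iff, mem_ball_zero_iff, not_lt] at hh
    rw [Real.norm_of_nonneg (mul_nonneg (min_nonneg h) (kk_nonneg h))]
    refine (mul_le_of_le_one_left (kk_nonneg h) (min_le_right _ _)).trans ?_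
    have h2 : kk h = 2 ^ (3 + se) * (2 * ‖h‖) ^ (-(3 + se)) := by
      rw [Real.mul_rpow zero_le_two (norm_nonneg _), ← mul_assoc, ← Real.rpow_add two_pos, kk]
      norm_num
    rw [h2]
    refine mul_le_mul_of_nonneg_left ?_ (by positivity)
    exact Real.rpow_le_rpow_of_nonpos (by positivity) (by linarith) (by linarith [se_pos])

theorem int_mm (ξ : R3) : Integrable fun h => mm ξ h * kk h := by
  refine (int_min.const_mul ((2 * π * ‖ξ‖) ^ 2 + 4)).mono'
    ((mm_cont1 ξ).measurable.mul kk_meas).aestronglyMeasurable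
    (Eventually.of_forall fun h => ?_)
  rw [Real.norm_of_nonneg (mul_nonneg (mm_nonneg ξ h) (kk_nonneg h)), ← mul_assoc]
  exact mul_le_mul_of_nonneg_right (mm_le ξ h) (kk_nonneg h)

theorem mm_iso (A : R3 ≃ₗᵢ[ℝ] R3) (ξ : R3) :
    ∫ h, mm (A ξ) h * kk h = ∫ h, mm ξ h * kk h := by
  rw [← A.measurePreserving.integral_comp A.toHomeomorph.measurableEmbedding]
  simp only [mm, kk, A.inner_map_map, A.norm_map]

theorem mm_smul {r : ℝ} (hr : 0 < r) (ξ : R3) :
    ∫ h, mm (r • ξ) h * kk h = r ^ se * ∫ h, mm ξ h * kk h := by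
  have h1 := Measure.integral_comp_smul_of_nonneg (volume : Measure R3)
    (fun h => mm ξ h * kk h) r (hR := hr.le)
  have h2 : ∀ h : R3, mm (r • ξ) h * kk h
      = r ^ (3 + se) * (mm ξ (r • h) * kk (r • h)) := fun h => by
    simp only [mm, kk, real_inner_smul_left, real_inner_smul_right, norm_smul,
      Real.norm_of_nonneg hr.le, Real.mul_rpow hr.le (norm_nonneg h)]
    have h3 : r ^ (3 + se) * r ^ (-(3 + se)) = 1 := by
      rw [← Real.rpow_add hr]
      norm_num
    linear_combination (-(2 - 2 * Real.cos (2 * π * (r * inner ℝ ξ h))) * ‖h‖ ^ (-(3 + se))) * h3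
  simp only [h2]
  rw [integral_const_mul, h1, smul_eq_mul, ← mul_assoc]
  congr 1
  rw [finrank_euclideanSpace_fin, ← Real.rpow_natCast, ← Real.rpow_neg hr.le, ← Real.rpow_add hr]
  congr 1
  push_cast
  ring

theorem mm_int (ξ : R3) : ∫ h, mm ξ h * kk h = kap * (2 * π * ‖ξ‖) ^ se := by
  rcases eq_or_ne ξ 0 with rfl | h0
  · simp [mm, se_pos.ne']
  · have hr : 0 < ‖ξ‖ := norm_pos_iff.2 h0
    have hn : ‖‖ξ‖ • (EuclideanSpace.single 0 1 : R3)‖ = ‖ξ‖ := by simp [norm_smul]
    have h1 := Submodule.reflection_sub hn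
    have hp : (0 : ℝ) < (2 * π) ^ se := by positivity
    rw [Real.mul_rpow (by positivity) hr.le, kap]
    conv_lhs => rw [← h1]
    rw [mm_iso, mm_smul hr]
    field_simp

theorem kap_pos : 0 < kap := by
  refine div_pos ?_ (by positivity)
  rw [integral_pos_iff_support_of_nonneg (fun h => mul_nonneg (mm_nonneg _ h) (kk_nonneg h))
    (int_mm _)]
  have ho : IsOpen {h : R3 | 0 < mm (EuclideanSpace.single 0 1) h} :=
    isOpen_lt continuous_const (mm_cont1 _)
  refine lt_of_lt_of_le (ho.measure_pos volume ⟨EuclideanSpace.single 0 (1 / 2), ?_⟩)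
    (measure_mono fun h hh => ?_)
  · have e : 2 * π * inner ℝ (EuclideanSpace.single 0 1 : R3)
        (EuclideanSpace.single 0 (1 / 2) : R3) = π := by
      simp [EuclideanSpace.inner_single_left]
      ring
    simp only [mem_ofPred_eq, mm, e, Real.cos_pi]
    norm_num
  · have h1 : 0 < mm (EuclideanSpace.single 0 1) h := hh
    have h2 : h ≠ 0 := by
      rintro rfl
      simp [mm] at h1
    exact (mul_pos h1 (Real.rpow_pos_of_pos (norm_pos_iff.2 h2) _)).ne'

theorem fub {Z : R3 → ℂ} (hm : AEStronglyMeasurable Z volume)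
    (hZ : Integrable fun ξ => sy se ξ * Z ξ) :
    Integrable (fun h => (∫ ξ, (mm ξ h : ℂ) * Z ξ).re * kk h) ∧
    ∫ h, (∫ ξ, (mm ξ h : ℂ) * Z ξ).re * kk h = kap * (∫ ξ, sy se ξ * Z ξ).re := by
  have hΦ : Integrable (Function.uncurry fun ξ h : R3 => ((mm ξ h * kk h : ℝ) : ℂ) * Z ξ)
      (volume.prod volume) := by
    have m1 : Measurable fun z : R3 × R3 => ((mm z.1 z.2 * kk z.2 : ℝ) : ℂ) :=
      Complex.measurable_ofReal.comp (mm_cont.measurable.mul (kk_meas.comp measurable_snd))
    refine (integrable_prod_iff (m1.aestronglyMeasurable.mul hm.comp_fst)).2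
      ⟨Eventually.of_forall fun ξ => (int_mm ξ).ofReal.mul_const (Z ξ), ?_⟩
    refine (hZ.norm.const_mul kap).congr (Eventually.of_forall fun ξ => ?_)
    simp only [Pi.mul_apply, norm_mul, Complex.norm_real, sy_norm,
      Real.norm_of_nonneg (mm_nonneg ξ _), Real.norm_of_nonneg (kk_nonneg _)]
    rw [integral_mul_const, mm_int, mul_assoc kap]
  have e1 : ∀ h, (∫ ξ, (mm ξ h : ℂ) * Z ξ).re * kk h
      = (∫ ξ, ((mm ξ h * kk h : ℝ) : ℂ) * Z ξ).re := fun h => by
    rw [mul_comm, ← Complex.re_ofReal_mul, ← integral_const_mul]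
    congr 2
    funext ξ
    push_cast
    ring
  have e2 : ∀ ξ, ∫ h, ((mm ξ h * kk h : ℝ) : ℂ) * Z ξ = kap * (sy se ξ * Z ξ) := fun ξ => by
    rw [integral_mul_const, integral_complex_ofReal, mm_int, sy, Complex.ofReal_mul, mul_assoc]
  have h1 : Integrable fun h => ∫ ξ, ((mm ξ h * kk h : ℝ) : ℂ) * Z ξ := hΦ.integral_prod_right
  simp only [e1]
  refine ⟨h1.re, ?_⟩
  have h2 := integral_re (𝕜 := ℂ) h1
  simp only [RCLike.re_to_complex] at h2
  rw [h2, ← integral_integral_swap hΦ]
  simp only [e2]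
  rw [integral_const_mul, Complex.re_ofReal_mul]

theorem lam_pair (hw : MemLp w 2 volume) (hg : Hinf g) :
    Integrable (fun h => (∫ x, w x * (2 * g x - g (x + h) - g (x - h))) * kk h) ∧
    ∫ h, (∫ x, w x * (2 * g x - g (x + h) - g (x - h))) * kk h = kap * ∫ x, w x * Lam g x := by
  obtain ⟨G, hG⟩ := hg.exists_rep
  have hL := hG.Dp se_nn
  have hW : MemLp (fun ξ => (starRingEnd ℂ) (FourB_T hw ξ)) 2 volume :=
    (Complex.conjCLE : ℂ →L[ℝ] ℂ).comp_memLp' (FourB_memT hw)
  simp only [fun h => pars2 hw (rep_diff hG h)]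
  rw [Lam, pars2 hw hL]
  simp only [mul_assoc]
  refine fub (hG.mem.1.mul hW.1) ?_
  simp only [← mul_assoc]
  exact hL.mem.integrable_mul hW

theorem lam_pos : ∃ C : ℝ, 0 ≤ C ∧ ∀ w η : Sc, ContDiff ℝ ∞ w → MemLp w 2 volume → Ens.Test η →
    (∀ x, 0 ≤ η x ∧ η x ≤ 1) → (∀ x, ‖fderiv ℝ η x‖ ≤ 1) →
    -(C * ∫ x, w x ^ 2) ≤ ∫ x, w x * Lam (fun y => η y ^ 2 * w y) x := by
  refine ⟨(∫ h : R3, min (‖h‖ ^ 2) 1 * kk h) / kap, div_nonneg (integral_nonneg fun h =>
    mul_nonneg (min_nonneg h) (kk_nonneg h)) kap_pos.le, fun w η hs hw hη h01 hd => ?_⟩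
  have hg : Hinf fun y => η y ^ 2 * w y := by
    refine hinf_of_supp ((hη.1.pow 2).mul hs) (HasCompactSupport.mul_right ?_)
    simp only [sq]
    exact hη.2.mul_right
  obtain ⟨h1, h2⟩ := lam_pair hw hg
  have h3 : ∫ h : R3, -(∫ x, w x ^ 2) * (min (‖h‖ ^ 2) 1 * kk h) ≤ _ :=
    integral_mono (int_min.const_mul _) h1 fun h => by
      have h4 := diff_ge hw hη.1.continuous h01 h fun x => by
        simpa using convex_univ.norm_image_sub_le_of_norm_fderiv_le (𝕜 := ℝ) (f := η)
          (fun y _ => hη.1.differentiable (by simp) y) (fun y _ => hd y) (mem_univ x)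
          (mem_univ (x + h))
      have h5 := mul_le_mul_of_nonneg_right h4 (kk_nonneg h)
      simp only
      linarith
  rw [h2, integral_const_mul] at h3
  rw [div_mul_eq_mul_div, ← neg_div, div_le_iff₀ kap_pos]
  linarith

end

end Pool.Agent.Work.MP_6bf1e5_an.H.Q
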