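import Pool.Agent.Work.MP_6bf1e5_an.HP.DynB
import Pool.Agent.Work.MP_6bf1e5_an.H.LocBase

/-!
The rates of change of the energies depend continuously on the exponent, uniformly in the block.
-/

open scoped ContDiff ENNReal FourierTransform Real
open Set MeasureTheory

namespace Pool.Agent.Work.MP_6bf1e5_an.H.Q

open Dyn

/-- The exponent is close to the old one. -/
structure Nr [P : Par] (ε : ℝ) : Prop where
  nn : 0 ≤ ε
  cl : Cl ε
  ga : 2 / 3 - ga ≤ ε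

/-- The block. -/
structure Blk (K : ℝ) (u : Vc) : Prop where
  hinf : ∀ i, Hinf (u i)
  w : nw Om (curl u) ≤ K
  g : gw 1 (curl u) ≤ K

theorem gw_row {V : Vc} (h : ∀ i, Hinf (V i)) (i : Fin 3) :
    ∑ j, ∫ y, pd j (V i) y ^ 2 ≤ gw 1 V := by
  rw [gw_one h]
  exact Finset.single_le_sum (f := fun i => ∑ j, ∫ y, pd j (V i) y ^ 2)
    (fun _ _ => Finset.sum_nonneg fun _ _ => DynStA_sq _) (Finset.mem_univ i)

theorem nw_row {V : Vc} (h : ∀ i, Hinf (V i)) (i : Fin 3) :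
    (Integrable fun y => Om y * V i y ^ 2) ∧ ∫ y, Om y * V i y ^ 2 ≤ nw Om V := by
  have h1 : Integrable fun y => Om y * V i y ^ 2 := by
    simp only [sq]
    exact int_wmul Om_smooth.continuous DynCt_abs_Om (h i) (h i)
  refine ⟨h1, integral_mono h1 (int_nw Om_smooth.continuous DynCt_abs_Om h) fun y => ?_⟩
  refine mul_le_mul_of_nonneg_left ?_ (Om_pos y).le
  rw [sq]
  exact Finset.single_le_sum (f := fun i => V i y * V i y) (fun _ _ => mul_self_nonneg _)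
    (Finset.mem_univ i)

theorem ip_sym {θ : Vc} (hθ : ∀ i, Sym (-3) (θ i)) (K : ℝ) :
    ∃ C, ∀ v : Vc, (∀ i, Hinf (v i)) → nw Om v ≤ K → |ip v θ| ≤ C := by
  have hi : ∀ i, Integrable fun y => (Om y)⁻¹ * θ i y ^ 2 := fun i => by
    obtain ⟨C, hC⟩ := (hθ i).2 []
    have h1 : Integrable fun y : R3 => (1 + ‖y‖) ^ (-4 : ℝ) :=
      integrable_one_add_norm (by rw [finrank_euclideanSpace_fin]; norm_num)
    refine (h1.const_mul (C ^ 2)).mono' ((Om_smooth.continuous.inv₀ fun y => (Om_pos y).ne').mul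
      ((hθ i).1.continuous.pow 2)).aestronglyMeasurable (Filter.Eventually.of_forall fun y => ?_)
    have p := Om_pos y
    have n := norm_nonneg y
    have h2 : θ i y ^ 2 ≤ (C * (1 + ‖y‖) ^ (-3 : ℝ)) ^ 2 := by
      rw [← sq_abs]
      exact pow_le_pow_left₀ (abs_nonneg _) (by simpa [pds] using hC y) 2
    have h3 : (Om y)⁻¹ ≤ (1 + ‖y‖) ^ (2 : ℝ) := by
      rw [Om, inv_div, Real.rpow_two]
      nlinarith
    rw [Real.norm_of_nonneg (by positivity)]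
    refine (mul_le_mul h3 h2 (sq_nonneg _) (by positivity)).trans_eq ?_
    rw [mul_pow, ← Real.rpow_natCast ((1 + ‖y‖) ^ (-3 : ℝ)), ← Real.rpow_mul (by positivity),
      mul_left_comm, ← Real.rpow_add (by positivity)]
    norm_num
  refine ⟨∑ i, (K + ∫ y, (Om y)⁻¹ * θ i y ^ 2), fun v hv hK => ?_⟩
  rw [ip_eq hv fun i => (hθ i).hinf (by norm_num)]
  refine (Finset.abs_sum_le_sum_abs _ _).trans (Finset.sum_le_sum fun i _ => ?_)
  obtain ⟨h1, h2⟩ := nw_row hv i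
  refine le_trans ?_ (add_le_add (h2.trans hK) le_rfl)
  rw [← integral_add h1 (hi i), ← Real.norm_eq_abs]
  refine norm_integral_le_of_norm_le (h1.add (hi i)) (Filter.Eventually.of_forall fun y => ?_)
  have p := Om_pos y
  have e : Om y * v i y ^ 2 + (Om y)⁻¹ * θ i y ^ 2 - 2 * (|v i y| * |θ i y|)
      = (Om y)⁻¹ * (Om y * |v i y| - |θ i y|) ^ 2 := by
    rw [← sq_abs (v i y), ← sq_abs (θ i y)]
    field_simp
    ring
  have h3 : 0 ≤ (Om y)⁻¹ * (Om y * |v i y| - |θ i y|) ^ 2 := by positivity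
  have h4 : 0 ≤ |v i y| * |θ i y| := by positivity
  rw [Real.norm_eq_abs, abs_mul]
  linarith

theorem om_h1 {V : Vc} (h : ∀ i, Hinf (V i)) {K : ℝ} (h1 : nw Om V ≤ K) (h2 : gw 1 V ≤ K)
    (i : Fin 3) : (∫ y, (Om y * V i y) ^ 2) + ∑ j, ∫ y, pd j (fun y => Om y * V i y) y ^ 2
      ≤ 58 * K := by
  obtain ⟨i1, a1⟩ := nw_row h i
  have a2 := gw_row h i
  have b1 : ∫ y, (Om y * V i y) ^ 2 ≤ 2 * ∫ y, Om y * V i y ^ 2 := by
    rw [← integral_const_mul]
    refine integral_mono (int_sq (hinf_Om (h i))) (i1.const_mul 2) fun y => ?_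
    have := mul_le_mul_of_nonneg_right (Om_le y) (mul_nonneg (Om_pos y).le (sq_nonneg (V i y)))
    simp only
    nlinarith
  have b2 : ∀ j, ∫ y, pd j (fun y => Om y * V i y) y ^ 2
      ≤ 16 * (∫ y, Om y * V i y ^ 2) + 8 * ∫ y, pd j (V i) y ^ 2 := fun j => by
    have i2 := int_sq ((h i).pd j)
    rw [← integral_const_mul, ← integral_const_mul, ← integral_add (i1.const_mul _) (i2.const_mul _)]
    refine integral_mono (int_sq ((hinf_Om (h i)).pd j)) ((i1.const_mul _).add (i2.const_mul _))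
      fun y => ?_
    have p := Om_pos y
    have q := Om_le y
    have c1 : y j ^ 2 ≤ ‖y‖ ^ 2 := by
      rw [← sq_abs]
      exact pow_le_pow_left₀ (abs_nonneg _) (PiLp.norm_apply_le y j) 2
    have c2 : Om y * y j ^ 2 ≤ 2 := by
      have := mul_le_mul_of_nonneg_left c1 p.le
      rw [Om_norm] at this
      linarith
    have c3 : Om y ^ 2 ≤ 4 := by nlinarith
    have c4 : (Om y ^ 2 * y j) ^ 2 ≤ 8 * Om y := by
      have := mul_le_mul c3 c2 (by positivity) (by norm_num)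
      nlinarith
    have c5 := mul_le_mul_of_nonneg_right c4 (sq_nonneg (V i y))
    have c6 := mul_le_mul_of_nonneg_right c3 (sq_nonneg (pd j (V i) y))
    rw [pd_mul Om_smooth (h i).1, pd_Om]
    simp only
    nlinarith [sq_nonneg (Om y ^ 2 * y j * V i y + Om y * pd j (V i) y)]
  rw [Fin.sum_univ_three] at a2 ⊢
  linarith [b2 0, b2 1, b2 2]

theorem int_split {a b c d g : Sc} (ha : Hinf a) (hb : Hinf b) (hc : Hinf c) (hd : Hinf d)
    (hg : Hinf g) (ν k : ℝ) : ∫ y, (a y - ν * (b y - c y) + k * d y) * g y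
      = (∫ y, a y * g y) - ν * ((∫ y, b y * g y) - ∫ y, c y * g y) + k * ∫ y, d y * g y := by
  have i0 := int_mul ha hg
  have i1 := int_mul hb hg
  have i2 := int_mul hc hg
  have i3 := int_mul hd hg
  simp only [add_mul, sub_mul, mul_assoc]
  rw [integral_add (i0.sub' ((i1.sub' i2).const_mul ν)) (i3.const_mul _),
    integral_sub i0 ((i1.sub' i2).const_mul ν), integral_const_mul, integral_const_mul,
    integral_sub i1 i2]

section

variable {B : Vc} {ν : ℝ}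

theorem hinf_NN0 (hB : Bg B) {u : Vc} (hu : ∀ i, Hinf (u i)) (i : Fin 3) :
    Hinf (H.NN ν B u i) :=
  hinf_sub (hinf_sub (Dyn.hinf_GG ν (V := B + u) (fun k => hinf_add (bg_hinf hB k) (hu k)) i)
    (hinf_curl (bg_hinf hB) i)) (hinf_cmul (DynRS_hinf_yd hB i) _)

theorem NN_eq [P : Par] (u : Vc) (i : Fin 3) : NN ν B u i = fun y => H.NN ν B u i y
    - ν * (Lam (curl (B + u) i) y - H.Lam (curl (B + u) i) y)
    + (2 / 3 - ga) * yd (curl B i) y := by
  funext y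
  simp only [NN, H.NN]
  ring

theorem hinf_NN [P : Par] (hB : Bg B) {u : Vc} (hu : ∀ i, Hinf (u i)) (i : Fin 3) :
    Hinf (NN ν B u i) :=
  hinf_sub (hinf_sub (hinf_GG ν (V := B + u) (fun k => hinf_add (bg_hinf hB k) (hu k)) i)
    (hinf_curl (bg_hinf hB) i)) (hinf_cmul (DynRS_hinf_yd hB i) _)

theorem Nr.abs [P : Par] {ε : ℝ} (h : Nr ε) : |2 / 3 - Q.ga| ≤ ε := by
  rw [abs_of_nonneg (by linarith [ga_hi])]
  exact h.ga

theorem ip_NN (hB : Bg B) (hν : 0 ≤ ν) (K K' : ℝ) : ∃ C, ∀ [Par] (ε : ℝ) (u g : Vc), Nr ε →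
    Blk K u → (∀ i, Hinf (g i)) →
    (∀ i, (∫ y, g i y ^ 2) + ∑ j, ∫ y, pd j (g i) y ^ 2 ≤ K') →
    |ip (NN ν B u) g - ip (H.NN ν B u) g| ≤ C * ε := by
  refine ⟨∑ i, (ν * (2 * K + 2 * gw 1 (curl B) + K') + ((∫ y, yd (curl B i) y ^ 2) + K')),
    fun ε u g hε hu hg hK => ?_⟩
  have hV : ∀ k, Hinf ((B + u) k) := fun k => hinf_add (bg_hinf hB k) (hu.hinf k)
  have hw := hinf_curl hV
  have h0 : gw 1 (curl (B + u)) ≤ 2 * K + 2 * gw 1 (curl B) := by
    have := gw_tri hV (bg_hinf hB)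
    rw [add_sub_cancel_left] at this
    linarith [hu.g]
  rw [ip_eq (hinf_NN hB hu.hinf) hg, ip_eq (hinf_NN0 hB hu.hinf) hg, ← Finset.sum_sub_distrib,
    Finset.sum_mul]
  refine (Finset.abs_sum_le_sum_abs _ _).trans (Finset.sum_le_sum fun i _ => ?_)
  have e : (∫ y, NN ν B u i y * g i y) - ∫ y, H.NN ν B u i y * g i y
      = (2 / 3 - ga) * (∫ y, yd (curl B i) y * g i y)
        - ν * ((∫ y, Lam (curl (B + u) i) y * g i y) - ∫ y, H.Lam (curl (B + u) i) y * g i y) := by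
    rw [NN_eq, int_split (hinf_NN0 hB hu.hinf i) (hinf_lam (hw i)) (Dyn.hinf_lam (hw i))
      (DynRS_hinf_yd hB i) (hg i)]
    ring
  have a1 := hε.cl.pair hε.nn (hw i) (hg i)
  have a2 := DynCt_mul_le (DynRS_hinf_yd hB i) (hg i) one_pos
  have a3 := gw_row hw i
  have a4 := hK i
  have a5 : 0 ≤ ∑ j, ∫ y, pd j (g i) y ^ 2 := Finset.sum_nonneg fun _ _ => DynStA_sq _
  rw [e]
  refine (abs_sub _ _).trans ?_
  rw [abs_mul, abs_mul, abs_of_nonneg hν]
  have b1 := mul_le_mul hε.abs (a2.trans (show _ ≤ (∫ y, yd (curl B i) y ^ 2) + K' by linarith))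
    (abs_nonneg _) hε.nn
  have b2 := mul_le_mul_of_nonneg_left (a1.trans (mul_le_mul_of_nonneg_left
    (show _ ≤ 2 * K + 2 * gw 1 (curl B) + K' by linarith) hε.nn)) hν
  linarith

theorem dM_near (hB : Bg B) (hν : 0 ≤ ν) (K : ℝ) {θ : Vc} (hθ : ∀ i, Sym (-3) (θ i)) :
    ∃ C, ∀ [Par] (ε : ℝ) (u : Vc), Nr ε → Blk K u →
      |dM ν B θ u - H.dM ν B θ u| ≤ C * ε := by
  have h1 : ∀ i, Hinf (θ i) := fun i => (hθ i).hinf (by norm_num)
  have h2 : ∀ i, Hinf (yd (θ i)) := fun i => (sym_yd (hθ i)).hinf (by norm_num)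
  obtain ⟨C1, hC1⟩ := ip_NN hB hν K (∑ i, ((∫ y, θ i y ^ 2) + ∑ j, ∫ y, pd j (θ i) y ^ 2))
  obtain ⟨C2, hC2⟩ := ip_sym hθ K
  obtain ⟨C3, hC3⟩ := ip_sym (θ := fun i => yd (θ i)) (fun i => sym_yd (hθ i)) K
  refine ⟨C1 + 3 * C2 + C3, fun ε u hε hu => ?_⟩
  have hv := hinf_curl hu.hinf
  have e : ∀ c : ℝ, ip (curl u) (fun i y => θ i y + c * yd (θ i) y)
      = ip (curl u) θ + c * ip (curl u) fun i => yd (θ i) := fun c => by
    rw [ip_eq hv fun i => hinf_add (h1 i) (hinf_cmul (h2 i) c), ip_eq hv h1, ip_eq hv h2,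
      Finset.mul_sum, ← Finset.sum_add_distrib]
    refine Finset.sum_congr rfl fun i _ => ?_
    rw [← integral_const_mul, ← integral_add (int_mul (hv i) (h1 i))
      ((int_mul (hv i) (h2 i)).const_mul c)]
    congr 1
    funext y
    ring
  have a1 := hC1 ε u θ hε hu h1 fun i => Finset.single_le_sum
    (f := fun i => (∫ y, θ i y ^ 2) + ∑ j, ∫ y, pd j (θ i) y ^ 2) (fun _ _ => add_nonneg
      (DynStA_sq _) (Finset.sum_nonneg fun _ _ => DynStA_sq _)) (Finset.mem_univ i)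
  have a2 := mul_le_mul hε.abs (hC2 _ hv hu.w) (abs_nonneg _) hε.nn
  have a3 := mul_le_mul hε.abs (hC3 _ hv hu.w) (abs_nonneg _) hε.nn
  rw [← abs_mul] at a2 a3
  rw [dM, H.dM, e, e]
  rw [abs_le] at a1 a2 a3 ⊢
  constructor <;> linarith [a1.1, a1.2, a2.1, a2.2, a3.1, a3.2]

theorem dW_near (hB : Bg B) (hν : 0 ≤ ν) (K : ℝ) : ∃ C, ∀ [Par] (ε : ℝ) (u : Vc), Nr ε →
    Blk K u → dW ν B u ≤ H.dW ν B u + C * ε := by
  obtain ⟨C, hC⟩ := ip_NN hB hν K (58 * K)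
  refine ⟨C, fun ε u hε hu => ?_⟩
  have hv := hinf_curl hu.hinf
  have a1 := hC ε u (sm Om (curl u)) hε hu (fun i => hinf_Om (hv i)) (om_h1 hv hu.w hu.g)
  have hc := Om_smooth.continuous
  have b : ∀ y, 0 ≤ Om y * (2 - Om y) / 3 ∧
      Om y * (2 - Om y) / 3 ≤ Om y * (1 - ga / 2 * (1 + Om y)) ∧
      Om y * (1 - ga / 2 * (1 + Om y)) ≤ 2 := fun y => by
    have p := Om_pos y
    have q := Om_le y
    have r := mul_pos p (show 0 < 1 + Om y by linarith)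
    have s := mul_le_mul_of_nonneg_right ga_hi r.le
    have t := mul_pos ga_pos r
    refine ⟨by nlinarith, by nlinarith, by nlinarith⟩
  have a2 : nw (fun y => Om y * (2 - Om y) / 3) (curl u)
      ≤ nw (fun y => Om y * (1 - ga / 2 * (1 + Om y))) (curl u) :=
    integral_mono (int_nw (C := 2) ((hc.mul (continuous_const.sub hc)).div_const 3)
      (fun y => by rw [abs_of_nonneg (b y).1]; exact (b y).2.1.trans (b y).2.2) hv)
      (int_nw (C := 2) (hc.mul (continuous_const.sub (continuous_const.mul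
        (continuous_const.add hc))))
        (fun y => by rw [abs_of_nonneg ((b y).1.trans (b y).2.1)]; exact (b y).2.2) hv)
      fun y => mul_le_mul_of_nonneg_right (b y).2.1
        (Finset.sum_nonneg fun _ _ => mul_self_nonneg _)
  rw [dW, H.dW]
  linarith [(abs_le.1 a1).2]

theorem dH_one (hν : 0 ≤ ν) {W Y : Sc} (hW : Hinf W) (hY : Hinf Y) (K : ℝ) (j : Fin 3) :
    ∃ C, ∀ [Par] (ε : ℝ) (G v : Sc), Nr ε → Hinf G → Hinf v → ∑ k, ∫ y, pd k v y ^ 2 ≤ K →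
      ∫ y, pd j (fun y => G y - ν * (Lam W y - H.Lam W y) + (2 / 3 - ga) * Y y
        - ν * (Lam v y - H.Lam v y)) y * pd j v y ≤ (∫ y, pd j G y * pd j v y) + C * ε := by
  have hg := (hW.pd j).pd j
  refine ⟨2 * ν * K + ν * (K + (∫ y, pd j (pd j W) y ^ 2) + ∑ k, ∫ y, pd k (pd j (pd j W)) y ^ 2)
    + ((∫ y, pd j Y y ^ 2) + K), fun ε G v hε hG hv hK => ?_⟩
  have h1 := hinf_sub hG (hinf_cmul (hinf_sub (hinf_lam hW) (Dyn.hinf_lam hW)) ν)
  have h2 := hinf_add h1 (hinf_cmul hY (2 / 3 - ga))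
  have a0 : ∫ y, pd j v y ^ 2 ≤ K := (Finset.single_le_sum (f := fun k => ∫ y, pd k v y ^ 2)
    (fun _ _ => DynStA_sq _) (Finset.mem_univ j)).trans hK
  have a1 := pair_le hν (hε.cl.ge hε.nn) (h2.pd j) (hv.pd j)
  have a2 := hε.cl.pair hε.nn hv hg
  have a3 := DynCt_mul_le (hY.pd j) (hv.pd j) one_pos
  have e : ∀ s, 0 ≤ s → ∫ y, Dp s (pd j W) y * pd j v y = -∫ y, Dp s v y * pd j (pd j W) y :=
    fun s hs => by
      rw [Dp_symm (hW.pd j) (hv.pd j) hs, ← pd_Dp hv.inA hs, ← ibp (hv.Dp hs) (hW.pd j)]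
      simp only [mul_comm]
  rw [pd_dif h2 hv]
  refine a1.trans ?_
  rw [pd_add h1.1 (hinf_cmul hY _).1, pd_dif hG hW, pd_cmul hY.1, int_split (hG.pd j)
    (hinf_lam (hW.pd j)) (Dyn.hinf_lam (hW.pd j)) (hY.pd j) (hv.pd j), Lam, H.Lam, e _ se_nn,
    e _ (by norm_num)]
  have b1 := mul_le_mul hε.abs (a3.trans (show _ ≤ (∫ y, pd j Y y ^ 2) + K by linarith))
    (abs_nonneg _) hε.nn
  rw [← abs_mul] at b1
  have b2 := mul_le_mul_of_nonneg_left ((abs_le.1 a2).2.trans (mul_le_mul_of_nonneg_left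
    (show _ ≤ K + (∫ y, pd j (pd j W) y ^ 2) + ∑ k, ∫ y, pd k (pd j (pd j W)) y ^ 2 by linarith)
    hε.nn)) hν
  have b3 := mul_le_mul_of_nonneg_left a0 (mul_nonneg hν hε.nn)
  rw [Lam, H.Lam] at b2
  linarith [(abs_le.1 b1).2]

theorem dH_near (hB : Bg B) (hν : 0 ≤ ν) (K : ℝ) : ∃ C, ∀ [Par] (ε : ℝ) (u : Vc), Nr ε →
    Blk K u → dH ν B u ≤ H.dH ν B u + C * ε := by
  have hW := hinf_curl (bg_hinf hB)
  choose C hC using fun i j => dH_one hν (hW i) (DynRS_hinf_yd hB i) K j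
  refine ⟨∑ i, ∑ j, C i j, fun ε u hε hu => ?_⟩
  have hv := hinf_curl hu.hinf
  have e : ∀ i, NN ν B u i = fun y => H.NN ν B u i y - ν * (Lam (curl B i) y - H.Lam (curl B i) y)
      + (2 / 3 - ga) * yd (curl B i) y - ν * (Lam (curl u i) y - H.Lam (curl u i) y) := fun i => by
    have e1 : curl (B + u) i = curl B i + curl u i := by
      have := curl_sub (a := B + u) (b := B)
        (fun k => (hinf_add (bg_hinf hB k) (hu.hinf k)).1) hB.smooth
      rw [add_sub_cancel_left] at this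
      rw [this]
      simp
    rw [NN_eq, e1, Lam, H.Lam, Dp_add (hW i).inA (hv i).inA se_nn,
      Dp_add (hW i).inA (hv i).inA (by norm_num)]
    funext y
    simp only [Pi.add_apply, Lam, H.Lam]
    ring
  have a1 := Finset.sum_le_sum (s := Finset.univ) fun i _ => Finset.sum_le_sum (s := Finset.univ)
    fun j _ => hC i j ε _ _ hε (hinf_NN0 (ν := ν) hB hu.hinf i) (hv i) ((gw_row hv i).trans hu.g)
  simp only [Finset.sum_add_distrib, ← Finset.sum_mul, ← e] at a1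
  have a2 := mul_nonneg (show 0 ≤ 2 - 3 * ga by linarith [ga_hi]) (DynStA_gw (curl u))
  rw [dH, H.dH, grad_pair (hinf_NN hB hu.hinf) hv, grad_pair (hinf_NN0 hB hu.hinf) hv]
  linarith

theorem sum_near (hB : Bg B) (hν : 0 ≤ ν) (K : ℝ) {n : ℕ} {η θ : Fin n → Vc}
    (hη : ∀ a i, Sym (-3) (η a i)) (hθ : ∀ a i, Sym (-3) (θ a i)) :
    ∃ C, ∀ [Par] (ε : ℝ) (u : Vc), Nr ε → Blk K u →
      |∑ a, mom (η a) u * dM ν B (θ a) u - ∑ a, mom (η a) u * H.dM ν B (θ a) u| ≤ C * ε := by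
  choose C hC using fun a => dM_near hB hν K (hθ a)
  choose D hD using fun a => ip_sym (hη a) K
  refine ⟨∑ a, D a * C a, fun ε u hε hu => ?_⟩
  rw [← Finset.sum_sub_distrib, Finset.sum_mul]
  refine (Finset.abs_sum_le_sum_abs _ _).trans (Finset.sum_le_sum fun a _ => ?_)
  have h1 := hD a _ (hinf_curl hu.hinf) hu.w
  rw [← mul_sub, abs_mul, mul_assoc]
  exact mul_le_mul h1 (hC a ε u hε hu) (abs_nonneg _) ((abs_nonneg _).trans h1)

/-- The differential inequalities persist for nearby exponents. -/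
theorem master_near {L : Lyap} (hL : L.Good) (hB : Bg B) (hν : 0 ≤ ν)
    {cl cz ch cb c m β β' rr : ℝ} (hco : L.Coer cl cz ch cb) (hcl : 0 < cl) (hcz : 0 ≤ cz)
    (hc : 0 ≤ c) (hM : Master L ν B c m β rr) (hβ : β < β') : ∃ δ > 0, ∀ [P : Par],
      P.al < 3 / 4 + δ → (∀ u, Adm u → L.X u ≤ rr → dE L ν B u ≤ -m * L.X u + β') ∧
        ∀ u, Adm u → L.X u ≤ rr → dE L ν B u + c * dZ L ν B u ≤ -m * L.X u + β' := by
  have hκ := hL.2.2
  obtain ⟨C1, h1⟩ := dW_near hB hν (|rr| / cl + |rr| / L.κ)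
  obtain ⟨C2, h2⟩ := sum_near hB hν (|rr| / cl + |rr| / L.κ) (good_F hL) hL.1
  obtain ⟨C3, h3⟩ := dH_near hB hν (|rr| / cl + |rr| / L.κ)
  obtain ⟨C4, h4⟩ := sum_near hB hν (|rr| / cl + |rr| / L.κ) (good_Z hL) (good_Z hL)
  obtain ⟨C, hC⟩ : ∃ C, C = |2 * C1 + 2 * C2 + 2 * L.κ * C3| + |2 * c * C4| + 1 := ⟨_, rfl⟩
  have hC0 : 0 < C := by rw [hC]; positivity
  obtain ⟨ε, hε, hεC⟩ : ∃ ε, 0 < ε ∧ C * ε ≤ β' - β :=
    ⟨(β' - β) / C, div_pos (by linarith) hC0, by rw [mul_div_cancel₀ _ hC0.ne']⟩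
  refine ⟨min (1 / 8) (ε / 8), by positivity, ?_⟩
  intro P hP
  have s1 : se ≤ 7 / 4 := by
    unfold se
    linarith [min_le_left (1 / 8 : ℝ) (ε / 8)]
  have s2 : 4 * (se - 3 / 2) ≤ ε := by
    unfold se
    linarith [min_le_right (1 / 8 : ℝ) (ε / 8)]
  have hN : Nr ε := ⟨hε.le, cl_of s1 s2, by nlinarith [ga_se, ga_hi, ga_pos, se_lo]⟩
  have key : ∀ u, Adm u → L.X u ≤ rr → dE L ν B u ≤ L.dE ν B u
      + |2 * C1 + 2 * C2 + 2 * L.κ * C3| * ε ∧
      c * dZ L ν B u ≤ c * L.dZ ν B u + |2 * c * C4| * ε := fun u hu hX => by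
    obtain ⟨-, -, x1, x2⟩ := zz_le_X hL hco hcl.le hcz hu.hinf
    have p1 : 0 ≤ |rr| / cl := by positivity
    have p2 : 0 ≤ |rr| / L.κ := by positivity
    have hb : Blk (|rr| / cl + |rr| / L.κ) u := ⟨hu.hinf,
      le_add_of_le_of_nonneg ((le_div_iff₀' hcl).2 (x1.trans (hX.trans (le_abs_self _)))) p2,
      le_add_of_nonneg_of_le p1 ((le_div_iff₀' hκ).2 (x2.trans (hX.trans (le_abs_self _))))⟩
    have a1 := h1 ε u hN hb
    have a2 := (abs_le.1 (h2 ε u hN hb)).2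
    have a3 := mul_le_mul_of_nonneg_left (h3 ε u hN hb) hκ.le
    have a4 := mul_le_mul_of_nonneg_left (abs_le.1 (h4 ε u hN hb)).2 hc
    have a5 := mul_le_mul_of_nonneg_right (le_abs_self (2 * C1 + 2 * C2 + 2 * L.κ * C3)) hε.le
    have a6 := mul_le_mul_of_nonneg_right (le_abs_self (2 * c * C4)) hε.le
    unfold dE dZ Lyap.dE Lyap.dZ
    constructor <;> linarith
  have p3 := mul_nonneg (abs_nonneg (2 * c * C4)) hε.le
  rw [hC] at hεC
  exact ⟨fun u hu hX => by linarith [(key u hu hX).1, hM.dE u hu hX],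
    fun u hu hX => by linarith [(key u hu hX).1, (key u hu hX).2, hM.dM u hu hX]⟩

end

end Pool.Agent.Work.MP_6bf1e5_an.H.Q
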