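import Pool.Agent.Work.MP_6bf1e5_an.H.ExDefs

/-!
The definitions of the dynamical part for the dissipation `(-Δ) ^ α` with `3 / 4 ≤ α < 1`.
None of them occurs in the final statement. The plan is in the team store, file h94_Hplus_plan.md.
-/

open scoped ContDiff ENNReal FourierTransform Real
open Set MeasureTheory

namespace Pool.Agent.Work.MP_6bf1e5_an.H.Q

noncomputable section

/-- The exponent of the dissipation. -/
class Par where
  al : ℝ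
  lo : 3 / 4 ≤ al
  hi : al < 1

variable [P : Par]

/-- The order of the dissipation. -/
def se : ℝ := 2 * P.al

/-- The exponent of the self-similar length. -/
def ga : ℝ := 1 / se

theorem se_lo : 3 / 2 ≤ se := by
  have := P.lo
  unfold se
  linarith

theorem se_hi : se < 2 := by
  have := P.hi
  unfold se
  linarith

theorem se_pos : 0 < se := lt_of_lt_of_le (by norm_num) se_lo

theorem se_nn : 0 ≤ se := se_pos.le

theorem ga_se : ga * se = 1 := by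
  unfold ga
  exact one_div_mul_cancel se_pos.ne'

theorem ga_pos : 0 < ga := one_div_pos.2 se_pos

theorem ga_lo : 1 / 2 < ga := one_div_lt_one_div_of_lt se_pos se_hi

theorem ga_hi : ga ≤ 2 / 3 := by
  have := one_div_le_one_div_of_le (by norm_num) se_lo
  unfold ga
  linarith

/-- The dissipation. -/
def Lam (f : Sc) : Sc := Dp se f

def LamV (V : Vc) : Vc := fun i => Lam (V i)

/-- The right-hand side of the equation for `curl u`, without the terms `v + γ y·∇ v`. -/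
def NN (ν : ℝ) (B u : Vc) : Vc := fun i y =>
  curl (cross (B + u) (curl (B + u))) i y - ν * Lam (curl (B + u) i) y
    - curl B i y - ga * yd (curl B i) y

/-- Half the rate of change of `nw Om (curl u)`. -/
def dW (ν : ℝ) (B u : Vc) : ℝ :=
  -nw (fun y => Om y * (1 - ga / 2 * (1 + Om y))) (curl u) + ip (NN ν B u) (sm Om (curl u))

/-- The rate of change of `mom θ u`. -/
def dM (ν : ℝ) (B θ u : Vc) : ℝ :=
  (3 * ga - 2) * ip (curl u) θ + ip (curl u) (fun i y => θ i y + ga * yd (θ i) y)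
    + ip (NN ν B u) θ

/-- Half the rate of change of `gw 1 (curl u)`. -/
def dH (ν : ℝ) (B u : Vc) : ℝ :=
  -((1 - ga / 2) * gw 1 (curl u)) + ∫ y, ∑ i, ∑ j, pd j (NN ν B u i) y * pd j (curl u i) y

def dZ (L : Lyap) (ν : ℝ) (B u : Vc) : ℝ := 2 * ∑ i, mom (L.θZ i) u * dM ν B (L.θZ i) u

def dE (L : Lyap) (ν : ℝ) (B u : Vc) : ℝ :=
  2 * dW ν B u + 2 * ∑ a, mom (L.θF a) u * dM ν B (L.θ a) u + 2 * L.κ * dH ν B u

open Dyn

/-- A solution of `f_s = -a f - γ y·∇ f + G`. -/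
structure Evo (S a : ℝ) (f G : ℝ → Sc) : Prop where
  js : JS S f
  ub : UB S f
  ubG : UB S G
  eq : ∀ s ∈ Ioo 0 S, ∀ y,
    HasDerivAt (fun σ => f σ y) (-(a * f s y) - ga * yd (f s) y + G s y) s

/-- The same for vector fields, with `a = 1`. -/
def EvoV (S : ℝ) (f G : ℝ → Vc) : Prop := ∀ i, Evo S 1 (fun s => f s i) fun s => G s i

/-- A solution in the physical variables. -/
structure PSol (ν T : ℝ) (u : ℝ → Vc) (p : ℝ → Sc) : Prop where
  js : ∀ i, JS T fun t => u t i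
  sp : ∀ t ∈ Icc 0 T, ContDiff ℝ ∞ (p t)
  ub : ∀ i, UB T fun t => u t i
  dv : ∀ t ∈ Icc 0 T, ∀ y, dvg (u t) y = 0
  eq : ∀ t ∈ Ioo 0 T, ∀ i y, HasDerivAt (fun τ => u τ i y)
    (-(∑ j, u t j y * pd j (u t i) y) - pd i (p t) y - ν * Lam (u t i) y) t

/-- The right-hand side of the vorticity equation. -/
def GG (ν : ℝ) (V : Vc) : Vc := fun i y =>
  curl (cross V (curl V)) i y - ν * Lam (curl V i) y

/-- A solution of the vorticity equation in the self-similar variables. -/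
structure RSol (ν S : ℝ) (V : ℝ → Vc) : Prop where
  js : ∀ i, JS S fun s => V s i
  ub : ∀ i, UB S fun s => V s i
  dv : ∀ s ∈ Icc 0 S, ∀ y, dvg (V s) y = 0
  eq : ∀ s ∈ Ioo 0 S, ∀ i y, HasDerivAt (fun σ => curl (V σ) i y)
    (-curl (V s) i y - ga * yd (curl (V s) i) y + GG ν (V s) i y) s

/-- The passage to the self-similar variables. -/
def resc (u : ℝ → Vc) : ℝ → Vc := fun s i y =>
  Real.exp (-((1 - ga) * s)) * u (1 - Real.exp (-s)) i (Real.exp (-(ga * s)) • y)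

/-- The rate of change of `nw 1 d + gw 1 d`. -/
def dZZ (G d : Vc) : ℝ :=
  ((3 * ga - 2) * nw 1 d + 2 * ip G d)
    + 2 * (-((1 - ga / 2) * gw 1 d) + ∫ y, ∑ i, ∑ j, pd j (G i) y * pd j (d i) y)

/-- A maximal solution: `I` is the set of the times up to which it is a solution. -/
structure MaxS (ν : ℝ) (B : Vc) (I : Set ℝ) (u : R3 → ℝ → R3) (p : R3 → ℝ → ℝ)
    (U : ℝ → Fin 3 → R3 → ℂ) : Prop where
  sol : ∀ T ∈ I, 0 < T ∧ FSol P.al ν (tov B) T u p U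
  down : ∀ T ∈ I, ∀ T', 0 < T' → T' ≤ T → T' ∈ I
  cont : ∀ T ≥ 0, ∀ K, (∀ T' ∈ Ioo 0 T, T' ∈ I ∧ ∀ t ∈ Icc 0 T', gw 1 (curl (cmp u t)) ≤ K) →
    ∃ ε > 0, T + ε ∈ I
  en : ∀ T ∈ I, ∀ t ∈ Icc 0 T, nw 1 (cmp u t) ≤ nw 1 B

/-- The conclusion: a solution on `[0, T)` which blows up at the self-similar rates. -/
def BlowUp (ν T : ℝ) : Prop :=
  ∃ u0 : SchwartzMap R3 R3, (∀ x, ∑ i, pd i (fun y => u0 y i) x = 0) ∧
    ∃ u p U, (∀ T1, 0 < T1 → T1 < T → FSol P.al ν u0 T1 u p U) ∧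
      (∀ t ∈ Ico 0 T, ∫ x, ‖u x t‖ ^ 2 ≤ ∫ x, ‖u0 x‖ ^ 2) ∧
      ∃ c > 0, ∃ R : ℝ, ∀ t ∈ Ico 0 T,
        (∃ x, ‖x‖ ≤ R * (T - t) ^ ga ∧ c * (T - t) ^ (ga - 1) ≤ ‖u x t‖) ∧
        ∃ x, ‖x‖ ≤ R * (T - t) ^ ga ∧ ∃ i : Fin 3, c / (T - t) ≤
          |pd (i + 1) (fun y => u y t (i + 2)) x - pd (i + 2) (fun y => u y t (i + 1)) x|

/-- A maximal orbit in the self-similar variables. -/
structure Orb (ν : ℝ) (B : Vc) (J : Set ℝ) (V : ℝ → Vc) : Prop where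
  sol : ∀ S ∈ J, 0 < S ∧ RSol ν S V
  down : ∀ S ∈ J, ∀ S', 0 < S' → S' ≤ S → S' ∈ J
  cont : ∀ S ≥ 0, ∀ K, (∀ S' ∈ Ioo 0 S, S' ∈ J ∧ ∀ s ∈ Icc 0 S', gw 1 (curl (V s)) ≤ K) →
    ∃ ε > 0, S + ε ∈ J
  init : V 0 = B
  eqv : ∀ S ∈ J, ∀ s ∈ Icc 0 S, Eqv (V s)

/-- The symbol of the dissipation. -/
def hr (ν : ℝ) (ξ : R3) : ℝ := ν * (2 * π * ‖ξ‖) ^ se

/-- Solutions on the Fourier side. -/
structure PreS (ν T : ℝ) (U : ℝ → Ex.Fv) : Prop where
  jc : Ex.JC (Icc 0 T) U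
  bd : ∃ A, ∀ t ∈ Icc 0 T, Ex.Le 4 A (U t)
  ode : ∀ i ξ, ∀ t ∈ Icc 0 T, HasDerivWithinAt (fun s => U s i ξ)
    (-((hr ν ξ : ℂ) * U t i ξ) - Ex.NL (U t) (U t) i ξ) (Icc 0 T) t

theorem pow_ge {t : ℝ} (ht : 0 ≤ t) : t ^ (3 / 2 : ℝ) ≤ t ^ se + 1 := by
  rcases le_total t 1 with h | h
  · exact (Real.rpow_le_one ht h (by norm_num)).trans (le_add_of_nonneg_left (by positivity))
  · exact (Real.rpow_le_rpow_of_exponent_le h se_lo).trans (le_add_of_nonneg_right zero_le_one)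

end

end Pool.Agent.Work.MP_6bf1e5_an.H.Q
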