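import Pool.Agent.Work.MP_6bf1e5_an.HP.Ker
import Pool.Agent.Work.MP_6bf1e5_an.H.WideSob
import Pool.Agent.Work.MP_6bf1e5_an.H.DynStA

/-!
Tools for the local energy estimate: the localised dissipation, the subcritical Sobolev inequality
and the iteration lemma.
-/

open scoped ContDiff ENNReal FourierTransform Real
open Set MeasureTheory Filter Metric

namespace Pool.Agent.Work.MP_6bf1e5_an.H.Q

open Wide

variable {w g η : Sc}

theorem sh_mem {f : Sc} (hf : MemLp f 2 volume) (y : R3) : MemLp (fun x => f (x + y)) 2 volume :=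
  hf.comp_measurePreserving (measurePreserving_add_right volume y)

theorem cut_mem (hw : MemLp w 2 volume) (hη : Continuous η) (h01 : ∀ x, 0 ≤ η x ∧ η x ≤ 1) :
    MemLp (fun x => η x * w x) 2 volume :=
  hw.of_le (hη.aestronglyMeasurable.mul hw.1) (Eventually.of_forall fun x => by
    rw [norm_mul, Real.norm_of_nonneg (h01 x).1]
    exact mul_le_of_le_one_left (norm_nonneg _) (h01 x).2)

theorem diff_eq (hw : MemLp w 2 volume) (hg : MemLp g 2 volume) (h : R3) :
    ∫ x, w x * (2 * g x - g (x + h) - g (x - h)) = ∫ x, (w x - w (x + h)) * (g x - g (x + h)) := by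
  have i0 : Integrable fun x => w x * g x := hw.integrable_mul hg
  have i1 : Integrable fun x => w x * g (x + h) := hw.integrable_mul (sh_mem hg h)
  have i2 : Integrable fun x => w x * g (x - h) := by
    simp only [sub_eq_add_neg]
    exact hw.integrable_mul (sh_mem hg (-h))
  have i3 : Integrable fun x => w (x + h) * g x := (sh_mem hw h).integrable_mul hg
  have i4 : Integrable fun x => w (x + h) * g (x + h) := (sh_mem hw h).integrable_mul (sh_mem hg h)
  have e0 := integral_add_right_eq_self (μ := (volume : Measure R3)) (fun x => w x * g x) h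
  have e2 := integral_add_right_eq_self (μ := (volume : Measure R3)) (fun x => w x * g (x - h)) h
  simp only [add_sub_cancel_right] at e2
  simp only [mul_sub, sub_mul, mul_left_comm (w _) 2]
  rw [integral_sub ((i0.const_mul 2).sub' i1) i2, integral_sub (i0.const_mul 2) i1,
    integral_const_mul, integral_sub (i0.sub' i3) (i1.sub' i4), integral_sub i0 i3,
    integral_sub i1 i4, e0, e2]
  ring

theorem diff_loc (hw : MemLp w 2 volume) (hη : Continuous η) (h01 : ∀ x, 0 ≤ η x ∧ η x ≤ 1)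
    (h : R3) {m : ℝ} (hl : ∀ x, (η (x + h) - η x) ^ 2 ≤ m) :
    (∫ x, η x * w x * (2 * (η x * w x) - η (x + h) * w (x + h) - η (x - h) * w (x - h)))
      - m * ∫ x, w x ^ 2 ≤ ∫ x, w x * (2 * (η x * (η x * w x))
        - η (x + h) * (η (x + h) * w (x + h)) - η (x - h) * (η (x - h) * w (x - h))) := by
  have h1 := cut_mem hw hη h01
  have h2 := cut_mem h1 hη h01
  have i1 : Integrable fun x => (η x * w x - η (x + h) * w (x + h))
      * (η x * w x - η (x + h) * w (x + h)) :=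
    (h1.sub (sh_mem h1 h)).integrable_mul (h1.sub (sh_mem h1 h))
  have i2 : Integrable fun x => (w x - w (x + h))
      * (η x * (η x * w x) - η (x + h) * (η (x + h) * w (x + h))) :=
    (hw.sub (sh_mem hw h)).integrable_mul (h2.sub (sh_mem h2 h))
  have i5 := hw.integrable_sq.const_mul (m / 2)
  have i6 := (sh_mem hw h).integrable_sq.const_mul (m / 2)
  have e5 := integral_add_right_eq_self (μ := (volume : Measure R3)) (fun x => w x ^ 2) h
  have key := integral_mono ((i1.sub' i5).sub' i6) i2 fun x => by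
    have a2 := mul_le_mul_of_nonneg_right (hl x)
      (add_nonneg (sq_nonneg (w x)) (sq_nonneg (w (x + h))))
    have a3 := mul_nonneg (sq_nonneg (η (x + h) - η x)) (sq_nonneg (w x - w (x + h)))
    simp only
    nlinarith
  rw [integral_sub (i1.sub' i5) i6, integral_sub i1 i5, integral_const_mul, integral_const_mul,
    e5] at key
  rw [diff_eq h1 h1, diff_eq hw h2]
  linarith

theorem lam_loc [Par] : ∃ C : ℝ, 0 ≤ C ∧ ∀ (w η : Sc) (l : ℝ), ContDiff ℝ ∞ w →
    MemLp w 2 volume → Ens.Test η → (∀ x, 0 ≤ η x ∧ η x ≤ 1) → (∀ x, ‖fderiv ℝ η x‖ ≤ l) →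
    (∫ x, Lam (fun y => η y * w y) x * (η x * w x)) - C * (l ^ 2 + 1) * ∫ x, w x ^ 2
      ≤ ∫ x, w x * Lam (fun y => η y ^ 2 * w y) x := by
  refine ⟨(∫ h : R3, min (‖h‖ ^ 2) 1 * kk h) / kap, div_nonneg (integral_nonneg fun h =>
    mul_nonneg (min_nonneg h) (kk_nonneg h)) kap_pos.le, fun w η l hs hw hη h01 hd => ?_⟩
  have g1 : Hinf fun y => η y * w y := hinf_of_supp (hη.1.mul hs) hη.2.mul_right
  have g2 : Hinf fun y => η y * (η y * w y) := hinf_of_supp (hη.1.mul g1.1) hη.2.mul_right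
  obtain ⟨h1, h2⟩ := lam_pair (g1.2 []) g1
  obtain ⟨h3, h4⟩ := lam_pair hw g2
  have h5 := integral_mono (h1.sub' (int_min.const_mul ((l ^ 2 + 1) * ∫ x, w x ^ 2))) h3 fun h => by
    have a1 := diff_loc hw hη.1.continuous h01 h (m := (l ^ 2 + 1) * min (‖h‖ ^ 2) 1) fun x => by
      have b1 : |η (x + h) - η x| ≤ l * ‖h‖ := by
        simpa using convex_univ.norm_image_sub_le_of_norm_fderiv_le (𝕜 := ℝ) (f := η)
          (fun y _ => hη.1.differentiable (by simp) y) (fun y _ => hd y) (mem_univ x)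
          (mem_univ (x + h))
      rcases le_total (‖h‖ ^ 2) 1 with b2 | b2
      · rw [min_eq_left b2, ← sq_abs]
        nlinarith [pow_le_pow_left₀ (abs_nonneg _) b1 2, sq_nonneg ‖h‖]
      · rw [min_eq_right b2]
        nlinarith [h01 x, h01 (x + h), sq_nonneg l]
    have a2 := mul_le_mul_of_nonneg_right a1 (kk_nonneg h)
    simp only [pds, List.foldr]
    linarith
  rw [integral_sub h1 (int_min.const_mul _), h2, h4, integral_const_mul] at h5
  simp only [pds, List.foldr] at h5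
  simp only [sq (η _), mul_assoc (η _), mul_comm (Lam _ _)]
  refine le_of_mul_le_mul_left ?_ kap_pos
  have := kap_pos
  have e : kap * ((∫ h : R3, min (‖h‖ ^ 2) 1 * kk h) / kap * (l ^ 2 + 1) * ∫ x, w x ^ 2)
      = ((l ^ 2 + 1) * ∫ x, w x ^ 2) * ∫ h : R3, min (‖h‖ ^ 2) 1 * kk h := by
    field_simp
  rw [mul_sub, e]
  simpa only [mul_assoc] using h5

theorem gag (hg : Hinf g) : ∫⁻ x, ∫⁻ y, ENNReal.ofReal ((g x - g y) ^ 2) / ‖x - y‖ₑ ^ (9 / 2 : ℝ)
    ≤ ENNReal.ofReal (Wide.kap * ∫ x, H.Lam g x * g x) := by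
  have hm : MemLp g 2 volume := hg.2 []
  have hc := hg.1.continuous
  obtain ⟨h1, h2⟩ := Wide.lam_pair hm hg
  simp only [diff_eq hm hm, ← sq] at h1 h2
  simp only [mul_comm (H.Lam _ _)]
  rw [← h2, ofReal_integral_eq_lintegral_ofReal h1 (Eventually.of_forall fun h =>
    mul_nonneg (integral_nonneg fun x => sq_nonneg _) (Wide.kk_nonneg h))]
  have e1 : ∀ x, ∫⁻ y, ENNReal.ofReal ((g x - g y) ^ 2) / ‖x - y‖ₑ ^ (9 / 2 : ℝ)
      ≤ ∫⁻ h, ENNReal.ofReal ((g x - g (x + h)) ^ 2) * ENNReal.ofReal (Wide.kk h) := fun x => by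
    rw [← lintegral_add_left_eq_self _ x]
    refine lintegral_mono fun h => ?_
    rcases eq_or_ne h 0 with rfl | h0
    · simp
    · have p := norm_pos_iff.2 h0
      rw [sub_add_cancel_left, enorm_neg, ← ofReal_norm, ENNReal.ofReal_rpow_of_pos p, Wide.kk,
        Real.rpow_neg p.le, ENNReal.ofReal_inv_of_pos (by positivity), div_eq_mul_inv]
  refine (lintegral_mono e1).trans ?_
  rw [lintegral_lintegral_swap]
  · refine lintegral_mono fun h => ?_
    have i : Integrable fun x => (g x - g (x + h)) ^ 2 := (hm.sub (sh_mem hm h)).integrable_sq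
    rw [lintegral_mul_const' _ _ ENNReal.ofReal_ne_top, ← ofReal_integral_eq_lintegral_ofReal
      i (Eventually.of_forall fun x => sq_nonneg _),
      ENNReal.ofReal_mul (integral_nonneg fun x => sq_nonneg _)]
  · exact ((((hc.comp continuous_fst).sub (hc.comp (continuous_fst.add continuous_snd))).pow
      2).measurable.ennreal_ofReal.mul
      (Wide.kk_meas.comp measurable_snd).ennreal_ofReal).aemeasurable

theorem enorm_sq (v : R3) : ‖v‖ₑ ^ 2 = ∑ i, ENNReal.ofReal (v i ^ 2) := by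
  rw [← ofReal_norm, ← ENNReal.ofReal_pow (norm_nonneg _), EuclideanSpace.real_norm_sq_eq,
    ENNReal.ofReal_sum_of_nonneg fun _ _ => sq_nonneg _]

theorem gag_sum {g : Vc} (hg : ∀ i, Hinf (g i)) :
    ∫⁻ x, ∫⁻ y, ‖tov g x - tov g y‖ₑ ^ 2 / ‖x - y‖ₑ ^ (9 / 2 : ℝ)
      ≤ ENNReal.ofReal (Wide.kap * ∑ i, ∫ x, H.Lam (g i) x * g i x) := by
  have hc : ∀ i, Continuous (g i) := fun i => (hg i).1.continuous
  obtain ⟨F, hF⟩ : ∃ F : Fin 3 → R3 × R3 → ℝ≥0∞, F = fun i z =>
    ENNReal.ofReal ((g i z.1 - g i z.2) ^ 2) / ‖z.1 - z.2‖ₑ ^ (9 / 2 : ℝ) := ⟨_, rfl⟩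
  have m : ∀ i, Measurable (F i) := fun i => by
    rw [hF]
    exact ((((hc i).comp continuous_fst).sub ((hc i).comp continuous_snd)).pow
      2).measurable.ennreal_ofReal.div (by fun_prop)
  have e : ∀ x y, ‖tov g x - tov g y‖ₑ ^ 2 / ‖x - y‖ₑ ^ (9 / 2 : ℝ) = ∑ i, F i (x, y) :=
    fun x y => by
      rw [enorm_sq, ENNReal.div_eq_inv_mul, Finset.mul_sum, hF]
      simp only [ENNReal.div_eq_inv_mul, tov, PiLp.sub_apply]
  have m2 : ∀ x i, Measurable fun y => F i (x, y) := fun x i => (m i).comp measurable_prodMk_left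
  simp only [e, lintegral_finsetSum _ fun i _ => m2 _ i]
  rw [lintegral_finsetSum _ fun i _ => (m i).lintegral_prod_right', Finset.mul_sum,
    ENNReal.ofReal_sum_of_nonneg fun i _ => mul_nonneg Wide.kap_pos.le (Dyn.diss_zero hg i)]
  refine Finset.sum_le_sum fun i _ => ?_
  rw [hF]
  exact gag (hg i)

theorem sob_lam : ∃ K : ℝ, 0 ≤ K ∧ ∀ g : Vc, (∀ i, Hinf (g i)) →
    √(∫ x, (∑ i, g i x ^ 2) ^ 2) ≤ K * ∑ i, ∫ x, H.Lam (g i) x * g i x := by
  obtain ⟨K, hK⟩ := sob_four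
  refine ⟨|K| * Wide.kap, mul_nonneg (abs_nonneg _) Wide.kap_pos.le, fun g hg => ?_⟩
  have hc : ∀ i, Continuous (g i) := fun i => (hg i).1.continuous
  have hw : Continuous (tov g) := (contDiff_euclidean.2 fun i => (hg i).1).continuous
  have m : ∀ i, Measurable fun x => ENNReal.ofReal (g i x ^ 2) := fun i =>
    ((hc i).pow 2).measurable.ennreal_ofReal
  have h1 := hK (tov g) hw (by
    simp only [enorm_sq, tov, lintegral_finsetSum _ fun i _ => m i]
    exact ENNReal.sum_lt_top.2 fun i _ => (Dyn.int_sq (hg i)).lintegral_lt_top)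
  have h3 := h1.trans (mul_le_mul' (ENNReal.ofReal_le_ofReal (le_abs_self K)) (gag_sum hg))
  have h4 : ∀ x, ‖tov g x‖ₑ ^ 4 = ENNReal.ofReal ((∑ i, g i x ^ 2) ^ 2) := fun x => by
    rw [← ofReal_norm, ← ENNReal.ofReal_pow (norm_nonneg _), show 4 = 2 * 2 from rfl, pow_mul,
      EuclideanSpace.real_norm_sq_eq]
    simp only [tov]
  simp only [h4] at h3
  rw [← ENNReal.ofReal_mul (abs_nonneg _), ← mul_assoc] at h3
  have h5 : Continuous fun x => (∑ i, g i x ^ 2) ^ 2 := by fun_prop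
  rw [integral_eq_lintegral_of_nonneg_ae (Eventually.of_forall fun x => sq_nonneg _)
    h5.aestronglyMeasurable, Real.sqrt_eq_rpow, ENNReal.toReal_rpow]
  exact ENNReal.toReal_le_of_le_ofReal (mul_nonneg (mul_nonneg (abs_nonneg _) Wide.kap_pos.le)
    (Finset.sum_nonneg fun i _ => Dyn.diss_zero hg i)) h3

theorem pow_sub [Par] (hs : 3 / 2 < se) : ∃ N : ℕ, ∀ ε : ℝ, 0 < ε → ε ≤ 1 → ∀ t : ℝ, 0 ≤ t →
    t ^ (3 / 2 : ℝ) ≤ ε * t ^ se + ε⁻¹ ^ N := by
  obtain ⟨σ, hσ, e⟩ : ∃ σ, 0 < σ ∧ se = σ + 3 / 2 := ⟨se - 3 / 2, by linarith, by ring⟩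
  obtain ⟨N, hN⟩ := exists_nat_ge (3 / 2 / σ)
  refine ⟨N, fun ε h0 h1 t ht => ?_⟩
  rcases le_total 1 (ε * t ^ σ) with h | h
  · rw [e, Real.rpow_add_of_nonneg ht hσ.le (by norm_num), ← mul_assoc]
    exact (le_mul_of_one_le_left (by positivity) h).trans (le_add_of_nonneg_right (by positivity))
  · refine le_add_of_nonneg_of_le (by positivity) ?_
    have h2 : t ^ σ ≤ ε⁻¹ := by rwa [← one_div, le_div_iff₀' h0]
    have h3 : t ^ (3 / 2 : ℝ) = (t ^ σ) ^ (3 / 2 / σ) := by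
      rw [← Real.rpow_mul ht, mul_div_cancel₀ _ hσ.ne']
    rw [h3, ← Real.rpow_natCast]
    exact (Real.rpow_le_rpow (by positivity) h2 (by positivity)).trans
      (Real.rpow_le_rpow_of_exponent_le ((one_le_inv₀ h0).2 h1) hN)

theorem hole (N : ℕ) : ∃ K : ℝ, ∀ (f : ℝ → ℝ) (R B : ℝ), 0 < R → 0 ≤ B →
    (∃ M, ∀ r ∈ Icc R (2 * R), f r ≤ M) →
    (∀ r ρ, R ≤ r → r < ρ → ρ ≤ 2 * R → f r ≤ f ρ / 2 + B * (R / (ρ - r)) ^ N) → f R ≤ K * B := by
  obtain ⟨τ, t0, t1, t2⟩ : ∃ τ : ℝ, 0 < τ ∧ τ < 1 ∧ 2 / 3 ≤ (1 - τ) ^ N := by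
    have p : (0 : ℝ) < 3 * (N + 1) := by positivity
    have q : (1 : ℝ) / (3 * (N + 1)) * (3 * (N + 1)) = 1 := one_div_mul_cancel p.ne'
    have r := one_div_pos.2 p
    have n : (0 : ℝ) ≤ N := N.cast_nonneg
    have s : (1 : ℝ) / (3 * (N + 1)) < 1 := by nlinarith
    refine ⟨_, r, s, le_trans ?_ (one_add_mul_le_pow (a := -(1 / (3 * ((N : ℝ) + 1))))
      (by linarith) N)⟩
    nlinarith
  refine ⟨4 * τ⁻¹ ^ N, fun f R B hR hB ⟨M, hM⟩ hf => ?_⟩
  set A := (fun r => f r * ((2 * R - r) / R) ^ N) '' Ico R (2 * R) with hA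
  have hw : ∀ r ∈ Ico R (2 * R), 0 < (2 * R - r) / R ∧ (2 * R - r) / R ≤ 1 := fun r hr =>
    ⟨div_pos (by linarith [hr.2]) hR, (div_le_one hR).2 (by linarith [hr.1])⟩
  have hb : BddAbove A := ⟨|M|, by
    rintro _ ⟨r, hr, rfl⟩
    exact (mul_le_mul_of_nonneg_right ((hM r (Ico_subset_Icc_self hr)).trans (le_abs_self M))
      (pow_pos (hw r hr).1 N).le).trans (mul_le_of_le_one_right (abs_nonneg M)
        (pow_le_one₀ (hw r hr).1.le (hw r hr).2))⟩
  have hR' : R ∈ Ico R (2 * R) := ⟨le_rfl, by linarith⟩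
  have h1 : f R ≤ max (sSup A) 0 := by
    refine le_trans (le_of_eq ?_) ((le_csSup hb ⟨R, hR', rfl⟩).trans (le_max_left _ _))
    simp only
    rw [show (2 * R - R) / R = 1 by field_simp; ring, one_pow, mul_one]
  have h2 : sSup A ≤ 3 / 4 * max (sSup A) 0 + τ⁻¹ ^ N * B := by
    refine csSup_le ⟨_, R, hR', rfl⟩ ?_
    rintro _ ⟨r, hr, rfl⟩
    have d : 0 < 2 * R - r := by linarith [hr.2]
    have dτ := mul_pos t0 d
    have m : r + τ * (2 * R - r) ∈ Ico R (2 * R) := ⟨by linarith [hr.1], by nlinarith⟩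
    have a1 := hf r _ hr.1 (by linarith) m.2.le
    have a2 := (le_csSup hb ⟨_, m, rfl⟩).trans (le_max_left _ 0)
    have a3 := mul_le_mul_of_nonneg_right a1 (pow_pos (hw r hr).1 N).le
    have e1 : (2 * R - (r + τ * (2 * R - r))) / R = (1 - τ) * ((2 * R - r) / R) := by ring
    have e2 : (R / (r + τ * (2 * R - r) - r)) ^ N * ((2 * R - r) / R) ^ N = τ⁻¹ ^ N := by
      rw [← mul_pow, add_sub_cancel_left]
      congr 1
      generalize 2 * R - r = z at d
      field_simp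
    simp only at a2 ⊢
    rw [e1, mul_pow, mul_left_comm] at a2
    rw [add_mul, mul_assoc B, e2] at a3
    generalize f (r + τ * (2 * R - r)) = z at a2 a3
    have a4 : z * ((2 * R - r) / R) ^ N ≤ 3 / 2 * max (sSup A) 0 := by
      rcases le_total 0 (z * ((2 * R - r) / R) ^ N) with h | h
      · linarith [mul_le_mul_of_nonneg_right t2 h]
      · linarith [le_max_right (sSup A) 0]
    linarith
  have h3 : 0 ≤ τ⁻¹ ^ N * B := by positivity
  have h4 : max (sSup A) 0 ≤ 3 / 4 * max (sSup A) 0 + τ⁻¹ ^ N * B :=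
    max_le h2 (add_nonneg (mul_nonneg (by norm_num) (le_max_right _ _)) h3)
  linarith

end Pool.Agent.Work.MP_6bf1e5_an.H.Q
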