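import Pool.Agent.Work.MP_6bf1e5_an.HP.Uq
import Pool.Agent.Work.MP_6bf1e5_an.HP.TaoA
import Pool.Agent.Work.MP_6bf1e5_an.HP.Fou

/-!
The local energy estimate: above the exponent `3 / 4` every finite energy solution lies in
`L²_t L⁴_x`.
-/

open scoped ContDiff ENNReal FourierTransform Topology
open Set MeasureTheory Filter Metric

namespace Pool.Agent.Work.MP_6bf1e5_an.Ens.Wide.Q

open H (Hinf)
open H.Q (Par Lam se se_nn)

/-- The local `L⁴` norm, squared. -/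
noncomputable def bb (u : R3 → ℝ → R3) (r t : ℝ) : ℝ := √(∫ x in ball 0 r, ‖u x t‖ ^ 4)

theorem ball_cs {F g : R3 → ℝ} {r : ℝ} (hF : Continuous F) (hg : Test g)
    (h0 : ∀ x, r ≤ ‖x‖ → g x = 0) :
    |∫ x, F x * g x| ≤ √(∫ x in ball 0 r, F x ^ 2) * √(∫ x, g x ^ 2) := by
  have i2 : Integrable fun x => g x ^ 2 := by
    simpa only [sq] using hg.integrable_mul hg.1.continuous
  rw [← setIntegral_eq_integral_of_forall_compl_eq_zero (s := ball 0 r) fun x hx => by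
    rw [h0 x (not_lt.1 fun k => hx (mem_ball_zero_iff.2 k)), mul_zero]]
  exact (kernel_cs (estp_ball (hF.pow 2) r) i2.integrableOn
    (hg.integrable_mul hF).integrableOn).trans (mul_le_mul_of_nonneg_left (Real.sqrt_le_sqrt
      (setIntegral_le_integral i2 (ae_of_all _ fun x => sq_nonneg _))) (Real.sqrt_nonneg _))

variable [P : Par]
  {ν T E0 t lam r ρ : ℝ} {u : R3 → ℝ → R3} {p : R3 → ℝ → ℝ} {η : R3 → ℝ}

theorem bb_cont (hu : WS ν T E0 u p) (r : ℝ) : ContinuousOn (bb u r) (Icc 0 T) := by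
  have j : JS (Icc 0 T) fun x t => ∑ i, u x t i * u x t i :=
    JS.sum _ fun i _ => (hu.ju i).mul (hu.ju i)
  have e : ∀ v : R3, ‖v‖ ^ 4 = (∑ i, v i * v i) * ∑ i, v i * v i := fun v => by
    simp only [← sq, ← norm_sq_eq_sum]
    ring
  unfold bb
  simp only [e]
  exact ((j.mul j).continuousOn_setIntegral isBounded_ball measurableSet_ball).sqrt

theorem bb_mono (hu : WS ν T E0 u p) (ht : t ∈ Icc 0 T) (h : r ≤ ρ) : bb u r t ≤ bb u ρ t :=
  Real.sqrt_le_sqrt (setIntegral_mono_set (estp_ball ((hu.cont ht).norm.pow 4) ρ)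
    (ae_of_all _ fun x => by positivity) (ball_subset_ball h).eventuallyLE)

theorem prod_bb (hu : WS ν T E0 u p) (ht : t ∈ Icc 0 T) (r : ℝ) (i j : Fin 3) :
    √(∫ x in ball 0 r, (u x t j * u x t i) ^ 2) ≤ bb u r t := by
  refine Real.sqrt_le_sqrt (integral_mono
    (estp_ball (((hu.sm ht j).mul (hu.sm ht i)).continuous.pow 2) r)
    (estp_ball ((hu.cont ht).norm.pow 4) r) fun x => ?_)
  have := mul_le_mul (sq_le (u x t) j) (sq_le (u x t) i) (sq_nonneg _) (sq_nonneg _)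
  simp only
  nlinarith

theorem sq_one (hu : WS ν T E0 u p) (ht : t ∈ Icc 0 T) (i : Fin 3) : ∫ x, u x t i ^ 2 ≤ E0 :=
  (integral_mono (hu.mem ht i).integrable_sq (hu.ie t ht) fun _ => sq_le _ i).trans (hu.le t ht)

theorem sqrt_en (hu : WS ν T E0 u p) (ht : t ∈ Icc 0 T) {g : R3 → ℝ} (hg : Continuous g) {L : ℝ}
    (hL : 0 ≤ L) (h : ∀ x, g x ^ 2 ≤ L ^ 2 * ‖u x t‖ ^ 2) : √(∫ x, g x ^ 2) ≤ L * (E0 + 1) := by
  have h1 := (mem_of_le hg ((hu.ie t ht).const_mul _) h).2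
  have h0 := hu.nonneg ht
  rw [integral_const_mul] at h1
  refine Real.sqrt_le_iff.2 ⟨by positivity, h1.trans ?_⟩
  rw [mul_pow]
  exact mul_le_mul_of_nonneg_left ((hu.le t ht).trans (by nlinarith)) (sq_nonneg _)

theorem loc_trans (hu : WS ν T E0 u p) (ht : t ∈ Icc 0 T) (hη : Test η)
    (h01 : ∀ x, 0 ≤ η x ∧ η x ≤ 1) (hl : 0 ≤ lam) (hd : ∀ x, ‖fderiv ℝ η x‖ ≤ lam)
    (h0 : ∀ x, r ≤ ‖x‖ → η x = 0) (i : Fin 3) :
    -∫ x, (∑ j, u x t j * pd j (fun y => u y t i) x) * (η x ^ 2 * u x t i)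
      ≤ 3 * (bb u r t * (lam * (E0 + 1))) := by
  have e : ∀ x, (∑ j, u x t j * pd j (fun y => u y t i) x) * (η x ^ 2 * u x t i)
      = 1 / 2 * ((∑ j, u x t j * pd j (fun y => u y t i ^ 2) x) * η x ^ 2) := fun x => by
    simp only [pd_sq (hu.sm ht i), Fin.sum_univ_three]
    ring
  simp only [e]
  rw [integral_const_mul, hu.flux ht (test_sq hη) ((hu.sm ht i).pow 2)]
  have k : ∀ j, ∫ x, u x t j * u x t i ^ 2 * pd j (fun y => η y ^ 2) x
      ≤ bb u r t * (2 * lam * (E0 + 1)) := fun j => by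
    have tg : Test fun x => pd j (fun y => η y ^ 2) x * u x t i :=
      ((test_sq hη).pd j).mul (hu.sm ht i)
    have h1 := ball_cs (r := r) ((hu.sm ht j).mul (hu.sm ht i)).continuous tg fun x hx => by
      rw [pd_sq hη.1, h0 x hx, mul_zero, zero_mul, zero_mul]
    have h2 := sqrt_en hu ht tg.1.continuous (L := 2 * lam) (by positivity) fun x => by
      rw [mul_pow, mul_pow]
      exact mul_le_mul ((pd_sq_le hη h01 hd j x).trans_eq (by ring)) (sq_le _ i) (sq_nonneg _)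
        (by positivity)
    refine le_trans (le_of_eq ?_) ((abs_le.1 (h1.trans (mul_le_mul (prod_bb hu ht r i j) h2
      (Real.sqrt_nonneg _) (Real.sqrt_nonneg _)))).2)
    congr 1
    funext x
    ring
  simp only [Fin.sum_univ_three]
  linarith [k 0, k 1, k 2]

theorem loc_press : ∃ K : ℝ, 0 ≤ K ∧ ∀ {ν T E0 t lam r d : ℝ} {u : R3 → ℝ → R3} {p : R3 → ℝ → ℝ}
    {η : R3 → ℝ}, WS ν T E0 u p → 0 < T → t ∈ Icc 0 T → Test η → (∀ x, 0 ≤ η x ∧ η x ≤ 1) →
    0 ≤ lam → (∀ x, ‖fderiv ℝ η x‖ ≤ lam) → 0 < r → 0 < d → (∀ x, r ≤ ‖x‖ → η x = 0) →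
    -∑ i, ∫ x, pd i (fun y => p y t) x * (η x ^ 2 * u x t i)
      ≤ 36 * (bb u (r + d) t * (lam * (E0 + 1)))
        + K * (lam * (r ^ (3 / 2 : ℝ) / d ^ 3)) * ((E0 + Real.pi * 4 / 3) * E0) := by
  obtain ⟨K, hK, hb⟩ := exists_hess_bound
  refine ⟨36 * K, by positivity, ?_⟩
  intro ν T E0 t lam r d u p η hu hT ht hη h01 hl hd hr hd0 h0
  have hΦ : ∀ i, Test fun x => η x ^ 2 * u x t i := fun i => (test_sq hη).mul (hu.sm ht i)
  rw [hu.pressure hT hΦ ht]
  have hD := Test.sum Finset.univ fun k _ => (hΦ k).pd k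
  have e : ∀ y, ∑ k, pd k (fun x => η x ^ 2 * u x t k) y
      = ∑ k, pd k (fun x => η x ^ 2) y * u y t k := fun y => by
    rw [Finset.sum_congr rfl fun k _ => pd_mul ((test_sq hη).1.differentiable (by simp) y)
      ((hu.sm ht k).differentiable (by simp) y) k, Finset.sum_add_distrib, ← Finset.mul_sum,
      hu.dv y t ht, mul_zero, add_zero]
  have h1 : ∀ y, (∑ k, pd k (fun x => η x ^ 2 * u x t k) y) ^ 2 ≤ (4 * lam) ^ 2 * ‖u y t‖ ^ 2 :=
    fun y => by
      rw [e]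
      have h2 := Finset.sum_mul_sq_le_sq_mul_sq Finset.univ
        (fun k => pd k (fun x => η x ^ 2) y) fun k => u y t k
      rw [← norm_sq_eq_sum] at h2
      refine h2.trans (mul_le_mul_of_nonneg_right ?_ (sq_nonneg _))
      have h3 := fun k => pd_sq_le hη h01 hd k y
      rw [Fin.sum_univ_three]
      nlinarith [h3 0, h3 1, h3 2, sq_nonneg lam]
  have h2 : ∀ y, r ≤ ‖y‖ → ∑ k, pd k (fun x => η x ^ 2 * u x t k) y = 0 := fun y hy => by
    simp only [e, pd_sq hη.1, h0 y hy, mul_zero, zero_mul, Finset.sum_const_zero]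
  have hE := hu.nonneg ht
  have h3 := sqrt_en hu ht hD.1.continuous (by positivity) h1
  have h4 := estp_l1 hr (by positivity) (hu.ie t ht) (fun x => sq_nonneg _) (hu.le t ht) h1 h2
  have key : ∀ {D : R3 → ℝ}, Test D → (∀ y, r ≤ ‖y‖ → D y = 0) →
      √(∫ x, D x ^ 2) ≤ 4 * lam * (E0 + 1) →
      ∫ x, |D x| ≤ 4 * lam * (r ^ (3 / 2 : ℝ) * (E0 + Real.pi * 4 / 3)) → ∀ i j,
      -∫ x, u x t j * u x t i * pd i (pd j (nw D)) x ≤ bb u (r + d) t * (4 * lam * (E0 + 1))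
        + K / d ^ 3 * (4 * lam * (r ^ (3 / 2 : ℝ) * (E0 + Real.pi * 4 / 3))) * E0 := by
    intro D hD h2 h3 h4 i j
    have i1 : Integrable fun x => u x t j * u x t i := (hu.mem ht j).integrable_mul (hu.mem ht i)
    have h5 : ∫ x, |u x t j * u x t i| ≤ E0 :=
      (integral_mono i1.abs (hu.ie t ht) fun x => (prod_le _ i j).trans_eq (one_mul _)).trans
        (hu.le t ht)
    refine (neg_le_abs _).trans ((hb _ D r d hD ((hu.sm ht j).mul (hu.sm ht i)).continuous i1 hd0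
      h2 i j).trans (add_le_add (mul_le_mul (prod_bb hu ht _ i j) h3 (Real.sqrt_nonneg _)
        (Real.sqrt_nonneg _)) (mul_le_mul (mul_le_mul_of_nonneg_left h4 (by positivity)) h5
          (integral_nonneg fun x => abs_nonneg _) (by positivity))))
  simp only [← Finset.sum_neg_distrib]
  refine (Finset.sum_le_sum fun i _ => Finset.sum_le_sum fun j _ =>
    key hD h2 h3 h4 i j).trans_eq ?_
  simp only [Fin.sum_univ_three]
  ring

theorem loc_rate : ∃ C : ℝ, 0 ≤ C ∧ ∀ {ν T E0 t lam r d : ℝ} {u : R3 → ℝ → R3} {p : R3 → ℝ → ℝ}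
    {η : R3 → ℝ}, 0 ≤ ν → WS ν T E0 u p → 0 < T → t ∈ Icc 0 T → Test η →
    (∀ x, 0 ≤ η x ∧ η x ≤ 1) → 0 ≤ lam → (∀ x, ‖fderiv ℝ η x‖ ≤ lam) → 0 < r → 0 < d →
    (∀ x, r ≤ ‖x‖ → η x = 0) →
    ∑ i, ∫ x, derivWithin (fun s => u x s i) (Icc 0 T) t * (η x ^ 2 * u x t i)
      ≤ -(ν * ∑ i, ∫ x, Lam (fun y => η y * u y t i) x * (η x * u x t i))
        + 45 * (bb u (r + d) t * (lam * (E0 + 1))) + C * (ν * (lam ^ 2 + 1) * E0
          + lam * (r ^ (3 / 2 : ℝ) / d ^ 3) * ((E0 + Real.pi * 4 / 3) * E0)) := by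
  obtain ⟨C, hC, hloc⟩ := H.Q.lam_loc
  obtain ⟨K, hK, hp⟩ := loc_press
  refine ⟨3 * C + K, by positivity, ?_⟩
  intro ν T E0 t lam r d u p η hν hu hT ht hη h01 hl hd hr hd0 h0
  have hΦ : ∀ i, Test fun x => η x ^ 2 * u x t i := fun i => (test_sq hη).mul (hu.sm ht i)
  have hE := hu.nonneg ht
  have k1 := hp hu hT ht hη h01 hl hd hr hd0 h0
  have k2 := loc_trans hu ht hη h01 hl hd (r := r + d) fun x hx => h0 x (by linarith)
  have k3 : ∀ i, -ν * ∫ x, u x t i * Lam (fun x => η x ^ 2 * u x t i) x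
      ≤ -(ν * ∫ x, Lam (fun y => η y * u y t i) x * (η x * u x t i))
        + C * (ν * (lam ^ 2 + 1) * E0) := fun i => by
    have h1 := mul_le_mul_of_nonneg_left (hloc _ η lam (hu.sm ht i) (hu.mem ht i) hη h01 hd) hν
    have h2 := mul_le_mul_of_nonneg_left (sq_one hu ht i)
      (by positivity : 0 ≤ ν * (C * (lam ^ 2 + 1)))
    linarith
  have k4 : 0 ≤ C * (lam * (r ^ (3 / 2 : ℝ) / d ^ 3) * ((E0 + Real.pi * 4 / 3) * E0)) := by
    positivity
  have k5 : 0 ≤ K * (ν * (lam ^ 2 + 1) * E0) := by positivity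
  simp only [fun i => hu.one hT ht (hΦ i) i]
  rw [Fin.sum_univ_three] at k1
  rw [Fin.sum_univ_three, Fin.sum_univ_three]
  linarith [k3 0, k3 1, k3 2, k2 0, k2 1, k2 2]

theorem loc_sob (hs : 3 / 2 < se) : ∃ (K : ℝ) (N : ℕ), 0 ≤ K ∧ ∀ {ν T E0 t r ε : ℝ}
    {u : R3 → ℝ → R3} {p : R3 → ℝ → ℝ} {η : R3 → ℝ}, WS ν T E0 u p → t ∈ Icc 0 T → Test η →
    (∀ x, 0 ≤ η x ∧ η x ≤ 1) → (∀ x, ‖x‖ ≤ r → η x = 1) → 0 < ε → ε ≤ 1 →
    bb u r t ≤ K * (ε * (∑ i, ∫ x, Lam (fun y => η y * u y t i) x * (η x * u x t i))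
      + 3 * (ε⁻¹ ^ N * E0)) := by
  obtain ⟨K, hK, hsob⟩ := H.Q.sob_lam
  obtain ⟨N, hN⟩ := H.Q.pow_sub hs
  refine ⟨K, N, hK, ?_⟩
  intro ν T E0 t r ε u p η hu ht hη h01 h1 e0 e1
  have tg : ∀ i, Test fun x => η x * u x t i := fun i => hη.mul (hu.sm ht i)
  have h2 := hsob (fun i x => η x * u x t i) fun i => hinf (tg i)
  have k : ∀ i, ∫ x, H.Lam (fun y => η y * u y t i) x * (η x * u x t i)
      ≤ ε * (∫ x, Lam (fun y => η y * u y t i) x * (η x * u x t i)) + ε⁻¹ ^ N * E0 := fun i => by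
    refine (H.Q.lam_ge (hN ε e0 e1) (hinf (tg i))).trans (add_le_add le_rfl
      (mul_le_mul_of_nonneg_left (le_trans (mem_of_le (tg i).1.continuous
        (hu.mem ht i).integrable_sq fun x => ?_).2 (sq_one hu ht i)) (by positivity)))
    rw [mul_pow]
    exact mul_le_of_le_one_left (sq_nonneg _) (pow_le_one₀ (h01 x).1 (h01 x).2)
  have tS : Test fun x => ∑ i, η x * u x t i * (η x * u x t i) :=
    Test.sum _ fun i _ => (tg i).mul (tg i).1
  have i4 : Integrable fun x => (∑ i, (η x * u x t i) ^ 2) ^ 2 := by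
    simpa only [sq] using tS.integrable_mul tS.1.continuous
  refine le_trans (Real.sqrt_le_sqrt ?_) (h2.trans (mul_le_mul_of_nonneg_left ?_ hK))
  · rw [setIntegral_congr_fun (g := fun x => (∑ i, (η x * u x t i) ^ 2) ^ 2) measurableSet_ball
      fun x hx => by
        simp only [h1 x (mem_ball_zero_iff.1 hx).le, one_mul, ← norm_sq_eq_sum]
        ring]
    exact setIntegral_le_integral i4 (ae_of_all _ fun x => sq_nonneg _)
  · simp only [Fin.sum_univ_three]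
    linarith [k 0, k 1, k 2]

theorem loc_time (hu : WS ν T E0 u p) (hT : 0 < T) (hη : Test η) (h01 : ∀ x, 0 ≤ η x ∧ η x ≤ 1)
    {c Q : ℝ} (hc : 0 ≤ c) {g : ℝ → ℝ} (hg : ContinuousOn g (Icc 0 T))
    (h : ∀ t ∈ Icc 0 T, g t ≤ Q
      - c * ∑ i, ∫ x, derivWithin (fun s => u x s i) (Icc 0 T) t * (η x ^ 2 * u x t i)) :
    ∫ t in (0 : ℝ)..T, g t ≤ T * Q + c * (3 / 2 * E0) := by
  have hI := uniqueDiffOn_Icc hT
  have jw : ∀ i, JS (Icc 0 T) fun x t => u x t i ^ 2 := fun i => by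
    simp only [sq]
    exact (hu.ju i).mul (hu.ju i)
  set D : ℝ → ℝ := fun t => ∑ i, ∫ x,
    derivWithin (fun s => u x s i ^ 2) (Icc 0 T) t * η x ^ 2 with hD
  have d1 : ∀ t ∈ Icc 0 T, HasDerivWithinAt (fun s => ∑ i, ∫ x, u x s i ^ 2 * η x ^ 2)
      (D t) (Icc 0 T) t := fun t ht => HasDerivWithinAt.fun_sum fun i _ =>
    JS.hasDerivWithinAt_integral hT (jw i) (test_sq hη) ht
  have d2 : ContinuousOn D (Icc 0 T) := continuousOn_finsetSum _ fun i _ =>
    ((jw i).time hI).continuousOn_integral (test_sq hη)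
  have i2 := d2.intervalIntegrable_of_Icc (μ := volume) hT.le
  have d3 := intervalIntegral.integral_eq_sub_of_hasDerivAt_of_le hT.le
    (fun t ht => (d1 t ht).continuousWithinAt)
    (fun t ht => (d1 t (Ioo_subset_Icc_self ht)).hasDerivAt (Icc_mem_nhds ht.1 ht.2)) i2
  have d4 := intervalIntegral.integral_mono_on hT.le (hg.intervalIntegrable_of_Icc hT.le)
    ((intervalIntegrable_const (c := Q)).sub (i2.const_mul (c / 2))) fun t ht => by
      have h3 : D t = 2 * ∑ i,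
          ∫ x, derivWithin (fun s => u x s i) (Icc 0 T) t * (η x ^ 2 * u x t i) := by
        rw [hD, Finset.mul_sum]
        refine Finset.sum_congr rfl fun i _ => ?_
        rw [← integral_const_mul]
        congr 1
        funext x
        rw [(((hu.ju i).hasDerivWithinAt x ht).fun_pow 2).derivWithin (hI t ht)]
        push_cast
        ring
      rw [h3]
      linarith [h t ht]
  rw [intervalIntegral.integral_sub intervalIntegrable_const (i2.const_mul _),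
    intervalIntegral.integral_const_mul, d3, intervalIntegral.integral_const, smul_eq_mul,
    sub_zero] at d4
  have m0 : (0 : ℝ) ∈ Icc 0 T := ⟨le_rfl, hT.le⟩
  have k1 : ∀ i, ∫ x, u x 0 i ^ 2 * η x ^ 2 ≤ E0 := fun i =>
    (integral_mono ((test_sq hη).integrable_mul ((hu.sm m0 i).continuous.pow 2))
      (hu.mem m0 i).integrable_sq fun x => mul_le_of_le_one_right (sq_nonneg _)
        (pow_le_one₀ (h01 x).1 (h01 x).2)).trans (sq_one hu m0 i)
  have k2 : 0 ≤ ∑ i, ∫ x, u x T i ^ 2 * η x ^ 2 :=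
    Finset.sum_nonneg fun i _ => integral_nonneg fun x => by positivity
  have k3 : ∑ i, ∫ x, u x 0 i ^ 2 * η x ^ 2 ≤ 3 * E0 := by
    rw [Fin.sum_univ_three]
    linarith [k1 0, k1 1, k1 2]
  nlinarith [mul_le_mul_of_nonneg_left k3 hc, mul_nonneg hc k2]

theorem loc_hole (hs : 3 / 2 < se) (hν : 0 < ν) (hu : WS ν T E0 u p) (hT : 0 < T) :
    ∃ (B : ℝ) (N : ℕ), 0 ≤ B ∧ ∀ R r ρ : ℝ, 1 ≤ R → R ≤ r → r < ρ → ρ ≤ 2 * R →
      ∫ t in (0 : ℝ)..T, bb u r t
        ≤ (∫ t in (0 : ℝ)..T, bb u ρ t) / 2 + B * (R / (ρ - r)) ^ N := by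
  obtain ⟨C, hC, hr⟩ := loc_rate
  obtain ⟨K, N, hK, hsob⟩ := loc_sob hs
  obtain ⟨A, hA, hcut⟩ := exists_cut
  have hE := hu.nonneg ⟨le_rfl, hT.le⟩
  obtain ⟨e, e0, e1, e2⟩ : ∃ e : ℝ, 0 < e ∧ e ≤ 1 ∧ 180 * K * A * (E0 + 1) * e ≤ ν := by
    have p : 0 ≤ 180 * K * A * (E0 + 1) := by positivity
    generalize 180 * K * A * (E0 + 1) = z at p
    refine ⟨ν / (ν + z), by positivity, (div_le_one (by positivity)).2 (by linarith), ?_⟩
    rw [← mul_div_assoc, div_le_iff₀ (by positivity)]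
    nlinarith
  obtain ⟨Z, hZ⟩ : ∃ Z, Z = ν * (16 * A ^ 2 + 1) * E0
    + 128 * A * ((E0 + Real.pi * 4 / 3) * E0) := ⟨_, rfl⟩
  have Z0 : 0 ≤ Z := by rw [hZ]; positivity
  refine ⟨(T * (K * C * Z + 3 * ν * K * (e⁻¹ ^ N * E0)) + K * (3 / 2 * E0)) / ν, N + 4,
    by positivity, fun R r ρ hR h1 h2 h3 => ?_⟩
  obtain ⟨d, hd, rfl⟩ : ∃ d, 0 < d ∧ ρ = r + d + d := ⟨(ρ - r) / 2, by linarith, by ring⟩
  obtain ⟨η, hη, h01, g1, g0, gd⟩ := hcut r d hd (by linarith)
  obtain ⟨W, hW⟩ : ∃ W, W = R / (r + d + d - r) := ⟨_, rfl⟩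
  have w0 : W * (2 * d) = R := by
    rw [hW, show r + d + d - r = 2 * d by ring, div_mul_cancel₀ _ (by positivity)]
  have w1 : 1 ≤ W := by
    rw [hW, one_le_div (by linarith)]
    linarith
  rw [← hW]
  obtain ⟨-, r2, -, -, r5⟩ := est_radii hR hd (by linarith) (by linarith : 0 ≤ r + d)
    (by linarith) hA
  have y1 : 1 ≤ W ^ (N + 4) := one_le_pow₀ w1
  have y2 : W ^ N ≤ W ^ (N + 4) := pow_le_pow_right₀ w1 (by omega)
  have y3 : R ^ 3 / d ^ 4 ≤ 16 * W ^ (N + 4) := by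
    refine le_trans ?_ (mul_le_mul_of_nonneg_left (pow_le_pow_right₀ w1 (by omega : 4 ≤ N + 4))
      (by norm_num))
    rw [div_le_iff₀ (by positivity)]
    exact (pow_le_pow_right₀ hR (by norm_num : 3 ≤ 4)).trans_eq (by rw [← w0]; ring)
  generalize W ^ (N + 4) = Y at y1 y2 y3 ⊢
  have q0 : 0 < e / W := by positivity
  have q1 : e / W ≤ 1 := (div_le_one (by positivity)).2 (e1.trans w1)
  have q2 : e / W * (A / d) ≤ 2 * A * e := by
    rw [div_mul_div_comm, div_le_iff₀ (by positivity)]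
    linarith [mul_le_mul_of_nonneg_left (hR.trans_eq w0.symm) (mul_nonneg hA e0.le)]
  have q3 : (e / W)⁻¹ ^ N ≤ e⁻¹ ^ N * Y := by
    rw [inv_div, div_eq_inv_mul, mul_pow]
    exact mul_le_mul_of_nonneg_left y2 (by positivity)
  have q4 : ν * ((A / d) ^ 2 + 1) * E0 + A / d * ((r + d) ^ (3 / 2 : ℝ) / d ^ 3)
      * ((E0 + Real.pi * 4 / 3) * E0) ≤ Z * Y := by
    have a1 := r2.trans (mul_le_mul_of_nonneg_left y3 (sq_nonneg A))
    have a2 := r5.trans (mul_le_mul_of_nonneg_left y3 (by positivity))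
    have a3 := mul_le_mul_of_nonneg_left (add_le_add a1 y1) (mul_nonneg hν.le hE)
    have a4 := mul_le_mul_of_nonneg_right a2 (by positivity : 0 ≤ (E0 + Real.pi * 4 / 3) * E0)
    rw [hZ]
    linarith
  have key := loc_time hu hT hη h01 (c := K * (e / W)) (by positivity)
    (g := fun t => ν * bb u r t - ν / 2 * bb u (r + d + d) t)
    (Q := (K * C * Z + 3 * ν * K * (e⁻¹ ^ N * E0)) * Y)
    (((bb_cont hu _).const_smul ν).sub ((bb_cont hu _).const_smul (ν / 2))) fun t ht => by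
      have a1 := mul_le_mul_of_nonneg_left (hr hν.le hu hT ht hη h01 (by positivity) gd
        (by linarith) hd g0) (by positivity : 0 ≤ K * (e / W))
      have a2 := mul_le_mul_of_nonneg_left (hsob hu ht hη h01 g1 q0 q1) hν.le
      have a3 : 45 * K * (E0 + 1) * (e / W * (A / d)) ≤ ν / 2 := by
        linarith [mul_le_mul_of_nonneg_left q2 (by positivity : 0 ≤ 45 * K * (E0 + 1))]
      have b0 : 0 ≤ bb u (r + d + d) t := Real.sqrt_nonneg _
      have b1 : 0 < r + d := by linarith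
      have a4 := mul_le_mul_of_nonneg_right a3 b0
      have a5 := mul_le_mul_of_nonneg_left (mul_le_mul q1 q4 (by positivity) zero_le_one)
        (mul_nonneg hK hC)
      have a6 := mul_le_mul_of_nonneg_left q3 (by positivity : 0 ≤ 3 * ν * K * E0)
      simp only
      linarith
  have i1 := fun s => (bb_cont hu s).intervalIntegrable_of_Icc (μ := volume) hT.le
  rw [intervalIntegral.integral_sub ((i1 _).const_mul _) ((i1 _).const_mul _),
    intervalIntegral.integral_const_mul, intervalIntegral.integral_const_mul] at key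
  have a7 := mul_le_mul_of_nonneg_left (q1.trans y1) (by positivity : 0 ≤ K * (3 / 2 * E0))
  refine le_of_mul_le_mul_left ?_ hν
  rw [mul_add, ← mul_assoc, mul_div_cancel₀ _ hν.ne']
  linarith

theorem WS.four (hs : 3 / 2 < se) (hν : 0 < ν) (hu : WS ν T E0 u p) (hT : 0 < T) :
    ∫⁻ t in Icc 0 T, (∫⁻ x, ‖u x t‖ₑ ^ 4) ^ (1 / 2 : ℝ) < ⊤ := by
  obtain ⟨B, N, hB, hh⟩ := loc_hole hs hν hu hT
  obtain ⟨K, hK⟩ := H.Q.hole N
  have i1 := fun s => (bb_cont hu s).intervalIntegrable_of_Icc (μ := volume) hT.le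
  have h1 : ∀ R, 1 ≤ R → ∫ t in (0 : ℝ)..T, bb u R t ≤ K * B := fun R hR =>
    hK (fun r => ∫ t in (0 : ℝ)..T, bb u r t) R B (by linarith) hB
      ⟨_, fun r hr => intervalIntegral.integral_mono_on hT.le (i1 _) (i1 _) fun t ht =>
        bb_mono hu ht hr.2⟩ fun r ρ => hh R r ρ hR
  have e : ∀ r, ∀ t ∈ Icc 0 T, (∫⁻ x in ball 0 r, ‖u x t‖ₑ ^ 4) ^ (1 / 2 : ℝ)
      = ENNReal.ofReal (bb u r t) := fun r t ht => by
    have i4 : IntegrableOn (fun x => ‖u x t‖ ^ 4) (ball 0 r) :=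
      estp_ball ((hu.cont ht).norm.pow 4) r
    rw [bb, Real.sqrt_eq_rpow, ← ENNReal.ofReal_rpow_of_nonneg (integral_nonneg fun x => by
      positivity) (by norm_num), ofReal_integral_eq_lintegral_ofReal i4
      (ae_of_all _ fun x => by positivity)]
    simp only [ENNReal.ofReal_pow (norm_nonneg _), ofReal_norm]
  have mo : Monotone fun n : ℕ => ball (0 : R3) ((n : ℝ) + 1) := fun n m h =>
    ball_subset_ball (by exact_mod_cast Nat.succ_le_succ h)
  have h2 := lintegral_tendsto_of_tendsto_of_monotone (μ := volume.restrict (Icc 0 T))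
    (f := fun n t => ENNReal.ofReal (bb u ((n : ℝ) + 1) t))
    (F := fun t => (∫⁻ x, ‖u x t‖ₑ ^ 4) ^ (1 / 2 : ℝ))
    (fun n => ((bb_cont hu _).aemeasurable measurableSet_Icc).ennreal_ofReal)
    (ae_restrict_of_forall_mem measurableSet_Icc fun t ht n m h => ENNReal.ofReal_le_ofReal
      (bb_mono hu ht (by exact_mod_cast Nat.succ_le_succ h)))
    (ae_restrict_of_forall_mem measurableSet_Icc fun t ht => by
      simp only [← e _ t ht]
      refine (ENNReal.continuous_rpow_const.tendsto _).comp ?_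
      rw [← setLIntegral_univ, ← iUnion_ball_nat_succ (0 : R3),
        setLIntegral_iUnion_of_directed _ mo.directed_le]
      exact tendsto_atTop_iSup fun n m h => lintegral_mono_set (mo h))
  refine (le_of_tendsto' h2 fun n => ?_).trans_lt (ENNReal.ofReal_lt_top (r := K * B))
  rw [← ofReal_integral_eq_lintegral_ofReal (bb_cont hu _).integrableOn_Icc
    (ae_of_all _ fun t => Real.sqrt_nonneg _), integral_Icc_eq_integral_Ioc,
    ← intervalIntegral.integral_of_le hT.le]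
  exact ENNReal.ofReal_le_ofReal (h1 _ (le_add_of_nonneg_left n.cast_nonneg))

end Pool.Agent.Work.MP_6bf1e5_an.Ens.Wide.Q
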