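import Pool.Agent.Work.MP_6bf1e5_an.HP.Weak

/-!
Uniqueness in the presence of a solution with bounded gradient: port of WideEn and WideUq.
-/

open scoped ContDiff ENNReal FourierTransform Topology
open Set MeasureTheory Filter Metric

namespace Pool.Agent.Work.MP_6bf1e5_an.Ens.Wide.Q

open H (Hinf)
open H.Q (Par Lam se_nn)

variable [P : Par]
  {ν T E0 M t lam : ℝ} {u v : R3 → ℝ → R3} {p q : R3 → ℝ → ℝ} {η : R3 → ℝ}

theorem WS.nonneg (hu : WS ν T E0 u p) (ht : t ∈ Icc 0 T) : 0 ≤ E0 :=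
  (integral_nonneg fun _ => sq_nonneg _).trans (hu.le t ht)

theorem dif_mem (hu : WS ν T E0 u p) (hv : WS ν T E0 v q) (ht : t ∈ Icc 0 T) (i : Fin 3) :
    MemLp (fun x => u x t i - v x t i) 2 volume := (hu.mem ht i).sub (hv.mem ht i)

theorem en_le (hu : WS ν T E0 u p) (hv : WS ν T E0 v q) (ht : t ∈ Icc 0 T) :
    en u v t ≤ 4 * E0 := by
  have hi := fun i => (dif_mem hu hv ht i).integrable_sq
  rw [en, ← integral_finsetSum _ fun i _ => hi i]
  have h1 : _ ≤ ∫ x, (2 * ‖u x t‖ ^ 2 + 2 * ‖v x t‖ ^ 2) :=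
    integral_mono (integrable_finsetSum Finset.univ fun i _ => hi i)
      (((hu.ie t ht).const_mul 2).add ((hv.ie t ht).const_mul 2)) fun x => by
        simp only [norm_sq_eq_sum, Fin.sum_univ_three]
        nlinarith [sq_nonneg (u x t 0 + v x t 0), sq_nonneg (u x t 1 + v x t 1),
          sq_nonneg (u x t 2 + v x t 2)]
  rw [integral_add ((hu.ie t ht).const_mul 2) ((hv.ie t ht).const_mul 2), integral_const_mul,
    integral_const_mul] at h1
  linarith [hu.le t ht, hv.le t ht]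

/-- The quadratic terms are square integrable. -/
theorem quad (hu : WS ν T E0 u p) (hv : WS ν T E0 v q) (ht : t ∈ Icc 0 T) (hM : 0 ≤ M) {β : ℝ}
    (hβ : 0 ≤ β) (i4 : Integrable fun x => ‖u x t‖ ^ 4) (h4 : ∫ x, ‖u x t‖ ^ 4 ≤ β ^ 2)
    {F : R3 → ℝ} (hc : Continuous F)
    (hF : ∀ x, F x ^ 2 ≤ 2 * ‖u x t‖ ^ 4 + 2 * M ^ 2 * (‖u x t‖ ^ 2 + ‖v x t‖ ^ 2)) :
    MemLp F 2 volume ∧ ∫ x, F x ^ 2 ≤ (2 * β + 2 * M * (E0 + 1)) ^ 2 := by
  have i2 := ((hu.ie t ht).fun_add (hv.ie t ht)).const_mul (2 * M ^ 2)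
  obtain ⟨h1, h2⟩ := mem_of_le hc ((i4.const_mul 2).fun_add i2) hF
  refine ⟨h1, h2.trans ?_⟩
  rw [integral_add (i4.const_mul 2) i2, integral_const_mul, integral_const_mul,
    integral_add (hu.ie t ht) (hv.ie t ht)]
  have h0 := hu.nonneg ht
  have h3 := mul_le_mul_of_nonneg_left (add_le_add (hu.le t ht) (hv.le t ht))
    (by positivity : 0 ≤ 2 * M ^ 2)
  have h5 : 0 ≤ β * M * (E0 + 1) := by positivity
  have h6 : 0 ≤ M ^ 2 * (E0 ^ 2 + E0 + 1) := by positivity
  nlinarith [sq_nonneg β]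

theorem press_term (hu : WS ν T E0 u p) (hv : WS ν T E0 v q) (hT : 0 < T) (ht : t ∈ Icc 0 T)
    (hη : Test η) (h01 : ∀ x, 0 ≤ η x ∧ η x ≤ 1) (hl : 0 ≤ lam) (hd : ∀ x, ‖fderiv ℝ η x‖ ≤ lam)
    {a : ℝ} (ha : 0 ≤ a) (hF : ∀ i j, MemLp (fun x => u x t j * u x t i - v x t j * v x t i) 2 volume
      ∧ ∫ x, (u x t j * u x t i - v x t j * v x t i) ^ 2 ≤ a ^ 2) :
    (∑ i, ∫ x, pd i (fun y => q y t) x * (η x ^ 2 * (u x t i - v x t i)))
      - ∑ i, ∫ x, pd i (fun y => p y t) x * (η x ^ 2 * (u x t i - v x t i))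
      ≤ 63 * (a * (lam * (E0 + 1))) := by
  have hw : ∀ i, ContDiff ℝ ∞ fun x => u x t i - v x t i := fun i => (hu.sm ht i).sub (hv.sm ht i)
  have hΦ : ∀ i, Test fun x => η x ^ 2 * (u x t i - v x t i) := fun i => (test_sq hη).mul (hw i)
  rw [hu.pressure hT hΦ ht, hv.pressure hT hΦ ht]
  have hD := Test.sum Finset.univ fun k _ => (hΦ k).pd k
  have e : ∀ y, ∑ k, pd k (fun x => η x ^ 2 * (u x t k - v x t k)) y
      = ∑ k, pd k (fun x => η x ^ 2) y * (u y t k - v y t k) := fun y => by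
    rw [Finset.sum_congr rfl fun k _ => pd_mul ((test_sq hη).1.differentiable (by simp) y)
      ((hw k).differentiable (by simp) y) k, Finset.sum_add_distrib, ← Finset.mul_sum,
      Finset.sum_congr rfl fun k _ => pd_sub ((hu.sm ht k).differentiable (by simp) y)
        ((hv.sm ht k).differentiable (by simp) y) k, Finset.sum_sub_distrib, hu.dv y t ht,
      hv.dv y t ht, sub_zero, mul_zero, add_zero]
  have hi := fun i => (dif_mem hu hv ht i).integrable_sq
  have h1 := (mem_of_le hD.1.continuous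
    ((integrable_finsetSum Finset.univ fun i _ => hi i).const_mul (12 * lam ^ 2)) fun y => by
      rw [e]
      have h2 := fun k => mul_le_mul_of_nonneg_right (pd_sq_le hη h01 hd k y)
        (sq_nonneg (u y t k - v y t k))
      simp only [Fin.sum_univ_three]
      have := h2 0
      have := h2 1
      have := h2 2
      generalize pd 0 (fun x => η x ^ 2) y = a0 at *
      generalize pd 1 (fun x => η x ^ 2) y = a1 at *
      generalize pd 2 (fun x => η x ^ 2) y = a2 at *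
      generalize u y t 0 - v y t 0 = b0 at *
      generalize u y t 1 - v y t 1 = b1 at *
      generalize u y t 2 - v y t 2 = b2 at *
      nlinarith [sq_nonneg (a0 * b0 - a1 * b1), sq_nonneg (a0 * b0 - a2 * b2),
        sq_nonneg (a1 * b1 - a2 * b2)]).2
  rw [integral_const_mul, integral_finsetSum _ fun i _ => hi i] at h1
  have h0 := hu.nonneg ht
  have h2 : 12 * lam ^ 2 * en u v t ≤ (7 * (lam * (E0 + 1))) ^ 2 := by
    have h3 := mul_le_mul_of_nonneg_left (en_le hu hv ht) (by positivity : 0 ≤ 12 * lam ^ 2)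
    have h4 : 0 ≤ lam ^ 2 * (49 * E0 ^ 2 + 50 * E0 + 49) := by positivity
    nlinarith
  have key : ∀ {D : R3 → ℝ}, Test D → ∫ y, D y ^ 2 ≤ (7 * (lam * (E0 + 1))) ^ 2 → ∀ i j,
      (∫ x, v x t j * v x t i * pd i (pd j (nw D)) x)
        - ∫ x, u x t j * u x t i * pd i (pd j (nw D)) x ≤ a * (7 * (lam * (E0 + 1))) := by
    intro D hD hD2 i j
    obtain ⟨h3, h4⟩ := integral_hess_nw_le hD i j
    have hs := contDiff_pd (contDiff_pd (contDiff_nw hD) j) i
    have h5 := (memLp_two_iff_integrable_sq hs.continuous.aestronglyMeasurable).2 h3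
    have h6 := pair_le (hF i j).1 h5 ha (by positivity) (hF i j).2 (h4.trans hD2)
    obtain ⟨C, hC⟩ : ∃ C, ∀ x, ‖pd i (pd j (nw D)) x‖ ≤ C := by
      obtain ⟨C, hC⟩ := (nice_pd_nw hD j).bdd 1
      refine ⟨C, fun x => ?_⟩
      rw [← norm_iteratedFDeriv_zero (𝕜 := ℝ)]
      exact (norm_iteratedFDeriv_pd_le (nice_pd_nw hD j).smooth i 0 x).trans (hC x)
    have i1 : Integrable fun x => u x t j * u x t i := (hu.mem ht j).integrable_mul (hu.mem ht i)
    have i2 : Integrable fun x => v x t j * v x t i := (hv.mem ht j).integrable_mul (hv.mem ht i)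
    simp only [sub_mul] at h6
    rw [integral_sub (i1.mul_bdd hs.continuous.aestronglyMeasurable (Eventually.of_forall hC))
      (i2.mul_bdd hs.continuous.aestronglyMeasurable (Eventually.of_forall hC))] at h6
    linarith [(abs_le.1 h6).1]
  have h7 := key hD (h1.trans h2)
  simp only [← Finset.sum_sub_distrib]
  refine (Finset.sum_le_sum fun i _ => Finset.sum_le_sum fun j _ => h7 i j).trans_eq ?_
  simp only [Fin.sum_univ_three]
  ring

theorem trans_term (hu : WS ν T E0 u p) (hv : WS ν T E0 v q) (ht : t ∈ Icc 0 T)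
    (hη : Test η) (h01 : ∀ x, 0 ≤ η x ∧ η x ≤ 1) (hl : 0 ≤ lam) (hd : ∀ x, ‖fderiv ℝ η x‖ ≤ lam)
    (hM : 0 ≤ M) (hb : ∀ x i j, |pd j (fun y => v y t i) x| ≤ M) {a : ℝ} (ha : 0 ≤ a)
    (hF : ∀ i j, MemLp (fun x => u x t j * (u x t i - v x t i)) 2 volume
      ∧ ∫ x, (u x t j * (u x t i - v x t i)) ^ 2 ≤ a ^ 2) (i : Fin 3) :
    (∫ x, (∑ j, v x t j * pd j (fun y => v y t i) x) * (η x ^ 2 * (u x t i - v x t i)))
      - ∫ x, (∑ j, u x t j * pd j (fun y => u y t i) x) * (η x ^ 2 * (u x t i - v x t i))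
      ≤ 3 * M * en u v t + 6 * (a * (lam * (E0 + 1))) := by
  have hw : ∀ i, ContDiff ℝ ∞ fun x => u x t i - v x t i := fun i => (hu.sm ht i).sub (hv.sm ht i)
  have hΦ : Test fun x => η x ^ 2 * (u x t i - v x t i) := (test_sq hη).mul (hw i)
  have h0 := hu.nonneg ht
  have c1 : ∀ {a : Fin 3 → R3 → ℝ} {b : R3 → ℝ}, (∀ j, ContDiff ℝ ∞ (a j)) → ContDiff ℝ ∞ b →
      Continuous fun x => ∑ j, a j x * pd j b x := fun ha hb =>
    continuous_finsetSum _ fun j _ => (ha j).continuous.mul (contDiff_pd hb j).continuous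
  have i1 := hΦ.integrable_mul (c1 (hv.sm ht) (hv.sm ht i))
  have i2 := hΦ.integrable_mul (c1 (hu.sm ht) (hu.sm ht i))
  have i3 := (test_sq hη).integrable_mul (c1 (hu.sm ht) ((hw i).pow 2))
  have i4 := hΦ.integrable_mul (c1 hw (hv.sm ht i))
  have e : ∀ x, (∑ j, v x t j * pd j (fun y => v y t i) x) * (η x ^ 2 * (u x t i - v x t i))
      - (∑ j, u x t j * pd j (fun y => u y t i) x) * (η x ^ 2 * (u x t i - v x t i))
      = -(1 / 2) * ((∑ j, u x t j * pd j (fun y => (u y t i - v y t i) ^ 2) x) * η x ^ 2)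
        - (∑ j, (u x t j - v x t j) * pd j (fun y => v y t i) x)
          * (η x ^ 2 * (u x t i - v x t i)) := fun x => by
    simp only [pd_sq (hw i), pd_sub ((hu.sm ht i).differentiable (by simp) x)
      ((hv.sm ht i).differentiable (by simp) x), Fin.sum_univ_three]
    ring
  rw [← integral_sub i1 i2]
  simp only [e]
  rw [integral_sub (i3.const_mul _) i4, integral_const_mul, hu.flux ht (test_sq hη) ((hw i).pow 2)]
  have hi := fun i => (dif_mem hu hv ht i).integrable_sq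
  have k1 : ∀ j, ∫ x, u x t j * (u x t i - v x t i) ^ 2 * pd j (fun y => η y ^ 2) x
      ≤ a * (4 * (lam * (E0 + 1))) := fun j => by
    obtain ⟨h1, h2⟩ := mem_of_le
      (F := fun x => (u x t i - v x t i) * pd j (fun y => η y ^ 2) x)
      ((hw i).continuous.mul (contDiff_pd (test_sq hη).1 j).continuous)
      ((hi i).const_mul (4 * lam ^ 2)) fun x => by
        rw [mul_pow, mul_comm]
        exact mul_le_mul_of_nonneg_right (pd_sq_le hη h01 hd j x) (sq_nonneg _)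
    rw [integral_const_mul] at h2
    have h3 := mul_le_mul_of_nonneg_left ((en_one i).trans (en_le hu hv ht))
      (by positivity : 0 ≤ 4 * lam ^ 2)
    have h4 : 0 ≤ lam ^ 2 * (E0 ^ 2 + E0 + 1) := by positivity
    have h5 := pair_le (hF i j).1 h1 ha (b := 4 * (lam * (E0 + 1))) (by positivity) (hF i j).2
      (h2.trans (by nlinarith))
    refine le_trans (le_of_eq ?_) (abs_le.1 h5).2
    congr 1
    funext x
    ring
  have k2 : -∫ x, (∑ j, (u x t j - v x t j) * pd j (fun y => v y t i) x)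
      * (η x ^ 2 * (u x t i - v x t i)) ≤ 3 * M * en u v t := by
    rw [← integral_neg, en, ← integral_finsetSum _ fun i _ => hi i, ← integral_const_mul]
    refine integral_mono i4.neg ((integrable_finsetSum _ fun i _ => hi i).const_mul _) fun x => ?_
    have h1 : ∀ j, (u x t j - v x t j) ^ 2 ≤ ∑ k, (u x t k - v x t k) ^ 2 := fun j =>
      Finset.single_le_sum (f := fun k => (u x t k - v x t k) ^ 2) (fun _ _ => sq_nonneg _)
        (Finset.mem_univ j)
    have h2 : ∀ j, -((u x t j - v x t j) * pd j (fun y => v y t i) x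
        * (η x ^ 2 * (u x t i - v x t i))) ≤ M * ∑ k, (u x t k - v x t k) ^ 2 := fun j => by
      refine (neg_le_abs _).trans ?_
      have h3 : |u x t j - v x t j| * |u x t i - v x t i| ≤ ∑ k, (u x t k - v x t k) ^ 2 := by
        nlinarith [h1 i, h1 j, sq_abs (u x t j - v x t j), sq_abs (u x t i - v x t i),
          sq_nonneg (|u x t j - v x t j| - |u x t i - v x t i|)]
      have h4 : |pd j (fun y => v y t i) x| * η x ^ 2 ≤ M * 1 :=
        mul_le_mul (hb x i j) (pow_le_one₀ (h01 x).1 (h01 x).2) (sq_nonneg _) hM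
      have h5 := mul_le_mul h4 h3 (by positivity) (by positivity)
      rw [abs_mul, abs_mul, abs_mul, abs_sq]
      linarith
    simp only [Finset.sum_mul]
    generalize ∑ k, (u x t k - v x t k) ^ 2 = s at h2
    simp only [Fin.sum_univ_three]
    linarith [h2 0, h2 1, h2 2]
  simp only [Fin.sum_univ_three] at k2 ⊢
  linarith [k1 0, k1 1, k1 2]

theorem rate : ∃ C : ℝ, 0 ≤ C ∧ ∀ {ν T E0 M t lam β : ℝ} {u v : R3 → ℝ → R3} {p q : R3 → ℝ → ℝ}
    {η : R3 → ℝ}, 0 ≤ ν → WS ν T E0 u p → WS ν T E0 v q → 0 < T → t ∈ Icc 0 T → Test η →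
    (∀ x, 0 ≤ η x ∧ η x ≤ 1) → 0 ≤ lam → lam ≤ 1 → (∀ x, ‖fderiv ℝ η x‖ ≤ lam) → 0 ≤ M →
    (∀ x i, |v x t i| ≤ M) → (∀ x i j, |pd j (fun y => v y t i) x| ≤ M) → 0 ≤ β →
    (Integrable fun x => ‖u x t‖ ^ 4) → ∫ x, ‖u x t‖ ^ 4 ≤ β ^ 2 →
    ∑ i, ((∫ x, derivWithin (fun s => u x s i) (Icc 0 T) t * (η x ^ 2 * (u x t i - v x t i)))
      - ∫ x, derivWithin (fun s => v x s i) (Icc 0 T) t * (η x ^ 2 * (u x t i - v x t i)))
      ≤ (ν * C + 9 * M) * en u v t + 81 * ((2 * β + 2 * M * (E0 + 1)) * (lam * (E0 + 1))) := by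
  obtain ⟨C, hC, hpos⟩ := H.Q.lam_pos
  refine ⟨C, hC, ?_⟩
  intro ν T E0 M t lam β u v p q η hν hu hv hT ht hη h01 hl hl1 hd hM hb0 hb1 hβ i4 h4
  have hw : ∀ i, ContDiff ℝ ∞ fun x => u x t i - v x t i := fun i => (hu.sm ht i).sub (hv.sm ht i)
  have hΦ : ∀ i, Test fun x => η x ^ 2 * (u x t i - v x t i) := fun i => (test_sq hη).mul (hw i)
  have h0 := hu.nonneg ht
  have ha : 0 ≤ 2 * β + 2 * M * (E0 + 1) := by positivity
  have hv2 : ∀ x i, v x t i ^ 2 ≤ M ^ 2 := fun x i => by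
    rw [← sq_abs]
    exact pow_le_pow_left₀ (abs_nonneg _) (hb0 x i) 2
  have hu4 : ∀ x i j, (u x t j * u x t i) ^ 2 ≤ ‖u x t‖ ^ 4 := fun x i j => by
    have := mul_le_mul (sq_le (u x t) j) (sq_le (u x t) i) (sq_nonneg _) (sq_nonneg _)
    nlinarith
  have k1 := press_term hu hv hT ht hη h01 hl hd ha fun i j =>
    quad hu hv ht hM hβ i4 h4 (((hu.sm ht j).mul (hu.sm ht i)).sub
      ((hv.sm ht j).mul (hv.sm ht i))).continuous fun x => by
      have h1 := mul_le_mul (hv2 x j) (sq_le (v x t) i) (sq_nonneg _) (sq_nonneg _)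
      have h2 := mul_nonneg (sq_nonneg M) (sq_nonneg ‖u x t‖)
      nlinarith [hu4 x i j, sq_nonneg (u x t j * u x t i + v x t j * v x t i)]
  have k2 := trans_term hu hv ht hη h01 hl hd hM hb1 ha fun i j =>
    quad hu hv ht hM hβ i4 h4 ((hu.sm ht j).mul (hw i)).continuous fun x => by
      have h1 := mul_le_mul (hv2 x i) (sq_le (u x t) j) (sq_nonneg _) (sq_nonneg _)
      have h2 := mul_nonneg (sq_nonneg M) (sq_nonneg ‖v x t‖)
      nlinarith [hu4 x i j, sq_nonneg (u x t j * u x t i + u x t j * v x t i)]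
  have k3 : ∀ i, -ν * (∫ x, u x t i * Lam (fun x => η x ^ 2 * (u x t i - v x t i)) x)
      - -ν * ∫ x, v x t i * Lam (fun x => η x ^ 2 * (u x t i - v x t i)) x
      ≤ ν * C * ∫ x, (u x t i - v x t i) ^ 2 := fun i => by
    have h1 := hpos _ η (hw i) (dif_mem hu hv ht i) hη h01 fun x => (hd x).trans hl1
    have i1 : Integrable fun x => u x t i * Lam (fun x => η x ^ 2 * (u x t i - v x t i)) x :=
      (hu.mem ht i).integrable_mul (lam_mem (hΦ i))
    have i2 : Integrable fun x => v x t i * Lam (fun x => η x ^ 2 * (u x t i - v x t i)) x :=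
      (hv.mem ht i).integrable_mul (lam_mem (hΦ i))
    simp only [sub_mul] at h1
    rw [integral_sub i1 i2] at h1
    nlinarith [mul_le_mul_of_nonneg_left h1 hν]
  simp only [fun i => hu.one hT ht (hΦ i) i, fun i => hv.one hT ht (hΦ i) i]
  have k4 := k2 0
  have k5 := k2 1
  have k6 := k2 2
  have k7 : ν * C * en u v t = ∑ i, ν * C * ∫ x, (u x t i - v x t i) ^ 2 := by
    rw [en, Finset.mul_sum]
  rw [Fin.sum_univ_three] at k7
  rw [Fin.sum_univ_three, Fin.sum_univ_three] at k1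
  rw [Fin.sum_univ_three]
  linarith [k3 0, k3 1, k3 2]

theorem WS.cont (hu : WS ν T E0 u p) (ht : t ∈ Icc 0 T) : Continuous fun x => u x t :=
  (contDiffOn_vec.2 hu.ju).continuousOn.comp_continuous (f := fun x : R3 => (x, t)) (by fun_prop)
    fun _ => ⟨trivial, ht⟩

theorem four_real (hu : WS ν T E0 u p) (ht : t ∈ Icc 0 T)
    (h : (∫⁻ x, ‖u x t‖ₑ ^ 4) ^ (1 / 2 : ℝ) ≠ ⊤) : (Integrable fun x => ‖u x t‖ ^ 4) ∧
      ∫ x, ‖u x t‖ ^ 4 ≤ ((∫⁻ x, ‖u x t‖ₑ ^ 4) ^ (1 / 2 : ℝ)).toReal ^ 2 := by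
  have e : ∫⁻ x, ‖u x t‖ₑ ^ 4 = ∫⁻ x, ENNReal.ofReal (‖u x t‖ ^ 4) :=
    lintegral_congr fun x => by rw [ENNReal.ofReal_pow (norm_nonneg _), ofReal_norm]
  have hn : 0 ≤ᵐ[volume] fun x => ‖u x t‖ ^ 4 := Eventually.of_forall fun x => by positivity
  have hm := ((hu.cont ht).norm.pow 4).aestronglyMeasurable (μ := volume)
  have h1 : ∫⁻ x, ‖u x t‖ₑ ^ 4 < ⊤ := (ENNReal.rpow_lt_top_iff_of_pos (by norm_num)).1 h.lt_top
  refine ⟨⟨hm, (hasFiniteIntegral_iff_ofReal hn).2 (e ▸ h1)⟩, le_of_eq ?_⟩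
  rw [integral_eq_lintegral_of_nonneg_ae hn hm, ← e, ← ENNReal.toReal_pow, ← ENNReal.rpow_natCast,
    ← ENNReal.rpow_mul]
  norm_num

theorem loc_step (hν : 0 ≤ ν) (hu : WS ν T E0 u p) (hv : WS ν T E0 v q) (hT : 0 < T) (hM : 0 ≤ M)
    (hb : ∀ t ∈ Icc 0 T, ∀ x i, |v x t i| ≤ M ∧ ∀ j, |pd j (fun y => v y t i) x| ≤ M)
    (h4 : ∫⁻ t in Icc 0 T, (∫⁻ x, ‖u x t‖ₑ ^ 4) ^ (1 / 2 : ℝ) < ⊤) :
    ∃ L K : ℝ, 0 ≤ L ∧ ∀ (η : R3 → ℝ) (lam t0 t1 S : ℝ), Test η → (∀ x, 0 ≤ η x ∧ η x ≤ 1) →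
      0 < lam → lam ≤ 1 → (∀ x, ‖fderiv ℝ η x‖ ≤ lam) → 0 ≤ t0 → t0 ≤ t1 → t1 ≤ T →
      (∀ t ∈ Icc t0 t1, en u v t ≤ S) →
      ∑ i, ∫ x, (u x t1 i - v x t1 i) ^ 2 * η x ^ 2
        ≤ (∑ i, ∫ x, (u x t0 i - v x t0 i) ^ 2 * η x ^ 2) + L * (t1 - t0) * S + lam * K := by
  obtain ⟨C, hC, hr⟩ := rate
  have hE := hu.nonneg ⟨le_rfl, hT.le⟩
  refine ⟨2 * (ν * C + 9 * M), 324 * (E0 + 1) * (M * (E0 + 1) * T
    + (∫⁻ t in Icc 0 T, (∫⁻ x, ‖u x t‖ₑ ^ 4) ^ (1 / 2 : ℝ)).toReal), by positivity,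
    fun η lam t0 t1 S hη h01 hl hl1 hd h0 h01' h1 hS => ?_⟩
  have hI := uniqueDiffOn_Icc hT
  have jw : ∀ i, JS (Icc 0 T) fun x t => (u x t i - v x t i) ^ 2 := fun i => by
    simp only [sq]
    exact ((hu.ju i).sub (hv.ju i)).mul ((hu.ju i).sub (hv.ju i))
  set D : ℝ → ℝ := fun t => ∑ i, ∫ x,
    derivWithin (fun s => (u x s i - v x s i) ^ 2) (Icc 0 T) t * η x ^ 2 with hD
  have hsub : Icc t0 t1 ⊆ Icc 0 T := Icc_subset_Icc h0 h1
  have d1 : ∀ t ∈ Icc 0 T, HasDerivWithinAt (fun s => ∑ i, ∫ x, (u x s i - v x s i) ^ 2 * η x ^ 2)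
      (D t) (Icc 0 T) t := fun t ht => HasDerivWithinAt.fun_sum fun i _ =>
    JS.hasDerivWithinAt_integral hT (jw i) (test_sq hη) ht
  have d2 : ContinuousOn D (Icc t0 t1) := (continuousOn_finsetSum _ fun i _ =>
    ((jw i).time hI).continuousOn_integral (test_sq hη)).mono hsub
  have d3 := intervalIntegral.integral_eq_sub_of_hasDerivAt_of_le h01'
    (fun t ht => ((d1 t (hsub ht)).continuousWithinAt).mono hsub)
    (fun t ht => (d1 t (hsub (Ioo_subset_Icc_self ht))).hasDerivAt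
      (Icc_mem_nhds (h0.trans_lt ht.1) (ht.2.trans_le h1)))
    (d2.intervalIntegrable_of_Icc h01')
  have d4 := int_le (g := fun t => D t - (2 * (ν * C + 9 * M) * S
      + lam * (324 * (E0 + 1) * (M * (E0 + 1))))) h0 h01' h1
    (c := lam * (324 * (E0 + 1))) (by positivity) (d2.sub continuousOn_const) h4 fun t ht hne => by
      obtain ⟨i4, e4⟩ := four_real hu (hsub ht) hne
      have h2 := hr hν hu hv hT (hsub ht) hη h01 hl.le hl1 hd hM
        (fun x i => (hb t (hsub ht) x i).1) (fun x i => (hb t (hsub ht) x i).2)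
        ENNReal.toReal_nonneg i4 e4
      have h3 : D t = 2 * ∑ i,
          ((∫ x, derivWithin (fun s => u x s i) (Icc 0 T) t * (η x ^ 2 * (u x t i - v x t i)))
          - ∫ x, derivWithin (fun s => v x s i) (Icc 0 T) t
            * (η x ^ 2 * (u x t i - v x t i))) := by
        rw [hD, Finset.mul_sum]
        refine Finset.sum_congr rfl fun i _ => ?_
        have hΦ : Test fun x => η x ^ 2 * (u x t i - v x t i) :=
          (test_sq hη).mul ((hu.sm (hsub ht) i).sub (hv.sm (hsub ht) i))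
        rw [← integral_sub (hΦ.integrable_mul (((hu.ju i).time hI).slice (hsub ht)).continuous)
          (hΦ.integrable_mul (((hv.ju i).time hI).slice (hsub ht)).continuous),
          ← integral_const_mul]
        congr 1
        funext x
        have h5 := ((((hu.ju i).hasDerivWithinAt x (hsub ht)).fun_sub
          ((hv.ju i).hasDerivWithinAt x (hsub ht))).fun_pow 2).derivWithin (hI t (hsub ht))
        rw [h5]
        push_cast
        ring
      have h6 := mul_le_mul_of_nonneg_left (hS t ht) (by positivity : 0 ≤ ν * C + 9 * M)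
      rw [h3]
      linarith
  rw [intervalIntegral.integral_sub (d2.intervalIntegrable_of_Icc h01') intervalIntegrable_const,
    d3, intervalIntegral.integral_const, smul_eq_mul] at d4
  have h7 := mul_le_mul_of_nonneg_right (show t1 - t0 ≤ T by linarith)
    (by positivity : 0 ≤ lam * (324 * (E0 + 1) * (M * (E0 + 1))))
  linarith

theorem WS.unique (hν : 0 ≤ ν) (hu : WS ν T E0 u p) (hv : WS ν T E0 v q) (hT : 0 < T) (hM : 0 ≤ M)
    (hb : ∀ t ∈ Icc 0 T, ∀ x i, |v x t i| ≤ M ∧ ∀ j, |pd j (fun y => v y t i) x| ≤ M)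
    (h4 : ∫⁻ t in Icc 0 T, (∫⁻ x, ‖u x t‖ₑ ^ 4) ^ (1 / 2 : ℝ) < ⊤) (h0 : ∀ x, u x 0 = v x 0) :
    ∀ t ∈ Icc 0 T, ∀ x, u x t = v x t := by
  obtain ⟨L, K, hL, hs⟩ := loc_step hν hu hv hT hM hb h4
  obtain ⟨A, hA, hcut⟩ := exists_cut
  have hd : ∀ n : ℕ, 0 < (n : ℝ) + (A + 1) := fun n => by positivity
  choose η hη h01 h1 h2 h3 using fun n : ℕ => hcut _ _ (hd n) le_rfl
  have hi := fun t ht i => (dif_mem hu hv (t := t) ht i).integrable_sq
  have hle : ∀ t n i x, (u x t i - v x t i) ^ 2 * η n x ^ 2 ≤ (u x t i - v x t i) ^ 2 :=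
    fun t n i x => mul_le_of_le_one_right (sq_nonneg _) (pow_le_one₀ (h01 n x).1 (h01 n x).2)
  have hc : ∀ t ∈ Icc 0 T, ∀ i, Continuous fun x => (u x t i - v x t i) ^ 2 := fun t ht i =>
    ((hu.sm ht i).sub (hv.sm ht i)).continuous.pow 2
  have key := uniq_gronwall (e := en u v) (T := T) hL (by simp [en, h0])
    (fun t ht => en_le hu hv ht) fun t0 t1 S a0 a1 a2 hS => by
      have m0 : t0 ∈ Icc 0 T := ⟨a0, a1.trans a2⟩
      have m1 : t1 ∈ Icc 0 T := ⟨a0.trans a1, a2⟩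
      have l1 : Tendsto (fun n => ∑ i, ∫ x, (u x t1 i - v x t1 i) ^ 2 * η n x ^ 2) atTop
          (𝓝 (en u v t1)) := by
        refine tendsto_finsetSum _ fun i _ => tendsto_integral_of_dominated_convergence _
          (fun n => ((test_sq (hη n)).integrable_mul (hc t1 m1 i)).1) (hi t1 m1 i)
          (fun n => Eventually.of_forall fun x => ?_) (Eventually.of_forall fun x => ?_)
        · rw [Real.norm_of_nonneg (by positivity)]
          exact hle t1 n i x
        · refine tendsto_const_nhds.congr' ?_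
          filter_upwards [tendsto_natCast_atTop_atTop.eventually_ge_atTop ‖x‖] with n hn
          rw [h1 n x (by linarith), one_pow, mul_one]
      have l2 : Tendsto (fun n : ℕ => en u v t0 + L * (t1 - t0) * S
          + (A + 1) / ((n : ℝ) + (A + 1)) * K) atTop (𝓝 (en u v t0 + L * (t1 - t0) * S + 0 * K)) :=
        ((tendsto_const_nhds.div_atTop (tendsto_atTop_add_const_right _ _
          tendsto_natCast_atTop_atTop)).mul_const K).const_add _
      rw [zero_mul, add_zero] at l2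
      refine le_of_tendsto_of_tendsto' l1 l2 fun n => ?_
      refine (hs (η n) ((A + 1) / ((n : ℝ) + (A + 1))) t0 t1 S (hη n) (h01 n)
        (div_pos (by linarith) (hd n)) ((div_le_one (hd n)).2 (le_add_of_nonneg_left n.cast_nonneg))
        (fun x => (h3 n x).trans (div_le_div_of_nonneg_right (by linarith) (hd n).le))
        a0 a1 a2 hS).trans ?_
      have h5 : ∑ i, ∫ x, (u x t0 i - v x t0 i) ^ 2 * η n x ^ 2 ≤ en u v t0 :=
        Finset.sum_le_sum fun i _ => integral_mono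
          ((test_sq (hη n)).integrable_mul (hc t0 m0 i)) (hi t0 m0 i) (hle t0 n i)
      linarith
  intro t ht x
  ext i
  have h5 := (integral_eq_zero_iff_of_nonneg (fun _ => sq_nonneg _) (hi t ht i)).1
    (le_antisymm ((en_one i).trans (key t ht)) (integral_nonneg fun _ => sq_nonneg _))
  have h6 := congrFun (((hc t ht i).ae_eq_iff_eq volume continuous_zero).1 h5) x
  exact sub_eq_zero.1 (pow_eq_zero_iff two_ne_zero |>.1 h6)

end Pool.Agent.Work.MP_6bf1e5_an.Ens.Wide.Q
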