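import Pool.Agent.Work.MP_6bf1e5_an.HP.Ker
import Pool.Agent.Work.MP_6bf1e5_an.H.WideUq

/-!
The working form of the class of solutions and the weak pressure formula: port of WideWeak and
WidePress.
-/

open scoped ContDiff ENNReal FourierTransform Topology
open Set MeasureTheory Filter Metric

namespace Pool.Agent.Work.MP_6bf1e5_an.Ens.Wide.Q

open H (Hinf)
open H.Q (Par Lam se_nn)

variable [P : Par]

/-- The working form of a solution. -/
structure WS (ν T E0 : ℝ) (u : R3 → ℝ → R3) (p : R3 → ℝ → ℝ) : Prop where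
  ju : ∀ i, JS (Icc 0 T) fun x t => u x t i
  jp : JS (Icc 0 T) p
  ie : ∀ t ∈ Icc 0 T, Integrable fun x => ‖u x t‖ ^ 2
  le : ∀ t ∈ Icc 0 T, ∫ x, ‖u x t‖ ^ 2 ≤ E0
  mom : ∀ t ∈ Icc 0 T, ∀ i φ, Test φ →
    ∫ x, (derivWithin (fun s => u x s i) (Icc 0 T) t
        + ∑ j, u x t j * pd j (fun y => u y t i) x + pd i (fun y => p y t) x) * φ x
      = -ν * ∫ x, u x t i * Lam φ x
  dv : ∀ x, ∀ t ∈ Icc 0 T, ∑ i, pd i (fun y => u y t i) x = 0

variable {ν T E0 t : ℝ} {u : R3 → ℝ → R3} {p : R3 → ℝ → ℝ} {φ ψ f : R3 → ℝ}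

theorem lam_pd (h : Test φ) (i : Fin 3) : Lam (pd i φ) = pd i (Lam φ) :=
  (H.pd_Dp (hinf h).inA se_nn i).symm

theorem lam_add (h : Test φ) (g : Test ψ) :
    Lam (fun x => φ x + ψ x) = fun x => Lam φ x + Lam ψ x :=
  H.Dp_add (hinf h).inA (hinf g).inA se_nn

theorem lam_hinf (h : Test φ) : Hinf (Lam φ) := (hinf h).Dp se_nn

theorem lam_mem (h : Test φ) : MemLp (Lam φ) 2 volume := (lam_hinf h).2 []

theorem lam_sq (h : Test φ) :
    ∫ y, Lam φ y ^ 2 ≤ (∫ y, φ y ^ 2) + 3 * ∑ j, ∫ y, pd j (pd j φ) y ^ 2 :=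
  H.Q.lam_sq_le (hinf h)

theorem WS.sm (h : WS ν T E0 u p) (ht : t ∈ Icc 0 T) (i : Fin 3) :
    ContDiff ℝ ∞ fun x => u x t i := (h.ju i).slice ht

theorem WS.mem (h : WS ν T E0 u p) (ht : t ∈ Icc 0 T) (i : Fin 3) :
    MemLp (fun x => u x t i) 2 volume := by
  have hc := (h.sm ht i).continuous
  refine (memLp_two_iff_integrable_sq hc.aestronglyMeasurable).2 ((h.ie t ht).mono'
    (hc.pow 2).aestronglyMeasurable (Eventually.of_forall fun x => ?_))
  rw [Real.norm_of_nonneg (sq_nonneg _)]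
  exact sq_le _ i

theorem WS.grad0 (h : WS ν T E0 u p) (ht : t ∈ Icc 0 T) (hφ : Test φ) :
    ∑ i, ∫ x, u x t i * pd i φ x = 0 := by
  have e : ∀ i, ∫ x, u x t i * pd i φ x = -∫ x, pd i (fun y => u y t i) x * φ x := fun i => by
    rw [integral_pd_mul (h.sm ht i) hφ i, neg_neg]
  simp only [e]
  rw [Finset.sum_neg_distrib, ← integral_finsetSum _ fun i _ =>
    hφ.integrable_mul (contDiff_pd (h.sm ht i) i).continuous]
  simp only [← Finset.sum_mul, h.dv _ t ht, zero_mul, integral_zero, neg_zero]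

theorem WS.grad1 (h : WS ν T E0 u p) (ht : t ∈ Icc 0 T) (hf : Nice f) :
    ∑ i, ∫ x, u x t i * pd i f x = 0 := by
  obtain ⟨θ, hθ, hS⟩ := press_cut
  have h1 := (press_unif_sum fun i => press_pair_sq (w := fun x s => u x s i)
    ((hS f hf).pd i).s0 (fun s _ x => sq_le _ i) h.ie h.le).tendsto_at ht
  refine tendsto_nhds_unique (tendsto_const_nhds.congr fun n => ?_) h1
  have tf : Test fun y => θ n y * f y := (hθ n).mul hf.smooth
  rw [← sub_zero (∑ i, ∫ x, u x t i * pd i f x), ← h.grad0 ht tf, ← Finset.sum_sub_distrib]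
  refine Finset.sum_congr rfl fun i _ => ?_
  have i1 : Integrable fun x => u x t i * pd i f x := (h.mem ht i).integrable_mul (mem_pd hf i)
  rw [← integral_sub i1 ((tf.pd i).integrable_mul (h.sm ht i).continuous)]
  congr 1
  funext x
  rw [press_split (hθ n).1 hf.smooth i x]
  ring

theorem WS.one (h : WS ν T E0 u p) (hT : 0 < T) (ht : t ∈ Icc 0 T) (hφ : Test φ) (i : Fin 3) :
    ∫ x, derivWithin (fun s => u x s i) (Icc 0 T) t * φ x
      = -ν * (∫ x, u x t i * Lam φ x) - (∫ x, (∑ j, u x t j * pd j (fun y => u y t i) x) * φ x)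
        - ∫ x, pd i (fun y => p y t) x * φ x := by
  have i1 := hφ.integrable_mul (((h.ju i).time (uniqueDiffOn_Icc hT)).slice ht).continuous
  have i2 := hφ.integrable_mul (f := fun x => ∑ j, u x t j * pd j (fun y => u y t i) x)
    (continuous_finsetSum _ fun j _ =>
      (h.sm ht j).continuous.mul (contDiff_pd (h.sm ht i) j).continuous)
  have i3 := hφ.integrable_mul (contDiff_pd (h.jp.slice ht) i).continuous
  rw [← h.mom t ht i φ hφ]
  simp only [add_mul]
  rw [integral_add (i1.fun_add i2) i3, integral_add i1 i2]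
  ring

theorem WS.flux (h : WS ν T E0 u p) (ht : t ∈ Icc 0 T) (hφ : Test φ) {g : R3 → ℝ}
    (hg : ContDiff ℝ ∞ g) :
    ∫ x, (∑ j, u x t j * pd j g x) * φ x = -∑ j, ∫ x, u x t j * g x * pd j φ x := by
  have e : ∀ x, ∑ j, u x t j * pd j g x = ∑ j, pd j (fun y => u y t j * g y) x := fun x => by
    rw [Finset.sum_congr rfl fun j _ => pd_mul ((h.sm ht j).differentiable (by simp) x)
      (hg.differentiable (by simp) x) j, Finset.sum_add_distrib, ← Finset.sum_mul, h.dv x t ht,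
      zero_mul, zero_add]
  simp only [e, Finset.sum_mul]
  rw [integral_finsetSum _ fun j _ =>
    hφ.integrable_mul (contDiff_pd ((h.sm ht j).mul hg) j).continuous, ← Finset.sum_neg_distrib]
  exact Finset.sum_congr rfl fun j _ => integral_pd_mul ((h.sm ht j).mul hg) hφ j

theorem lam_small {Ξ : ℕ → R3 → ℝ} (hs : press_Small Ξ) (ht : ∀ n, Test (Ξ n)) :
    Tendsto (fun n => ∫ x, Lam (Ξ n) x ^ 2) atTop (𝓝 0) := by
  refine squeeze_zero (fun n => integral_nonneg fun x => sq_nonneg _) (fun n => lam_sq (ht n)) ?_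
  simpa using hs.s0.l2.add ((tendsto_finsetSum Finset.univ fun j _ =>
    ((hs.pd j).pd j).s0.l2).const_mul 3)

theorem WS.split (h : WS ν T E0 u p) (ht : t ∈ Icc 0 T) {Θ Ξ : Fin 3 → R3 → ℝ} {χ : R3 → ℝ}
    (hχ : Nice χ) (hΞ : ∀ i, MemLp (Ξ i) 2 volume) (e : ∀ i x, Θ i x = pd i χ x + Ξ i x) :
    ∑ i, ∫ x, u x t i * Θ i x = ∑ i, ∫ x, u x t i * Ξ i x := by
  have e1 : ∀ i, ∫ x, u x t i * Θ i x
      = (∫ x, u x t i * pd i χ x) + ∫ x, u x t i * Ξ i x := fun i => by
    have i1 : Integrable fun x => u x t i * pd i χ x := (h.mem ht i).integrable_mul (mem_pd hχ i)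
    have i2 : Integrable fun x => u x t i * Ξ i x := (h.mem ht i).integrable_mul (hΞ i)
    rw [← integral_add i1 i2]
    simp only [e, mul_add]
  simp only [e1]
  rw [Finset.sum_add_distrib, h.grad1 ht hχ, zero_add]

theorem WS.pressure (h : WS ν T E0 u p) (hT : 0 < T) {Φ : Fin 3 → R3 → ℝ}
    (hΦ : ∀ i, Test (Φ i)) (ht : t ∈ Icc 0 T) :
    ∑ i, ∫ x, pd i (fun y => p y t) x * Φ i x = ∑ i, ∑ j, ∫ x,
      u x t j * u x t i * pd i (pd j (nw fun y => ∑ k, pd k (Φ k) y)) x := by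
  obtain ⟨hχ, Ψ, hΨ, hanti, hdec⟩ := exists_potentials hΦ
  set χ : R3 → ℝ := nw fun y => ∑ k, pd k (Φ k) y
  obtain ⟨θ, hθ, hS⟩ := press_cut
  obtain ⟨R, hR⟩ : ∃ R : Fin 3 → ℕ → R3 → ℝ,
      R = fun i n x => ∑ k, pd k (fun y => (1 - θ n y) * Ψ i k y) x := ⟨_, rfl⟩
  obtain ⟨Ξ, hΞ⟩ : ∃ Ξ : Fin 3 → ℕ → R3 → ℝ,
      Ξ = fun i n x => pd i (fun y => (1 - θ n y) * χ y) x + R i n x := ⟨_, rfl⟩
  obtain ⟨Θ, hΘ⟩ : ∃ Θ : ℕ → Fin 3 → R3 → ℝ,
      Θ = fun n i x => Φ i x - ∑ k, pd k (fun y => θ n y * Ψ i k y) x := ⟨_, rfl⟩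
  have sR : ∀ i, press_Small (R i) := fun i => by
    rw [hR]
    exact press_Small.sum fun k => (hS _ (hΨ i k)).pd k
  have sΞ : ∀ i, press_Small (Ξ i) := fun i => by
    rw [hΞ]
    exact ((hS _ hχ).pd i).add (sR i)
  have tP : ∀ n i k, Test fun y => θ n y * Ψ i k y := fun n i k => (hθ n).mul (hΨ i k).smooth
  have tP' : ∀ n i, Test fun x => ∑ k, pd k (fun y => θ n y * Ψ i k y) x := fun n i =>
    Test.sum _ fun k _ => (tP n i k).pd k
  have tχ : ∀ n, Test fun y => θ n y * χ y := fun n => (hθ n).mul hχ.smooth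
  have tΘ : ∀ n i, Test (Θ n i) := fun n i => by
    rw [hΘ]
    exact (hΦ i).sub (tP' n i)
  have e1 : ∀ n i x, Θ n i x = pd i χ x + R i n x := fun n i x => by
    simp only [hΘ, hR]
    rw [hdec i x, Finset.sum_congr rfl fun k _ => press_split (hθ n).1 (hΨ i k).smooth k x,
      Finset.sum_add_distrib]
    ring
  have e2 : ∀ n i x, Θ n i x = pd i (fun y => θ n y * χ y) x + Ξ i n x := fun n i x => by
    rw [e1, press_split (hθ n).1 hχ.smooth i x, hΞ, add_assoc]
  have tΞ : ∀ n i, Test (Ξ i n) := fun n i => by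
    have e : Ξ i n = fun x => Θ n i x - pd i (fun y => θ n y * χ y) x :=
      funext fun x => by rw [e2, add_sub_cancel_left]
    rw [e]
    exact (tΘ n i).sub ((tχ n).pd i)
  have hw : ∀ i, ∀ s ∈ Icc 0 T, ∀ x, u x s i ^ 2 ≤ ‖u x s‖ ^ 2 := fun i s _ x => sq_le _ i
  have key := press_limit hT (G := fun n s => ∑ i, ∫ x, u x s i * Θ n i x)
    (D := fun n s => ∑ i, ∫ x, derivWithin (fun s => u x s i) (Icc 0 T) s * Θ n i x)
    (e := fun n s => -ν * (∑ i, ∫ x, u x s i * Lam (Ξ i n) x)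
      + ∑ i, ∑ j, ∫ x, u x s j * u x s i * pd j (R i n) x)
    (L := fun s => (∑ i, ∑ j, ∫ x, u x s j * u x s i * pd i (pd j χ) x)
      - ∑ i, ∫ x, pd i (fun y => p y s) x * Φ i x)
    (fun n s hs => HasDerivWithinAt.fun_sum fun i _ =>
      JS.hasDerivWithinAt_integral hT (h.ju i) (tΘ n i) hs)
    (fun n => continuousOn_finsetSum _ fun i _ =>
      ((h.ju i).time (uniqueDiffOn_Icc hT)).continuousOn_integral (tΘ n i))
    ?_ ?_ (fun n s hs => ?_) ht
  · linarith
  · refine (press_unif_sum fun i => press_pair_sq (w := fun x s => u x s i) (sΞ i).s0 (hw i)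
      h.ie h.le).congr (Eventually.of_forall fun n s hs => ?_)
    exact (h.split hs (nice_of_hinf (hinf (tχ n))) (fun i => (hinf (tΞ n i)).2 []) (e2 n)).symm
  · refine press_unif_add (press_unif_mul (-ν) (press_unif_sum fun i =>
      pair_sq (w := fun x s => u x s i) (fun n => (lam_mem (tΞ n i)).integrable_sq)
        (lam_small (sΞ i) fun n => tΞ n i) (hw i) h.ie h.le))
      (press_unif_sum fun i => press_unif_sum fun j =>
        press_pair_one (F := fun x s => u x s j * u x s i) ((sR i).pd j).s0 zero_le_one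
          (fun s _ x => prod_le _ i j) h.ie h.le)
  · have hq := h.jp.slice hs
    have a1 := h.split hs (Θ := fun i => Lam (Θ n i)) (nice_of_hinf (lam_hinf (tχ n)))
      (fun i => lam_mem (tΞ n i)) fun i x => by
        rw [funext (e2 n i), lam_add ((tχ n).pd i) (tΞ n i), lam_pd (tχ n)]
    have a2 : ∀ i j, ∫ x, u x s j * u x s i * pd j (Θ n i) x
        = (∫ x, u x s j * u x s i * pd j (R i n) x)
          + ∫ x, u x s j * u x s i * pd i (pd j χ) x := fun i j => by
      have hc := (h.sm hs j).continuous.mul (h.sm hs i).continuous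
      have i1 : Integrable fun x => u x s j * u x s i := (h.mem hs j).integrable_mul (h.mem hs i)
      obtain ⟨C, hC⟩ := press_hess hχ i j
      have i2 := i1.mul_bdd
        (contDiff_pd (contDiff_pd hχ.smooth j) i).continuous.aestronglyMeasurable
        (Eventually.of_forall hC)
      have i3 : Integrable fun x => u x s j * u x s i * pd j (Θ n i) x :=
        ((tΘ n i).pd j).integrable_mul hc
      rw [← sub_eq_iff_eq_add, ← integral_sub i3 i2]
      congr 1
      funext x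
      have e : Θ n i = fun x => pd i χ x + R i n x := funext (e1 n i)
      rw [e, press_pd_add (contDiff_pd hχ.smooth i) ((sR i).sm n) j]
      simp only
      rw [pd_comm hχ.smooth j i x]
      ring
    have a3 : ∑ i, ∫ x, pd i (fun y => p y s) x * Θ n i x
        = ∑ i, ∫ x, pd i (fun y => p y s) x * Φ i x := by
      have a4 := press_anti hq (tP n) fun i k x => by rw [hanti i k x, mul_neg]
      rw [← sub_zero (∑ i, ∫ x, pd i (fun y => p y s) x * Φ i x), ← a4, ← Finset.sum_sub_distrib]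
      refine Finset.sum_congr rfl fun i _ => ?_
      rw [← integral_sub ((hΦ i).integrable_mul (contDiff_pd hq i).continuous)
        ((tP' n i).integrable_mul (contDiff_pd hq i).continuous)]
      simp only [hΘ, mul_sub]
    simp only [fun i => h.one hT hs (tΘ n i) i, fun i => h.flux hs (tΘ n i) (h.sm hs i), a2,
      Finset.sum_add_distrib, Finset.sum_sub_distrib, Finset.sum_neg_distrib, ← Finset.mul_sum]
    rw [a1, a3]
    ring

end Pool.Agent.Work.MP_6bf1e5_an.Ens.Wide.Q
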